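import Pool.Agent.Helper34.RP.Pat

/-!
Vertices (elements whose deletion is totally cyclic) exist; ballot-type lower bound.
-/

set_option autoImplicit false

open Finset Module

namespace Pool.Agent.Helper34.RP

variable {n : ℕ}

/-- Gordan's theorem -/
theorem gordan {V : Submodule ℝ (Fin n → ℝ)} (h : TC V) :
    ∃ w : Fin n → ℝ, (∀ i, 0 < w i) ∧ ∀ x ∈ V, ∑ i, w i * x i = 0 := by
  have hdis : Disjoint (stdSimplex ℝ (Fin n)) (V : Set (Fin n → ℝ)) := by
    rw [Set.disjoint_left]
    rintro x ⟨h1, h2⟩ hx
    have := h x hx h1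
    subst this
    simp at h2
  obtain ⟨f, u, v, h1, h2, h3⟩ := geometric_hahn_banach_compact_closed
    (convex_stdSimplex ℝ (Fin n)) (isCompact_stdSimplex ℝ (Fin n))
    V.convex (Submodule.closed_of_finiteDimensional V) hdis
  have hv : v < 0 := by simpa using h3 0 V.zero_mem
  have hV : ∀ x ∈ V, f x = 0 := by
    intro x hx
    by_contra hne
    have := h3 (((v - 1) / f x) • x) (V.smul_mem _ hx)
    rw [map_smul, smul_eq_mul, div_mul_cancel₀ _ hne] at this
    linarith
  refine ⟨fun i => -f (Pi.single i 1), fun i => ?_, fun x hx => ?_⟩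
  · have : (Pi.single i 1 : Fin n → ℝ) ∈ stdSimplex ℝ (Fin n) := single_mem_stdSimplex ℝ i
    have := h1 _ this
    linarith
  · have h4 := hV x hx
    have h5 : x = ∑ i, x i • (Pi.single i 1 : Fin n → ℝ) := by
      funext j
      simp [Finset.sum_apply, Pi.single_apply]
    rw [h5, map_sum] at h4
    simp only [map_smul, smul_eq_mul] at h4
    calc ∑ i, -f (Pi.single i 1) * x i = -∑ i, x i * f (Pi.single i 1) := by
          rw [← sum_neg_distrib]; exact sum_congr rfl fun i _ => by ring
      _ = 0 := by rw [h4]; simp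

/-- a positive functional gives total cyclicity -/
theorem tc_of_pos {V : Submodule ℝ (Fin n → ℝ)} (w : Fin n → ℝ) (hw : ∀ i, 0 < w i)
    (h : ∀ x ∈ V, ∑ i, w i * x i = 0) : TC V := by
  intro x hx hx0
  have h1 := h x hx
  rw [sum_eq_zero_iff_of_nonneg (fun i _ => mul_nonneg (hw i).le (hx0 i))] at h1
  funext i
  have := h1 i (mem_univ i)
  rcases mul_eq_zero.1 this with h2 | h2
  · exact absurd h2 (hw i).ne'
  · exact h2

/-- there is a vertex -/
theorem exists_vertex {V : Submodule ℝ (Fin (n + 1) → ℝ)} {r : ℕ} (h : Uni V r) (htc : TC V)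
    (hr : r + 1 ≤ n) : ∃ v, TC (del V v) := by
  obtain ⟨w, hw, hwV⟩ := gordan htc
  -- a functional vanishing on `V` which is not a multiple of `w`
  obtain ⟨u, hu0, huV, hu00⟩ : ∃ u : Fin (n + 1) → ℝ, u ≠ 0 ∧ (∀ x ∈ V, ∑ i, u i * x i = 0) ∧
      u 0 = 0 := by
    let Φ : (Fin (n + 1) → ℝ) →ₗ[ℝ] (V →ₗ[ℝ] ℝ) × ℝ :=
      { toFun := fun u => ({ toFun := fun x => ∑ i, u i * (x : Fin (n + 1) → ℝ) i
                             map_add' := fun x y => by
                              simp [mul_add, sum_add_distrib]
                             map_smul' := fun c x => by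
                              simp only [Submodule.coe_smul, Pi.smul_apply, smul_eq_mul,
                                RingHom.id_apply, mul_sum]
                              exact sum_congr rfl fun i _ => by ring }, u 0)
        map_add' := fun a b => by
          apply Prod.ext
          · ext x; simp [add_mul, sum_add_distrib]
          · simp
        map_smul' := fun c a => by
          apply Prod.ext
          · ext x; simp [mul_sum, mul_assoc]
          · simp }
    have hker : LinearMap.ker Φ ≠ ⊥ := by
      apply LinearMap.ker_ne_bot_of_finrank_lt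
      rw [finrank_prod, finrank_self, finrank_fin_fun]
      have : finrank ℝ (V →ₗ[ℝ] ℝ) = finrank ℝ V := Subspace.dual_finrank_eq
      rw [this, h.finrank_eq]
      omega
    obtain ⟨u, hu, hu0⟩ := Submodule.exists_mem_ne_zero_of_ne_bot hker
    have hu' : Φ u = 0 := hu
    have e1 := congrArg Prod.fst hu'
    have e2 := congrArg Prod.snd hu'
    refine ⟨u, hu0, fun x hx => ?_, e2⟩
    have h9 : (Φ u).1 ⟨x, hx⟩ = 0 := by rw [e1]; rfl
    exact h9
  obtain ⟨v, -, hv⟩ := exists_max_image (univ : Finset (Fin (n + 1))) (fun i => u i / w i)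
    ⟨0, mem_univ _⟩
  refine ⟨v, fun y hy hy0 => ?_⟩
  obtain ⟨x, hx, hxy⟩ := mem_del.1 hy
  by_contra hne
  have hx0 : x ≠ 0 := by
    rintro rfl
    exact hne (funext fun i => by rw [← hxy i]; rfl)
  -- `u - m w` vanishes where `x` does not
  set m := u v / w v with hm
  have h1 : ∑ i, (m * w i - u i) * x i = 0 := by
    have := hwV x hx
    have := huV x hx
    calc ∑ i, (m * w i - u i) * x i = m * ∑ i, w i * x i - ∑ i, u i * x i := by
          rw [mul_sum, ← sum_sub_distrib]; exact sum_congr rfl fun i _ => by ring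
      _ = 0 := by rw [hwV x hx, huV x hx]; ring
  have hvv : m * w v - u v = 0 := by rw [hm, div_mul_cancel₀ _ (hw v).ne']; ring
  have hnn : ∀ i, 0 ≤ m * w i - u i := by
    intro i
    have := hv i (mem_univ _)
    rw [div_le_iff₀ (hw i)] at this
    linarith
  have hterm : ∀ i, 0 ≤ (m * w i - u i) * x i := by
    intro i
    rcases Fin.eq_self_or_eq_succAbove v i with rfl | ⟨j, rfl⟩
    · rw [hvv]; simp
    · rw [hxy]; exact mul_nonneg (hnn _) (hy0 j)
  rw [sum_eq_zero_iff_of_nonneg (fun i _ => hterm i)] at h1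
  have hz : ∀ i, x i ≠ 0 → m * w i - u i = 0 := by
    intro i hi
    rcases mul_eq_zero.1 (h1 i (mem_univ i)) with h2 | h2
    · exact h2
    · exact absurd h2 hi
  obtain ⟨z, hz1, hz2⟩ := interp h (univ.filter (fun i => x i = 0))
    (by rw [← zc_card]; exact (h.zer x hx hx0).le) (fun i => m * w i - u i)
  have h2 : ∑ i, (m * w i - u i) * z i = 0 := by
    calc ∑ i, (m * w i - u i) * z i = m * ∑ i, w i * z i - ∑ i, u i * z i := by
          rw [mul_sum, ← sum_sub_distrib]; exact sum_congr rfl fun i _ => by ring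
      _ = 0 := by rw [hwV z hz1, huV z hz1]; ring
  have h3 : ∀ i, (m * w i - u i) * z i = (m * w i - u i) ^ 2 := by
    intro i
    by_cases hi : x i = 0
    · rw [hz2 i (by simp [hi])]; ring
    · rw [hz i hi]; ring
  rw [sum_congr rfl (fun i _ => h3 i), sum_eq_zero_iff_of_nonneg (fun i _ => sq_nonneg _)] at h2
  have h4 : ∀ i, u i = m * w i := fun i => by
    have := h2 i (mem_univ i)
    have := pow_eq_zero_iff (two_ne_zero) |>.1 this
    linarith
  have hm0 : m = 0 := by
    have := h4 0
    rw [hu00] at this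
    rcases mul_eq_zero.1 this.symm with h5 | h5
    · exact h5
    · exact absurd h5 (hw 0).ne'
  exact hu0 (funext fun i => by rw [h4 i, hm0]; simp)

/-- negation of patterns -/
theorem pat_not {V : Submodule ℝ (Fin n → ℝ)} {σ : Fin n → Bool} (h : Pat V σ) :
    Pat V (fun i => !(σ i)) := by
  obtain ⟨x, hx, h1⟩ := h
  refine ⟨-x, V.neg_mem hx, fun i => ⟨fun hi => ?_, fun hi => ?_⟩⟩
  · have := (h1 i).2 (by simpa using hi); simpa using this
  · have := (h1 i).1 (by simpa using hi); simpa using this

theorem ct_not (b : Bool) (σ : Fin n → Bool) : ct b (fun i => !(σ i)) = ct (!b) σ := by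
  rw [ct, ct]
  refine sum_congr rfl fun i _ => ?_
  cases σ i <;> cases b <;> simp

theorem ct_pos {b : Bool} {σ : Fin n → Bool} {i : Fin n} (h : σ i = b) : 1 ≤ ct b σ := by
  rw [ct]
  calc 1 = (if σ i = b then 1 else 0 : ℕ) := by simp [h]
    _ ≤ _ := single_le_sum (f := fun i => (if σ i = b then 1 else 0 : ℕ))
      (fun _ _ => Nat.zero_le _) (mem_univ i)

/-- rank one -/
theorem Bs_one {V : Submodule ℝ (Fin n → ℝ)} (h : Uni V 1) (htc : TC V) :
    2 ≤ (Bs 1 V).card := by
  have hn := h.le
  obtain ⟨x, hx, hx1⟩ := interp h {⟨0, hn⟩} (by simp) (fun _ => 1)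
  have hx0 : x ≠ 0 := by
    rintro rfl
    have := hx1 _ (mem_singleton_self _)
    simp at this
  have hz : ∀ i, x i ≠ 0 := by
    intro i hi
    have := h.zer x hx hx0
    have h2 : ({i} : Finset (Fin n)).card ≤ zc x := card_le_zc (by simpa using hi)
    simp at h2; omega
  let σ : Fin n → Bool := fun i => decide (0 < x i)
  have hσ : Pat V σ := ⟨x, hx, fun i => ⟨fun hi => by simpa [σ] using hi, fun hi => by
    have : x i ≤ 0 := by simpa [σ] using hi
    exact lt_of_le_of_ne this (hz i)⟩⟩
  have e1 : ∃ i, σ i = true := by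
    by_contra hc
    push Not at hc
    have : -x = 0 := htc _ (V.neg_mem hx) (fun i => by
      have := hc i
      have : x i ≤ 0 := by simpa [σ] using this
      simpa using this)
    exact hx0 (neg_eq_zero.1 this)
  have e2 : ∃ i, σ i = false := by
    by_contra hc
    push Not at hc
    have : x = 0 := htc _ hx (fun i => by
      have := hc i
      have : 0 < x i := by simpa [σ] using this
      exact this.le)
    exact hx0 this
  obtain ⟨i, hi⟩ := e1
  obtain ⟨j, hj⟩ := e2
  have hne : σ ≠ fun i => !(σ i) := by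
    intro e
    have := congrFun e i
    simp at this
  calc 2 = ({σ, fun i => !(σ i)} : Finset (Fin n → Bool)).card := by
        rw [card_pair hne]
    _ ≤ _ := card_le_card (by
        intro τ hτ
        rcases mem_insert.1 hτ with rfl | hτ
        · exact mem_Bs.2 ⟨hσ, ct_pos hi, ct_pos hj⟩
        · rw [mem_singleton.1 hτ]
          refine mem_Bs.2 ⟨pat_not hσ, ?_, ?_⟩ <;> rw [ct_not]
          · exact ct_pos hj
          · exact ct_pos hi)

/-- ballot numbers -/
def bal : ℕ → ℕ → ℕ
  | _, 0 => 1
  | 0, _ + 1 => 0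
  | d + 1, k + 1 => if k ≤ d then bal d (k + 1) + bal (d + 1) k else 0

theorem bal_zero (d : ℕ) : bal d 0 = 1 := by cases d <;> simp [bal]

theorem bal_succ {d k : ℕ} (h : k ≤ d) :
    bal (d + 1) (k + 1) = bal d (k + 1) + bal (d + 1) k := by
  rw [bal, if_pos h]

theorem bal_lt {d k : ℕ} (h : d < k) : bal d k = 0 := by
  cases k with
  | zero => omega
  | succ k =>
    cases d with
    | zero => simp [bal]
    | succ d => rw [bal, if_neg (by omega)]

theorem bal_closed : ∀ (s d k : ℕ), d + k = s → k + 1 ≤ d →
    bal d (k + 1) + (s + 1).choose k = (s + 1).choose (k + 1) := by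
  intro s
  induction s with
  | zero => intro d k h1 h2; omega
  | succ s ih =>
    intro d k h1 h2
    obtain ⟨d, rfl⟩ : ∃ d', d = d' + 1 := ⟨d - 1, by omega⟩
    rw [bal_succ (by omega)]
    cases k with
    | zero =>
      rw [bal_zero]
      rcases Nat.eq_zero_or_pos d with rfl | hd
      · have : s = 0 := by omega
        subst this
        simp [bal]
      · have := ih d 0 (by omega) (by omega)
        simp only [Nat.choose_zero_right, Nat.choose_one_right, zero_add] at this ⊢
        omega
    | succ k =>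
      have e1 := ih (d + 1) k (by omega) (by omega)
      rw [Nat.choose_succ_succ (s + 1) k, Nat.choose_succ_succ (s + 1) (k + 1)]
      rcases Nat.lt_or_ge d (k + 1 + 1) with hlt | hge
      · have hk' : d = k + 1 := by omega
        rw [bal_lt hlt]
        have h3 : (s + 1).choose (k + 1 + 1) = (s + 1).choose (k + 1) := by
          rw [← Nat.choose_symm (show k + 1 ≤ s + 1 by omega)]
          congr 1; omega
        rw [h3]
        simp only [Nat.succ_eq_add_one]
        omega
      · have e2 := ih d (k + 1) (by omega) hge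
        simp only [Nat.succ_eq_add_one]
        omega

/-- the ballot bound -/
theorem ballot : ∀ (N d k : ℕ), N = d + k + 2 → k ≤ d → ∀ V : Submodule ℝ (Fin N → ℝ),
    Uni V (k + 1) → TC V → 2 * bal d k ≤ (Bs (k + 1) V).card := by
  intro N
  induction N with
  | zero => intro d k h; omega
  | succ n ih =>
    intro d k hN hkd V hU htc
    cases k with
    | zero => rw [bal_zero]; simpa using Bs_one hU htc
    | succ k =>
      obtain ⟨d, rfl⟩ : ∃ d', d = d' + 1 := ⟨d - 1, by omega⟩
      rw [bal_succ (by omega)]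
      obtain ⟨v, hv⟩ := exists_vertex hU htc (by omega)
      have h1 := Bs_rec hU (by omega) v ∅ (by simp)
      have h2 := ih (d + 1) k (by omega) (by omega) (con V v) (hU.con v) (htc.con v)
      rcases Nat.lt_or_ge d (k + 1) with hlt | hge
      · rw [bal_lt hlt]
        omega
      · have h3 := ih d (k + 1) (by omega) hge (del V v) (hU.del (by omega) v) hv
        simp only [card_empty] at h1
        omega

end Pool.Agent.Helper34.RP
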