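import Pool.Agent.Helper34.RP.SI

/-!
Configurations with few `(2,k)`-partitions.
-/

set_option autoImplicit false

open Finset Module

namespace Pool.Agent.Helper34.RP

variable {d : ℕ}

open Classical in
/-- adding generic points in prescribed open sets -/
theorem exists_ext (hd : 1 ≤ d) {T : Finset (E d)} (hT : SI' T) :
    ∀ (m : ℕ) (U : Fin m → Set (E d)), (∀ i, IsOpen (U i) ∧ (U i).Nonempty) →
    ∃ y : Fin m → E d, (∀ i, y i ∈ U i) ∧ Function.Injective y ∧ (∀ i, y i ∉ T) ∧
      SI' (T ∪ univ.image y) := by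
  intro m
  induction m with
  | zero =>
    intro U _
    refine ⟨Fin.elim0, fun i => i.elim0, fun i => i.elim0, fun i => i.elim0, ?_⟩
    have : (univ.image (Fin.elim0 : Fin 0 → E d)) = ∅ := by simp
    rw [this, union_empty]; exact hT
  | succ m ih =>
    intro U hU
    obtain ⟨y, h1, h2, h3, h4⟩ := ih (fun i => U i.castSucc) (fun i => hU _)
    obtain ⟨z, hz1, hz2, hz3⟩ := exists_next h4 (hU (Fin.last m)).1 (hU (Fin.last m)).2 hd
    have hzT : z ∉ T := fun h => hz2 (mem_union_left _ h)
    have hzy : ∀ i, y i ≠ z := fun i e => hz2 (mem_union_right _ (by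
      rw [← e]; exact mem_image_of_mem _ (mem_univ i)))
    refine ⟨Fin.snoc y z, fun i => ?_, ?_, fun i => ?_, ?_⟩
    · refine Fin.lastCases ?_ (fun j => ?_) i
      · simpa using hz1
      · simpa using h1 j
    · intro i j
      refine Fin.lastCases ?_ (fun i' => ?_) i
      · refine Fin.lastCases (fun _ => rfl) (fun j' => ?_) j
        simp only [Fin.snoc_last, Fin.snoc_castSucc]
        intro e
        exact absurd e.symm (hzy j')
      · refine Fin.lastCases ?_ (fun j' => ?_) j
        · simp only [Fin.snoc_last, Fin.snoc_castSucc]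
          intro e
          exact absurd e (hzy i')
        · simp only [Fin.snoc_castSucc]
          intro e
          rw [h2 e]
    · refine Fin.lastCases ?_ (fun j => ?_) i
      · simpa using hzT
      · simpa using h3 j
    · have : T ∪ univ.image (Fin.snoc y z : Fin (m + 1) → E d) =
          insert z (T ∪ univ.image y) := by
        ext w
        simp only [mem_union, mem_image, mem_univ, true_and, mem_insert]
        constructor
        · rintro (h | ⟨i, hi⟩)
          · exact Or.inr (Or.inl h)
          · revert hi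
            refine Fin.lastCases ?_ (fun j => ?_) i
            · simp only [Fin.snoc_last]
              intro e; exact Or.inl e.symm
            · simp only [Fin.snoc_castSucc]
              intro e; exact Or.inr (Or.inr ⟨j, e⟩)
        · rintro (h | h | ⟨j, hj⟩)
          · exact Or.inr ⟨Fin.last m, by simpa using h.symm⟩
          · exact Or.inl h
          · exact Or.inr ⟨j.castSucc, by simpa using hj⟩
      rw [this]; exact hz3

/-- general position gives an affine basis -/
theorem basis_of_gp {x : Fin (d + 1) → E d} (h : GP x) :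
    ∃ b : AffineBasis (Fin (d + 1)) ℝ (E d), ∀ i, b i = x i := by
  have hind : AffineIndependent ℝ x := by
    rw [affineIndependent_iff]
    intro s w h1 h2 i hi
    have h3 : (fun i => if i ∈ s then w i else 0) = 0 := by
      refine h _ (mem_dep.2 ⟨?_, ?_⟩) ?_
      · rw [sum_ite_mem, univ_inter]; exact h1
      · simp only [ite_smul, zero_smul]
        rw [sum_ite_mem, univ_inter]; exact h2
      · exact (card_le_univ _).trans (by simp)
    have := congrFun h3 i
    simpa [hi] using this
  have htot : affineSpan ℝ (Set.range x) = ⊤ := by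
    rw [hind.affineSpan_eq_top_iff_card_eq_finrank_add_one]
    simp
  exact ⟨⟨x, hind, htot⟩, fun i => rfl⟩

/-- the dependence coming from coefficients on the additional points -/
theorem vec_mem {m : ℕ} {x : Fin (d + 1) → E d} {b : AffineBasis (Fin (d + 1)) ℝ (E d)}
    (hb : ∀ i, b i = x i) (y : Fin m → E d) (c : Fin m → ℝ) :
    Fin.append (fun w => -∑ i, c i * b.coord w (y i)) c ∈ dep (Fin.append x y) := by
  refine mem_dep.2 ⟨?_, ?_⟩
  · rw [Fin.sum_univ_add]
    simp only [Fin.append_left, Fin.append_right, sum_neg_distrib]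
    rw [sum_comm]
    have : ∀ i, ∑ w, c i * b.coord w (y i) = c i := by
      intro i
      rw [← mul_sum, b.sum_coord_apply_eq_one, mul_one]
    rw [sum_congr rfl (fun i _ => this i)]
    ring
  · rw [Fin.sum_univ_add]
    simp only [Fin.append_left, Fin.append_right]
    have h1 : ∀ w, (-∑ i, c i * b.coord w (y i)) • x w =
        -∑ i, c i • (b.coord w (y i) • x w) := by
      intro w
      rw [neg_smul, sum_smul]
      simp only [mul_smul]
    rw [sum_congr rfl (fun w _ => h1 w), sum_neg_distrib, sum_comm]
    have h2 : ∀ i, ∑ w, c i • (b.coord w (y i) • x w) = c i • y i := by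
      intro i
      rw [← smul_sum]
      congr 1
      have := b.linear_combination_coord_eq_self (y i)
      rw [← this]
      exact sum_congr rfl fun w _ => by rw [hb, this]
    rw [sum_congr rfl (fun i _ => h2 i)]
    simp

theorem wk_append {m n : ℕ} {u : Fin m → ℝ} {c : Fin n → ℝ} {σX : Fin m → Bool}
    {σI : Fin n → Bool} (h1 : Wk u σX) (h2 : Wk c σI) :
    Wk (Fin.append u c) (Fin.append σX σI) := by
  intro i
  refine Fin.addCases (fun j => ?_) (fun j => ?_) i
  · simpa using h1 j
  · simpa using h2 j

theorem ct_append {m n : ℕ} (b : Bool) (σX : Fin m → Bool) (σI : Fin n → Bool) :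
    ct b (Fin.append σX σI) = ct b σX + ct b σI := by
  rw [ct, Fin.sum_univ_add, ct, ct]
  simp

theorem append_inj {m n : ℕ} {σX τX : Fin m → Bool} {σI τI : Fin n → Bool}
    (h : Fin.append σX σI = Fin.append τX τI) : σX = τX ∧ σI = τI := by
  constructor
  · funext i
    have := congrFun h (Fin.castAdd n i)
    simpa using this
  · funext i
    have := congrFun h (Fin.natAdd m i)
    simpa using this

open Classical in
/-- patterns with few `true`s -/
theorem Bs_upper {n k : ℕ} (V : Submodule ℝ (Fin n → ℝ)) (hn : 2 * k + 1 ≤ n)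
    (A : Finset (Fin n → Bool)) (hA : ∀ σ ∈ A, Pat V σ ∧ ct true σ ≤ k) :
    (Bs (k + 1) V).card + 2 * A.card ≤ (patSet V).card := by
  have hinj : Function.Injective (fun (σ : Fin n → Bool) (i : Fin n) => !(σ i)) := by
    intro σ τ h
    funext i
    have := congrFun h i
    simpa using this
  have d1 : Disjoint A (A.image (fun σ i => !(σ i))) := by
    rw [Finset.disjoint_left]
    intro σ h1 h2
    obtain ⟨τ, hτ, rfl⟩ := mem_image.1 h2
    have e1 := (hA _ h1).2
    have e2 := (hA _ hτ).2
    have e3 := ct_add τ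
    rw [ct_not] at e1
    simp only [Bool.not_true] at e1
    omega
  have d2 : Disjoint (Bs (k + 1) V) (A ∪ A.image (fun σ i => !(σ i))) := by
    rw [Finset.disjoint_left]
    intro σ h1 h2
    have e1 := mem_Bs.1 h1
    rcases mem_union.1 h2 with h2 | h2
    · have := (hA _ h2).2
      omega
    · obtain ⟨τ, hτ, rfl⟩ := mem_image.1 h2
      have := (hA _ hτ).2
      rw [ct_not, ct_not] at e1
      simp only [Bool.not_true, Bool.not_false] at e1
      omega
  have h1 : Bs (k + 1) V ∪ (A ∪ A.image (fun σ i => !(σ i))) ⊆ patSet V := by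
    intro σ hσ
    rw [mem_patSet]
    rcases mem_union.1 hσ with h | h
    · exact (mem_Bs.1 h).1
    · rcases mem_union.1 h with h | h
      · exact (hA _ h).1
      · obtain ⟨τ, hτ, rfl⟩ := mem_image.1 h
        exact pat_not (hA _ hτ).1
  have h2 := card_le_card h1
  rw [card_union_of_disjoint d2, card_union_of_disjoint d1, card_image_of_injective _ hinj] at h2
  omega

theorem card_pat_eq' {N n r : ℕ} {V : Submodule ℝ (Fin N → ℝ)} (hN : N = n + 1)
    (h : Uni V r) : (patSet V).card = 2 * ∑ j ∈ range r, n.choose j := by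
  subst hN
  exact card_pat_eq V h

open Classical in
/-- the bound for `μ` from patterns with few `true`s -/
theorem mu_le {k : ℕ} (hk : k ≤ d) {x : Fin (d + 1) → E d}
    {y : Fin (k + 1) → E d} (hx : Function.Injective x) (hy : Function.Injective y)
    (hxy : ∀ i, y i ∉ univ.image x) (hSI : SI' (univ.image x ∪ univ.image y))
    (Q : Finset ((Fin (d + 1) → Bool) × (Fin (k + 1) → Bool)))
    (hQ : ∀ p ∈ Q, ct true p.1 + ct true p.2 ≤ k ∧ ∃ c : Fin (k + 1) → ℝ, ∃ u,
      (c ≠ 0 ∧ Fin.append u c ∈ dep (Fin.append x y)) ∧ Wk u p.1 ∧ Wk c p.2) :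
    mu d 2 k + Q.card ≤ ∑ j ∈ range (k + 1), (d + 1 + k).choose j := by
  have hinj : Function.Injective (Fin.append x y) := by
    rw [Fin.append_injective_iff]
    refine ⟨hx, hy, fun i j e => hxy j ?_⟩
    rw [← e]; exact mem_image_of_mem _ (mem_univ i)
  have himg : univ.image (Fin.append x y) = univ.image x ∪ univ.image y := by
    ext w
    simp only [mem_image, mem_univ, true_and, mem_union]
    constructor
    · rintro ⟨i, hi⟩
      revert hi
      refine Fin.addCases (fun j => ?_) (fun j => ?_) i
      · rw [Fin.append_left]; intro e; exact Or.inl ⟨j, e⟩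
      · rw [Fin.append_right]; intro e; exact Or.inr ⟨j, e⟩
    · rintro (⟨j, hj⟩ | ⟨j, hj⟩)
      · exact ⟨Fin.castAdd _ j, by rw [Fin.append_left]; exact hj⟩
      · exact ⟨Fin.natAdd _ j, by rw [Fin.append_right]; exact hj⟩
  have hSIs : StronglyIndependent (univ.image (Fin.append x y)) := by
    rw [himg]; exact hSI.si
  have hGP := gp_of_si hinj hSIs
  have hU := hGP.uni (r := k + 1) (by omega)
  have h1 := numPartitions_eq hinj hGP (k := k) (by omega)
  have h2 : mu d 2 k ≤ numPartitions (univ.image (Fin.append x y)) 2 k := by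
    apply Nat.sInf_le
    refine ⟨_, ?_, hSIs, rfl⟩
    rw [card_image_of_injective _ hinj, card_univ, Fintype.card_fin]
    omega
  have h3 := card_pat_eq' (n := d + 1 + k) (by omega) hU
  have h4 := Bs_upper (k := k) (dep (Fin.append x y)) (by omega)
    (Q.image (fun p => Fin.append p.1 p.2)) (by
      intro σ hσ
      obtain ⟨p, hp, rfl⟩ := mem_image.1 hσ
      obtain ⟨e1, c, u, ⟨e2, e3⟩, e4, e5⟩ := hQ p hp
      refine ⟨pat_of_wk hU e3 ?_ (wk_append e4 e5), by rw [ct_append]; exact e1⟩
      intro h0
      apply e2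
      funext i
      have := congrFun h0 (Fin.natAdd (d + 1) i)
      simpa using this)
  rw [card_image_of_injective] at h4
  · omega
  · rintro ⟨a, b⟩ ⟨a', b'⟩ h
    obtain ⟨e1, e2⟩ := append_inj h
    exact Prod.ext e1 e2

/-- a simplex -/
theorem exists_simplex (hd : 1 ≤ d) [DecidableEq (E d)] :
    ∃ (x : Fin (d + 1) → E d) (b : AffineBasis (Fin (d + 1)) ℝ (E d)), Function.Injective x ∧
      SI' (univ.image x) ∧ ∀ i, b i = x i := by
  obtain ⟨x, -, h2, -, h4⟩ := exists_ext hd (SI'_empty (d := d)) (d + 1) (fun _ => Set.univ)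
    (fun _ => ⟨isOpen_univ, Set.univ_nonempty⟩)
  have h5 : SI' (univ.image x) := by
    convert h4 using 1
    ext z; simp
  obtain ⟨b, hb⟩ := basis_of_gp (gp_of_si h2 h5.si)
  exact ⟨x, b, h2, h5, hb⟩

/-- points with given barycentric coordinates -/
theorem exists_coord (b : AffineBasis (Fin (d + 1)) ℝ (E d)) (w : Fin (d + 1) → ℝ)
    (hw : ∑ i, w i = 1) : ∃ p : E d, ∀ i, b.coord i p = w i :=
  ⟨univ.affineCombination ℝ b w, fun i => b.coord_apply_combination_of_mem (mem_univ i) hw⟩

/-- the number of nonconstant boolean functions -/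
theorem card_nonconst (k : ℕ) :
    ((univ : Finset (Fin (k + 1) → Bool)).filter
      (fun σ => σ ≠ (fun _ => true) ∧ σ ≠ (fun _ => false))).card + 2 = 2 ^ (k + 1) := by
  have h1 : ((univ : Finset (Fin (k + 1) → Bool)).filter
      (fun σ => σ ≠ (fun _ => true) ∧ σ ≠ (fun _ => false))) =
      univ \ {(fun _ => true), (fun _ => false)} := by
    ext σ
    simp only [mem_filter, mem_univ, true_and, mem_sdiff, mem_insert, mem_singleton, not_or]
  have h2 : (fun _ => true : Fin (k + 1) → Bool) ≠ (fun _ => false) := by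
    intro h
    have := congrFun h 0
    simp at this
  rw [h1, card_sdiff_of_subset (subset_univ _), card_pair h2, card_univ]
  simp only [Fintype.card_fun, Fintype.card_bool, Fintype.card_fin]
  have : 2 ^ 1 ≤ 2 ^ (k + 1) := Nat.pow_le_pow_right (by norm_num) (by omega)
  omega

/-- interior points: certificates for sets of interior points -/
theorem cert1 {k : ℕ} {x : Fin (d + 1) → E d} {b : AffineBasis (Fin (d + 1)) ℝ (E d)}
    (hb : ∀ i, b i = x i) {y : Fin (k + 1) → E d} (hy : ∀ i w, 0 < b.coord w (y i))
    {σ : Fin (k + 1) → Bool} (h1 : σ ≠ fun _ => true) (h2 : σ ≠ fun _ => false) :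
    ct true (fun _ => false : Fin (d + 1) → Bool) + ct true σ ≤ k ∧
    ∃ c : Fin (k + 1) → ℝ, ∃ u, (c ≠ 0 ∧ Fin.append u c ∈ dep (Fin.append x y)) ∧
      Wk u (fun _ => false) ∧ Wk c σ := by
  constructor
  · have e1 : ct true (fun _ => false : Fin (d + 1) → Bool) = 0 := by simp [ct]
    obtain ⟨i, hi⟩ := Function.ne_iff.1 h1
    have e2 : 1 ≤ ct false σ := ct_pos (i := i) (by simpa using hi)
    have e3 := ct_add σ
    omega
  · obtain ⟨i, hi⟩ := Function.ne_iff.1 h2
    have hi' : σ i = true := by simpa using hi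
    refine ⟨fun j => if σ j = true then 1 else 0, _, ⟨?_, vec_mem hb y _⟩, ?_, ?_⟩
    · intro h
      have := congrFun h i
      simp [hi'] at this
    · intro w
      refine ⟨fun h => absurd h (by simp), fun _ => ?_⟩
      rw [neg_nonpos]
      refine sum_nonneg fun j _ => mul_nonneg ?_ (hy j w).le
      split_ifs <;> simp
    · intro j
      constructor
      · intro h; simp [h]
      · intro h; simp [h]

/-- the general upper bound -/
theorem upper_general (hd : 1 ≤ d) {k : ℕ} (hk : k ≤ d) :
    mu d 2 k + 2 ^ (k + 1) ≤ ∑ j ∈ range (k + 1), (d + 1 + k).choose j + 2 := by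
  classical
  obtain ⟨x, b, hx, hSI, hb⟩ := exists_simplex hd
  obtain ⟨p, hp⟩ := exists_coord b (fun _ => ((d : ℝ) + 1)⁻¹) (by
    rw [sum_const, card_univ, Fintype.card_fin, nsmul_eq_mul]
    push_cast
    exact mul_inv_cancel₀ (by positivity))
  obtain ⟨y, hy1, hy2, hy3, hy4⟩ := exists_ext hd hSI (k + 1)
    (fun _ => {q | ∀ w, 0 < b.coord w q}) (fun _ => ⟨by
      have : {q | ∀ w, 0 < b.coord w q} = ⋂ w, {q | 0 < b.coord w q} := by
        ext q; simp
      rw [this]
      exact isOpen_iInter_of_finite fun w =>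
        isOpen_lt continuous_const (continuous_barycentric_coord b w), ⟨p, fun w => by
      rw [hp]; positivity⟩⟩)
  have h1 := mu_le hk hx hy2 hy3 hy4
    (((univ : Finset (Fin (k + 1) → Bool)).filter
      (fun σ => σ ≠ (fun _ => true) ∧ σ ≠ (fun _ => false))).image (fun σ => (fun _ => false, σ)))
    (by
      intro p hp
      obtain ⟨σ, hσ, rfl⟩ := mem_image.1 hp
      obtain ⟨-, h1, h2⟩ := mem_filter.1 hσ
      exact cert1 hb hy1 h1 h2)
  rw [card_image_of_injective _ (fun a b h => (Prod.ext_iff.1 h).2)] at h1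
  have h2 := card_nonconst k
  omega

end Pool.Agent.Helper34.RP
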