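import Pool.Agent.Helper34.RP.Conf

/-!
The special configuration for `k = 2`.
-/

set_option autoImplicit false

open Finset Module

namespace Pool.Agent.Helper34.RP

variable {d : ℕ}

/-- model weights, not normalised -/
noncomputable def W (d : ℕ) (i : Fin 3) (w : Fin (d + 1)) : ℝ :=
  if (w : ℕ) = 0 then ![1, 1, 2] i
  else ![2 - (((w : ℕ) - 1 : ℝ) / ((d : ℝ) - 1)) ^ 2,
    1 + 2 * (((w : ℕ) - 1 : ℝ) / ((d : ℝ) - 1)) - (((w : ℕ) - 1 : ℝ) / ((d : ℝ) - 1)) ^ 2, 1] i

/-- the pairs -/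
def Qs (d : ℕ) : Fin 3 → Finset (Fin (d + 1)) :=
  ![{Fin.last d, 0}, {1, 0}, univ.erase 0]

theorem tw_mem {w : Fin (d + 1)} (hd : 2 ≤ d) (hw : w ≠ 0) :
    0 ≤ (((w : ℕ) - 1 : ℝ) / ((d : ℝ) - 1)) ∧ (((w : ℕ) - 1 : ℝ) / ((d : ℝ) - 1)) ≤ 1 := by
  have h1 : (1 : ℝ) ≤ ((w : ℕ) : ℝ) := by
    have : 1 ≤ (w : ℕ) := by
      have : (w : ℕ) ≠ 0 := fun h => hw (Fin.ext h)
      omega
    exact_mod_cast this
  have h2 : ((w : ℕ) : ℝ) ≤ d := by
    have := w.2
    exact_mod_cast (by omega : (w : ℕ) ≤ d)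
  have h3 : (2 : ℝ) ≤ d := by exact_mod_cast hd
  constructor
  · apply div_nonneg <;> linarith
  · rw [div_le_one (by linarith)]; linarith

theorem W_pos (hd : 2 ≤ d) (i : Fin 3) (w : Fin (d + 1)) : 0 < W d i w := by
  by_cases hw : (w : ℕ) = 0
  · rw [W, if_pos hw]; fin_cases i <;> simp
  · rw [W, if_neg hw]
    obtain ⟨h1, h2⟩ := tw_mem hd (w := w) (fun h => hw (by rw [h]; rfl))
    set t := (((w : ℕ) - 1 : ℝ) / ((d : ℝ) - 1)) with ht
    fin_cases i
    · simp; nlinarith
    · simp; nlinarith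
    · simp

theorem exists_eps {ι : Type*} [Finite ι] (P : ι → Prop) (f g : ι → ℝ)
    (h : ∀ w, P w → 0 < f w) : ∃ ε : ℝ, 0 < ε ∧ ∀ w, P w → ε * g w < f w := by
  have key : ∀ w, ∀ᶠ ε in nhdsWithin (0 : ℝ) (Set.Ioi 0), P w → ε * g w < f w := by
    intro w
    by_cases hw : P w
    · have hc : Filter.Tendsto (fun ε : ℝ => ε * g w) (nhdsWithin (0 : ℝ) (Set.Ioi 0))
          (nhds 0) := by
        have : Continuous (fun ε : ℝ => ε * g w) := by fun_prop
        have h2 := this.tendsto 0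
        simp only [zero_mul] at h2
        exact h2.mono_left nhdsWithin_le_nhds
      filter_upwards [hc.eventually (gt_mem_nhds (h w hw))] with ε hε _
      exact hε
    · exact Filter.Eventually.of_forall fun ε h' => absurd h' hw
  obtain ⟨ε, hε, hε0⟩ := ((Filter.eventually_all.2 key).and self_mem_nhdsWithin).exists
  exact ⟨ε, hε0, hε⟩

/-- critical certificates for the model -/
theorem W_crit (hd : 2 ≤ d) (i : Fin 3) (u : Fin (d + 1)) (hu : u ∈ Qs d i) :
    ∃ y : Fin 3 → ℝ, 0 < y i ∧ (∀ j, j ≠ i → y j ≤ 0) ∧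
      (∀ w, w ≠ u → 0 < y 0 * W d 0 w + y 1 * W d 1 w + y 2 * W d 2 w) ∧
      y 0 * W d 0 u + y 1 * W d 1 u + y 2 * W d 2 u = 0 := by
  have hd' : (2 : ℝ) ≤ d := by exact_mod_cast hd
  have W0 : ∀ w : Fin (d + 1), w = 0 → (W d 0 w = 1 ∧ W d 1 w = 1 ∧ W d 2 w = 2) := by
    rintro w rfl
    simp [W]
  have W1 : ∀ w : Fin (d + 1), w ≠ 0 → ∃ t : ℝ, 0 ≤ t ∧ t ≤ 1 ∧
      t = (((w : ℕ) - 1 : ℝ) / ((d : ℝ) - 1)) ∧
      W d 0 w = 2 - t ^ 2 ∧ W d 1 w = 1 + 2 * t - t ^ 2 ∧ W d 2 w = 1 := by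
    intro w hw
    obtain ⟨h1, h2⟩ := tw_mem hd hw
    have hw' : ¬ (w : ℕ) = 0 := fun h => hw (Fin.ext h)
    exact ⟨_, h1, h2, rfl, by simp [W, hw], by simp [W, hw], by simp [W, hw]⟩
  have tinj : ∀ w w' : Fin (d + 1), (((w : ℕ) - 1 : ℝ) / ((d : ℝ) - 1)) =
      (((w' : ℕ) - 1 : ℝ) / ((d : ℝ) - 1)) → w = w' := by
    intro w w' h
    rw [div_left_inj' (by linarith)] at h
    have : ((w : ℕ) : ℝ) = ((w' : ℕ) : ℝ) := by linarith
    exact Fin.ext (by exact_mod_cast this)
  have tlast : (((Fin.last d : Fin (d + 1)) : ℕ) - 1 : ℝ) / ((d : ℝ) - 1) = 1 := by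
    rw [Fin.val_last, div_self]; linarith
  have hlast : (Fin.last d : Fin (d + 1)) ≠ 0 := by
    intro h
    have := congrArg Fin.val h
    simp at this
    omega
  have v1 : ((1 : Fin (d + 1)) : ℕ) = 1 := by
    rw [Fin.val_one']
    exact Nat.mod_eq_of_lt (by omega)
  have tone : (((1 : Fin (d + 1)) : ℕ) - 1 : ℝ) / ((d : ℝ) - 1) = 0 := by
    rw [v1]; simp
  have hone : (1 : Fin (d + 1)) ≠ 0 := by
    intro h
    have := congrArg Fin.val h
    rw [v1] at this
    simp at this
  have hi : i = 0 ∨ i = 1 ∨ i = 2 := by fin_cases i <;> simp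
  rcases hi with rfl | rfl | rfl
  · -- `i = 0`
    have hu' : u = Fin.last d ∨ u = 0 := by simpa [Qs] using hu
    rcases hu' with rfl | rfl
    · refine ⟨![2, -1, 0], by simp, fun j hj => ?_, fun w hw => ?_, ?_⟩
      · have : j = 0 ∨ j = 1 ∨ j = 2 := by fin_cases j <;> simp
        rcases this with rfl | rfl | rfl
        · exact absurd rfl hj
        · simp
        · simp
      · simp only [Matrix.cons_val_zero, Matrix.cons_val_one, Matrix.cons_val]
        by_cases hw0 : w = 0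
        · obtain ⟨e0, e1, e2⟩ := W0 w hw0
          rw [e0, e1, e2]; norm_num
        · obtain ⟨t, h1, h2, h3, e0, e1, e2⟩ := W1 w hw0
          have ht : t ≠ 1 := fun h => hw (tinj _ _ (by rw [← h3, h, tlast]))
          have ht' : t < 1 := lt_of_le_of_ne h2 ht
          rw [e0, e1, e2]; nlinarith
      · obtain ⟨t, h1, h2, h3, e0, e1, e2⟩ := W1 _ hlast
        rw [tlast] at h3
        simp only [Matrix.cons_val_zero, Matrix.cons_val_one, Matrix.cons_val]
        rw [e0, e1, e2, h3]; norm_num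
    · refine ⟨![2, 0, -1], by simp, fun j hj => ?_, fun w hw => ?_, ?_⟩
      · have : j = 0 ∨ j = 1 ∨ j = 2 := by fin_cases j <;> simp
        rcases this with rfl | rfl | rfl
        · exact absurd rfl hj
        · simp
        · simp
      · simp only [Matrix.cons_val_zero, Matrix.cons_val_one, Matrix.cons_val]
        obtain ⟨t, h1, h2, h3, e0, e1, e2⟩ := W1 w hw
        rw [e0, e1, e2]; nlinarith
      · simp only [Matrix.cons_val_zero, Matrix.cons_val_one, Matrix.cons_val]
        obtain ⟨e0, e1, e2⟩ := W0 0 rfl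
        rw [e0, e1, e2]; norm_num
  · -- `i = 1`
    have hu' : u = 1 ∨ u = 0 := by simpa [Qs] using hu
    rcases hu' with rfl | rfl
    · refine ⟨![-1, 2, 0], by simp, fun j hj => ?_, fun w hw => ?_, ?_⟩
      · have : j = 0 ∨ j = 1 ∨ j = 2 := by fin_cases j <;> simp
        rcases this with rfl | rfl | rfl
        · simp
        · exact absurd rfl hj
        · simp
      · simp only [Matrix.cons_val_zero, Matrix.cons_val_one, Matrix.cons_val]
        by_cases hw0 : w = 0
        · obtain ⟨e0, e1, e2⟩ := W0 w hw0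
          rw [e0, e1, e2]; norm_num
        · obtain ⟨t, h1, h2, h3, e0, e1, e2⟩ := W1 w hw0
          have ht : t ≠ 0 := fun h => hw (tinj _ _ (by rw [← h3, h, tone]))
          have ht' : 0 < t := lt_of_le_of_ne h1 (Ne.symm ht)
          rw [e0, e1, e2]; nlinarith
      · obtain ⟨t, h1, h2, h3, e0, e1, e2⟩ := W1 _ hone
        rw [tone] at h3
        simp only [Matrix.cons_val_zero, Matrix.cons_val_one, Matrix.cons_val]
        rw [e0, e1, e2, h3]; norm_num
    · refine ⟨![0, 2, -1], by simp, fun j hj => ?_, fun w hw => ?_, ?_⟩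
      · have : j = 0 ∨ j = 1 ∨ j = 2 := by fin_cases j <;> simp
        rcases this with rfl | rfl | rfl
        · simp
        · exact absurd rfl hj
        · simp
      · simp only [Matrix.cons_val_zero, Matrix.cons_val_one, Matrix.cons_val]
        obtain ⟨t, h1, h2, h3, e0, e1, e2⟩ := W1 w hw
        rw [e0, e1, e2]; nlinarith
      · simp only [Matrix.cons_val_zero, Matrix.cons_val_one, Matrix.cons_val]
        obtain ⟨e0, e1, e2⟩ := W0 0 rfl
        rw [e0, e1, e2]; norm_num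
  · -- `i = 2`
    have hu' : u ≠ 0 := by simpa [Qs] using hu
    obtain ⟨s, s1, s2, s3, f0, f1, f2⟩ := W1 u hu'
    refine ⟨![-(1 - s), -s, 2 - s + s ^ 2], ?_, fun j hj => ?_, fun w hw => ?_, ?_⟩
    · simp only [Matrix.cons_val]; nlinarith
    · have : j = 0 ∨ j = 1 ∨ j = 2 := by fin_cases j <;> simp
      rcases this with rfl | rfl | rfl
      · simp; exact s2
      · simp; exact s1
      · exact absurd rfl hj
    · simp only [Matrix.cons_val_zero, Matrix.cons_val_one, Matrix.cons_val]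
      by_cases hw0 : w = 0
      · obtain ⟨e0, e1, e2⟩ := W0 w hw0
        rw [e0, e1, e2]; nlinarith
      · obtain ⟨t, h1, h2, h3, e0, e1, e2⟩ := W1 w hw0
        have ht : t ≠ s := fun h => hw (tinj _ _ (by rw [← h3, ← s3, h]))
        have hpos : 0 < (s - t) ^ 2 := by
          have : s - t ≠ 0 := fun h => ht (by linarith)
          positivity
        rw [e0, e1, e2]
        have : -(1 - s) * (2 - t ^ 2) + -s * (1 + 2 * t - t ^ 2) + (2 - s + s ^ 2) * 1 =
          (s - t) ^ 2 := by ring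
        rw [this]; exact hpos
    · simp only [Matrix.cons_val_zero, Matrix.cons_val_one, Matrix.cons_val]
      rw [f0, f1, f2]; ring

/-- certificates for the model -/
theorem W_cert (hd : 2 ≤ d) (i : Fin 3) (u : Fin (d + 1)) (hu : u ∈ Qs d i) :
    ∃ y : Fin 3 → ℝ, 0 < y i ∧ (∀ j, j ≠ i → y j ≤ 0) ∧
      (∀ w, w ≠ u → 0 < ∑ j, y j * W d j w) ∧ ∑ j, y j * W d j u < 0 := by
  obtain ⟨y, h1, h2, h3, h4⟩ := W_crit hd i u hu
  obtain ⟨j0, hj0⟩ : ∃ j0 : Fin 3, j0 ≠ i := exists_ne i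
  obtain ⟨ε, hε, hε'⟩ := exists_eps (fun w => w ≠ u)
    (fun w => y 0 * W d 0 w + y 1 * W d 1 w + y 2 * W d 2 w) (fun w => W d j0 w) h3
  have key : ∀ w, ∑ j, (y j - if j = j0 then ε else 0) * W d j w =
      y 0 * W d 0 w + y 1 * W d 1 w + y 2 * W d 2 w - ε * W d j0 w := by
    intro w
    simp only [sub_mul, sum_sub_distrib, ite_mul, zero_mul, sum_ite_eq', mem_univ, if_true]
    rw [Fin.sum_univ_three]
  refine ⟨fun j => y j - if j = j0 then ε else 0, ?_, fun j hj => ?_, fun w hw => ?_, ?_⟩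
  · beta_reduce
    rw [if_neg hj0.symm, sub_zero]; exact h1
  · have := h2 j hj
    beta_reduce
    split_ifs <;> linarith
  · beta_reduce
    rw [key]; linarith [hε' w hw]
  · beta_reduce
    rw [key, h4]
    have := mul_pos hε (W_pos hd j0 u)
    linarith

/-- normalised weights -/
theorem exists_model (hd : 2 ≤ d) : ∃ V : Fin 3 → Fin (d + 1) → ℝ, (∀ i w, 0 < V i w) ∧
    (∀ i, ∑ w, V i w = 1) ∧ ∀ i u, ∃ y : Fin 3 → ℝ, u ∈ Qs d i →
      (0 < y i ∧ (∀ j, j ≠ i → y j ≤ 0) ∧
      (∀ w, w ≠ u → 0 < ∑ j, y j * V j w) ∧ ∑ j, y j * V j u < 0) := by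
  have hS : ∀ i, 0 < ∑ w, W d i w := fun i =>
    sum_pos (fun w _ => W_pos hd i w) ⟨0, mem_univ _⟩
  refine ⟨fun i w => W d i w / ∑ w, W d i w, fun i w => div_pos (W_pos hd i w) (hS i),
    fun i => ?_, fun i u => ?_⟩
  · rw [← sum_div, div_self (hS i).ne']
  · by_cases hu : u ∈ Qs d i
    · obtain ⟨y, h1, h2, h3, h4⟩ := W_cert hd i u hu
      have key : ∀ w, ∑ j, (y j * ∑ w', W d j w') * (W d j w / ∑ w', W d j w') =
          ∑ j, y j * W d j w := by
        intro w
        refine sum_congr rfl fun j _ => ?_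
        have := (hS j).ne'
        field_simp
      refine ⟨fun j => y j * ∑ w', W d j w', fun _ => ⟨mul_pos h1 (hS i), fun j hj =>
        mul_nonpos_of_nonpos_of_nonneg (h2 j hj) (hS j).le, fun w hw => ?_, ?_⟩⟩
      · rw [key]; exact h3 w hw
      · rw [key]; exact h4
    · exact ⟨0, fun h => absurd h hu⟩

theorem ct_sgl {n : ℕ} (i : Fin n) : ct true (sgl i) = 1 := by
  simp [ct, sgl]

theorem card_Qs (hd : 2 ≤ d) : ∑ i, (Qs d i).card = d + 4 := by
  rw [Fin.sum_univ_three]
  have h1 : (Fin.last d : Fin (d + 1)) ≠ 0 := by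
    intro h
    have := congrArg Fin.val h
    simp at this
    omega
  have h2 : (1 : Fin (d + 1)) ≠ 0 := by
    intro h
    have := congrArg Fin.val h
    rw [Fin.val_one', Nat.mod_eq_of_lt (by omega)] at this
    simp at this
  simp only [Qs, Matrix.cons_val_zero, Matrix.cons_val_one, Matrix.cons_val]
  rw [card_pair h1, card_pair h2, card_erase_of_mem (mem_univ _), card_univ, Fintype.card_fin]
  omega

/-- the sharp upper bound for `k = 2` -/
theorem upper_two (hd : 2 ≤ d) :
    mu d 2 2 + (d + 10) ≤ ∑ j ∈ range (2 + 1), (d + 1 + 2).choose j := by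
  classical
  obtain ⟨x, b, hx, hSI, hb⟩ := exists_simplex (show 1 ≤ d by omega)
  obtain ⟨V, hV1, hV2, hV3⟩ := exists_model hd
  choose c hc using hV3
  choose p hp using fun i => exists_coord b (V i) (hV2 i)
  have cont : ∀ (j : Fin 3) (w : Fin (d + 1)),
      Continuous (fun z : Fin 3 → E d => b.coord w (z j)) := fun j w =>
    (continuous_barycentric_coord b w).comp (continuous_apply j)
  have ev : ∀ᶠ z : Fin 3 → E d in nhds p, (∀ j w, 0 < b.coord w (z j)) ∧
      ∀ i u, u ∈ Qs d i → (∀ w, w ≠ u → 0 < ∑ j, c i u j * b.coord w (z j)) ∧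
        ∑ j, c i u j * b.coord u (z j) < 0 := by
    refine Filter.Eventually.and ?_ ?_
    · rw [Filter.eventually_all]
      intro j
      rw [Filter.eventually_all]
      intro w
      refine (cont j w).continuousAt.eventually (lt_mem_nhds ?_)
      beta_reduce
      rw [hp]; exact hV1 j w
    · rw [Filter.eventually_all]
      intro i
      rw [Filter.eventually_all]
      intro u
      by_cases hu : u ∈ Qs d i
      · obtain ⟨-, -, h3, h4⟩ := hc i u hu
        have cs : ∀ w, Continuous (fun z : Fin 3 → E d => ∑ j, c i u j * b.coord w (z j)) :=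
          fun w => continuous_finsetSum _ fun j _ => continuous_const.mul (cont j w)
        have e1 : ∀ w, ∀ᶠ z : Fin 3 → E d in nhds p, w ≠ u →
            0 < ∑ j, c i u j * b.coord w (z j) := by
          intro w
          by_cases hw : w = u
          · exact Filter.Eventually.of_forall fun z h => absurd hw h
          · have h5 : 0 < ∑ j, c i u j * b.coord w (p j) := by
              simp only [hp]; exact h3 w hw
            filter_upwards [(cs w).continuousAt.eventually (lt_mem_nhds h5)] with z hz _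
            exact hz
        have h6 : ∑ j, c i u j * b.coord u (p j) < 0 := by
          simp only [hp]; exact h4
        filter_upwards [Filter.eventually_all.2 e1,
          (cs u).continuousAt.eventually (gt_mem_nhds h6)] with z hz1 hz2 _
        exact ⟨hz1, hz2⟩
      · exact Filter.Eventually.of_forall fun z h => absurd h hu
  obtain ⟨t, ht1, ht2, ht3⟩ := eventually_nhds_iff.1 ev
  obtain ⟨U, hU1, hU2⟩ := isOpen_pi_iff'.1 ht2 p ht3
  obtain ⟨y, hy1, hy2, hy3, hy4⟩ := exists_ext (show 1 ≤ d by omega) hSI 3 U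
    (fun i => ⟨(hU1 i).1, ⟨_, (hU1 i).2⟩⟩)
  obtain ⟨hpos, hcert⟩ := ht1 y (hU2 (fun i _ => hy1 i))
  let Q1 : Finset ((Fin (d + 1) → Bool) × (Fin (2 + 1) → Bool)) :=
    ((univ : Finset (Fin (2 + 1) → Bool)).filter
      (fun σ => σ ≠ (fun _ => true) ∧ σ ≠ (fun _ => false))).image (fun σ => (fun _ => false, σ))
  let Q2 : Finset ((Fin (d + 1) → Bool) × (Fin (2 + 1) → Bool)) :=
    ((univ : Finset (Fin 3)).sigma (Qs d)).image (fun q => (sgl q.2, sgl q.1))
  have hdisj : Disjoint Q1 Q2 := by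
    rw [Finset.disjoint_left]
    rintro ⟨σ, τ⟩ h1 h2
    obtain ⟨_, -, h3⟩ := mem_image.1 h1
    obtain ⟨q, -, h4⟩ := mem_image.1 h2
    have e1 := (Prod.ext_iff.1 h3).1
    have e2 := (Prod.ext_iff.1 h4).1
    have := congrFun (e1.trans e2.symm) q.2
    simp [sgl] at this
  have hQ2 : Q2.card = d + 4 := by
    rw [card_image_of_injective, card_sigma]
    · exact card_Qs hd
    · rintro ⟨i, u⟩ ⟨i', u'⟩ h
      obtain ⟨e1, e2⟩ := Prod.ext_iff.1 h
      have := sgl_inj e1
      have := sgl_inj e2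
      simp_all
  have hQ1 : Q1.card + 2 = 2 ^ (2 + 1) := by
    rw [← card_nonconst 2, card_image_of_injective _ (fun a b h => (Prod.ext_iff.1 h).2)]
  have h1 := mu_le (k := 2) hd hx hy2 hy3 hy4 (Q1 ∪ Q2) (by
    intro q hq
    rcases mem_union.1 hq with hq | hq
    · obtain ⟨σ, hσ, rfl⟩ := mem_image.1 hq
      obtain ⟨-, h1, h2⟩ := mem_filter.1 hσ
      exact cert1 hb (fun i w => hpos i w) h1 h2
    · obtain ⟨⟨i, u⟩, hiu, rfl⟩ := mem_image.1 hq
      have hu : u ∈ Qs d i := (mem_sigma.1 hiu).2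
      obtain ⟨h1, h2, -, -⟩ := hc i u hu
      obtain ⟨h3, h4⟩ := hcert i u hu
      refine ⟨by rw [ct_sgl, ct_sgl], c i u, _, ⟨?_, vec_mem hb y _⟩, ?_, ?_⟩
      · intro h
        have := congrFun h i
        rw [this] at h1
        simp at h1
      · intro w
        by_cases hw : w = u
        · subst hw
          refine ⟨fun _ => ?_, fun h => absurd h (by simp [sgl])⟩
          linarith
        · refine ⟨fun h => absurd h (by simpa [sgl] using hw), fun _ => ?_⟩
          linarith [h3 w hw]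
      · intro j
        by_cases hj : j = i
        · subst hj
          exact ⟨fun _ => h1.le, fun h => absurd h (by simp [sgl])⟩
        · exact ⟨fun h => absurd h (by simpa [sgl] using hj), fun _ => h2 j hj⟩)
  rw [card_union_of_disjoint hdisj, hQ2] at h1
  omega

end Pool.Agent.Helper34.RP
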