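import Pool.Agent.Helper34.RP.Conf2

/-!
Configurations on the moment curve: `C(d+1, ⌊k/2⌋)` further small intersecting sets.
-/

set_option autoImplicit false

open Finset Module

namespace Pool.Agent.Helper34.RP

variable {d : ℕ}

/-- a general configuration theorem -/
theorem config {k : ℕ} (hd : 1 ≤ d) (hk : k ≤ d) (W : Fin (k + 1) → Fin (d + 1) → ℝ)
    (hW : ∀ i w, 0 < W i w) (Q : Finset ((Fin (d + 1) → Bool) × (Fin (k + 1) → Bool)))
    (hQ : ∀ p ∈ Q, ct true p.1 + ct true p.2 ≤ k ∧ p.1 ≠ (fun _ => false) ∧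
      ∃ y : Fin (k + 1) → ℝ, y ≠ 0 ∧ Wk y p.2 ∧
        ∀ w, (p.1 w = true → ∑ j, y j * W j w < 0) ∧ (p.1 w = false → 0 < ∑ j, y j * W j w)) :
    mu d 2 k + Q.card + 2 ^ (k + 1) ≤ ∑ j ∈ range (k + 1), (d + 1 + k).choose j + 2 := by
  classical
  obtain ⟨x, b, hx, hSI, hb⟩ := exists_simplex hd
  have hS : ∀ i, 0 < ∑ w, W i w := fun i =>
    sum_pos (fun w _ => hW i w) ⟨0, mem_univ _⟩
  set V : Fin (k + 1) → Fin (d + 1) → ℝ := fun i w => W i w / ∑ w', W i w' with hVdef
  have hV1 : ∀ i w, 0 < V i w := fun i w => div_pos (hW i w) (hS i)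
  have hV2 : ∀ i, ∑ w, V i w = 1 := fun i => by
    simp only [hVdef]
    rw [← sum_div, div_self (hS i).ne']
  have hV3 : ∀ p : (Fin (d + 1) → Bool) × (Fin (k + 1) → Bool), ∃ y : Fin (k + 1) → ℝ, p ∈ Q →
      (y ≠ 0 ∧ Wk y p.2 ∧
        ∀ w, (p.1 w = true → ∑ j, y j * V j w < 0) ∧ (p.1 w = false → 0 < ∑ j, y j * V j w)) := by
    intro p
    by_cases hp : p ∈ Q
    · obtain ⟨-, -, y, h1, h2, h3⟩ := hQ p hp
      have key : ∀ w, ∑ j, (y j * ∑ w', W j w') * V j w = ∑ j, y j * W j w := by
        intro w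
        refine sum_congr rfl fun j _ => ?_
        have := (hS j).ne'
        simp only [hVdef]
        field_simp
      refine ⟨fun j => y j * ∑ w', W j w', fun _ => ⟨?_, fun j => ⟨fun hj => ?_, fun hj => ?_⟩,
        fun w => ?_⟩⟩
      · obtain ⟨i, hi⟩ := Function.ne_iff.1 h1
        intro h0
        have := congrFun h0 i
        rcases mul_eq_zero.1 this with h4 | h4
        · exact hi h4
        · exact (hS i).ne' h4
      · exact mul_nonneg ((h2 j).1 hj) (hS j).le
      · exact mul_nonpos_of_nonpos_of_nonneg ((h2 j).2 hj) (hS j).le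
      · rw [key]; exact h3 w
    · exact ⟨0, fun h => absurd h hp⟩
  choose c hc using hV3
  choose p hp using fun i => exists_coord b (V i) (hV2 i)
  have cont : ∀ (j : Fin (k + 1)) (w : Fin (d + 1)),
      Continuous (fun z : Fin (k + 1) → E d => b.coord w (z j)) := fun j w =>
    (continuous_barycentric_coord b w).comp (continuous_apply j)
  have ev : ∀ᶠ z : Fin (k + 1) → E d in nhds p, (∀ j w, 0 < b.coord w (z j)) ∧
      ∀ q ∈ Q, ∀ w, (q.1 w = true → ∑ j, c q j * b.coord w (z j) < 0) ∧
        (q.1 w = false → 0 < ∑ j, c q j * b.coord w (z j)) := by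
    refine Filter.Eventually.and ?_ ?_
    · rw [Filter.eventually_all]
      intro j
      rw [Filter.eventually_all]
      intro w
      refine (cont j w).continuousAt.eventually (lt_mem_nhds ?_)
      beta_reduce
      rw [hp]; exact hV1 j w
    · rw [Filter.eventually_all_finset]
      intro q hq
      rw [Filter.eventually_all]
      intro w
      obtain ⟨-, -, h3⟩ := hc q hq
      have cs : Continuous (fun z : Fin (k + 1) → E d => ∑ j, c q j * b.coord w (z j)) :=
        continuous_finsetSum _ fun j _ => continuous_const.mul (cont j w)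
      cases hqw : q.1 w
      · have h5 : 0 < ∑ j, c q j * b.coord w (p j) := by
          simp only [hp]; exact (h3 w).2 hqw
        filter_upwards [cs.continuousAt.eventually (lt_mem_nhds h5)] with z hz
        exact ⟨fun h => absurd h (by simp), fun _ => hz⟩
      · have h5 : ∑ j, c q j * b.coord w (p j) < 0 := by
          simp only [hp]; exact (h3 w).1 hqw
        filter_upwards [cs.continuousAt.eventually (gt_mem_nhds h5)] with z hz
        exact ⟨fun _ => hz, fun h => absurd h (by simp)⟩
  obtain ⟨t, ht1, ht2, ht3⟩ := eventually_nhds_iff.1 ev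
  obtain ⟨U, hU1, hU2⟩ := isOpen_pi_iff'.1 ht2 p ht3
  obtain ⟨y, hy1, hy2, hy3, hy4⟩ := exists_ext hd hSI (k + 1) U
    (fun i => ⟨(hU1 i).1, ⟨_, (hU1 i).2⟩⟩)
  obtain ⟨hpos, hcert⟩ := ht1 y (hU2 (fun i _ => hy1 i))
  let Q1 : Finset ((Fin (d + 1) → Bool) × (Fin (k + 1) → Bool)) :=
    ((univ : Finset (Fin (k + 1) → Bool)).filter
      (fun σ => σ ≠ (fun _ => true) ∧ σ ≠ (fun _ => false))).image (fun σ => (fun _ => false, σ))
  have hdisj : Disjoint Q1 Q := by
    rw [Finset.disjoint_left]
    rintro ⟨σ, τ⟩ h1 h2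
    obtain ⟨_, -, h3⟩ := mem_image.1 h1
    exact (hQ _ h2).2.1 (Prod.ext_iff.1 h3).1.symm
  have hQ1 : Q1.card + 2 = 2 ^ (k + 1) := by
    rw [← card_nonconst k, card_image_of_injective _ (fun a b h => (Prod.ext_iff.1 h).2)]
  have h1 := mu_le hk hx hy2 hy3 hy4 (Q1 ∪ Q) (by
    intro q hq
    rcases mem_union.1 hq with hq | hq
    · obtain ⟨σ, hσ, rfl⟩ := mem_image.1 hq
      obtain ⟨-, h1, h2⟩ := mem_filter.1 hσ
      exact cert1 hb (fun i w => hpos i w) h1 h2
    · obtain ⟨h1, h2, -⟩ := hc q hq
      have h3 := hcert q hq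
      refine ⟨(hQ q hq).1, c q, _, ⟨h1, vec_mem hb y _⟩, ?_, h2⟩
      intro w
      constructor
      · intro hw
        have := (h3 w).1 hw
        linarith
      · intro hw
        have := (h3 w).2 hw
        linarith)
  rw [card_union_of_disjoint hdisj] at h1
  omega

/-- products of squares have nonnegative coefficients in `-t` -/
theorem exists_coeff (t : Fin (d + 1) → ℝ) (ht : ∀ w, 0 < t w) (P : Finset (Fin (d + 1)))
    (k : ℕ) (hk : 2 * P.card ≤ k) : ∃ b : ℕ → ℝ, (∀ l, 0 ≤ b l) ∧ 0 < b 0 ∧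
      ∀ x, ∑ l ∈ range (k + 1), b l * x ^ l = ∏ w ∈ P, (x + t w) ^ 2 := by
  classical
  let F : Polynomial ℝ := ∏ w ∈ P, (Polynomial.X + Polynomial.C (t w)) ^ 2
  have hNN : ∀ Q : Finset (Fin (d + 1)), ∀ l,
      0 ≤ (∏ w ∈ Q, (Polynomial.X + Polynomial.C (t w)) ^ 2 : Polynomial ℝ).coeff l := by
    intro Q
    induction Q using Finset.induction_on with
    | empty =>
      intro l
      rw [prod_empty, Polynomial.coeff_one]
      split_ifs <;> norm_num
    | insert a Q ha ih =>
      intro l
      rw [prod_insert ha, Polynomial.coeff_mul]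
      refine sum_nonneg fun p _ => mul_nonneg ?_ (ih p.2)
      rw [sq, Polynomial.coeff_mul]
      refine sum_nonneg fun q _ => mul_nonneg ?_ ?_
      all_goals
        rw [Polynomial.coeff_add, Polynomial.coeff_X, Polynomial.coeff_C]
        have := (ht a).le
        split_ifs <;> linarith
  have heval : ∀ x, F.eval x = ∏ w ∈ P, (x + t w) ^ 2 := by
    intro x
    simp [F, Polynomial.eval_prod]
  have hdeg : F.natDegree ≤ k := by
    refine (Polynomial.natDegree_prod_le _ _).trans ?_
    refine le_trans (sum_le_sum (g := fun _ => 2) fun w _ => ?_) (by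
      rw [sum_const, smul_eq_mul]; omega)
    refine (Polynomial.natDegree_pow_le).trans ?_
    rw [Polynomial.natDegree_X_add_C]
  refine ⟨fun l => F.coeff l, hNN P, ?_, fun x => ?_⟩
  · change 0 < F.coeff 0
    rw [Polynomial.coeff_zero_eq_eval_zero, heval]
    exact prod_pos fun w _ => by have := ht w; positivity
  · rw [← heval, Polynomial.eval_eq_sum_range' (Nat.lt_succ_of_le hdeg)]

/-- model weights on the moment curve -/
noncomputable def M (t : Fin (d + 1) → ℝ) (k : ℕ) (j : Fin (k + 1)) (w : Fin (d + 1)) : ℝ :=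
  if j = 0 then 1 else 2 - (-t w) ^ (j : ℕ)

theorem M_pos {t : Fin (d + 1) → ℝ} (ht : ∀ w, 0 < t w ∧ t w < 1) (k : ℕ) (j : Fin (k + 1))
    (w : Fin (d + 1)) : 0 < M t k j w := by
  rw [M]
  split_ifs
  · exact one_pos
  · have h1 : |(-t w) ^ (j : ℕ)| ≤ 1 := by
      rw [abs_pow, abs_neg, abs_of_pos (ht w).1]
      exact pow_le_one₀ (ht w).1.le (ht w).2.le
    have := (abs_le.1 h1).2
    linarith

/-- indicator -/
def ind {n : ℕ} (P : Finset (Fin n)) : Fin n → Bool := fun w => decide (w ∈ P)

theorem ct_ind {n : ℕ} (P : Finset (Fin n)) : ct true (ind P) = P.card := by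
  rw [ct]
  simp only [ind, decide_eq_true_eq]
  rw [← card_filter]
  congr 1
  ext i; simp

theorem ind_inj {n : ℕ} {P Q : Finset (Fin n)} (h : ind P = ind Q) : P = Q := by
  ext i
  have := congrFun h i
  simpa [ind] using this

/-- the critical certificate -/
theorem M_crit {t : Fin (d + 1) → ℝ} (ht : ∀ w, 0 < t w ∧ t w < 1)
    (htinj : Function.Injective t) {k : ℕ} (P : Finset (Fin (d + 1))) (hP : 2 * P.card ≤ k) :
    ∃ y : Fin (k + 1) → ℝ, 0 < y 0 ∧ (∀ j, j ≠ 0 → y j ≤ 0) ∧
      (∀ w ∈ P, ∑ j, y j * M t k j w = 0) ∧ ∀ w, w ∉ P → 0 < ∑ j, y j * M t k j w := by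
  obtain ⟨b, hb0, hb1, hb2⟩ := exists_coeff t (fun w => (ht w).1) P k hP
  let y : Fin (k + 1) → ℝ := Fin.cons (b 0 + 2 * ∑ l : Fin k, b (l + 1)) (fun l => -b (l + 1))
  have key : ∀ w, ∑ j, y j * M t k j w = ∏ v ∈ P, (-t w + t v) ^ 2 := by
    intro w
    rw [← hb2, Fin.sum_univ_succ, sum_range_succ', Finset.sum_range]
    simp only [y, Fin.cons_zero, Fin.cons_succ, M, Fin.succ_ne_zero, if_true, if_false,
      Fin.val_succ, pow_zero, mul_one]
    have : ∀ l : Fin k, -b (l + 1) * (2 - (-t w) ^ ((l : ℕ) + 1)) =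
        b (l + 1) * (-t w) ^ ((l : ℕ) + 1) - 2 * b (l + 1) := fun l => by ring
    rw [sum_congr rfl (fun l _ => this l), sum_sub_distrib, ← mul_sum]
    ring
  refine ⟨y, ?_, ?_, ?_, ?_⟩
  · have : 0 ≤ ∑ l : Fin k, b (l + 1) := sum_nonneg fun l _ => hb0 _
    simp only [y, Fin.cons_zero]
    linarith
  · intro j hj
    obtain ⟨l, rfl⟩ := Fin.exists_succ_eq.2 hj
    simp only [y, Fin.cons_succ]
    have := hb0 (l + 1)
    linarith
  · intro w hw
    rw [key]
    exact prod_eq_zero hw (by ring)
  · intro w hw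
    rw [key]
    refine prod_pos fun v hv => ?_
    have : t v ≠ t w := fun h => hw (htinj h ▸ hv)
    have : -t w + t v ≠ 0 := fun h => this (by linarith)
    positivity

/-- the upper bound with the term `C(d+1,⌊k/2⌋)` -/
theorem upper_moment {k : ℕ} (hk : k ≤ d) (hk2 : 2 ≤ k) :
    mu d 2 k + (d + 1).choose (k / 2) + 2 ^ (k + 1) ≤
      ∑ j ∈ range (k + 1), (d + 1 + k).choose j + 2 := by
  classical
  set t : Fin (d + 1) → ℝ := fun w => ((w : ℕ) + 1 : ℝ) / ((d : ℝ) + 2) with htdef
  have ht : ∀ w, 0 < t w ∧ t w < 1 := by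
    intro w
    have h1 : ((w : ℕ) : ℝ) ≤ d := by
      exact_mod_cast (by omega : (w : ℕ) ≤ d)
    constructor
    · simp only [htdef]; positivity
    · simp only [htdef]
      rw [div_lt_one (by positivity)]; linarith
  have htinj : Function.Injective t := by
    intro w w' h
    simp only [htdef] at h
    rw [div_left_inj' (by positivity)] at h
    have : ((w : ℕ) : ℝ) = ((w' : ℕ) : ℝ) := by linarith
    exact Fin.ext (by exact_mod_cast this)
  have h1 := config (k := k) (by omega) hk (M t k) (M_pos ht k)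
    (((univ : Finset (Fin (d + 1))).powersetCard (k / 2)).image (fun P => (ind P, sgl 0))) (by
      intro p hp
      obtain ⟨P, hP, rfl⟩ := mem_image.1 hp
      obtain ⟨-, hPc⟩ := mem_powersetCard.1 hP
      refine ⟨by rw [ct_ind, ct_sgl, hPc]; omega, ?_, ?_⟩
      · intro h0
        have := ct_ind P
        have h2 : ct true (fun _ => false : Fin (d + 1) → Bool) = 0 := by simp [ct]
        change ind P = _ at h0
        rw [h0, h2] at this
        omega
      · obtain ⟨y, y1, y2, y3, y4⟩ := M_crit ht htinj (k := k) P (by omega)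
        obtain ⟨j0, hj0⟩ : ∃ j0 : Fin (k + 1), j0 ≠ 0 := by
          refine ⟨⟨1, by omega⟩, ?_⟩
          intro h
          have := congrArg Fin.val h
          simp at this
        obtain ⟨ε, hε, hε'⟩ := exists_eps (fun w => w ∉ P)
          (fun w => ∑ j, y j * M t k j w) (fun w => M t k j0 w) y4
        have key : ∀ w, ∑ j, (y j - if j = j0 then ε else 0) * M t k j w =
            ∑ j, y j * M t k j w - ε * M t k j0 w := by
          intro w
          simp only [sub_mul, sum_sub_distrib, ite_mul, zero_mul, sum_ite_eq', mem_univ, if_true]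
        refine ⟨fun j => y j - if j = j0 then ε else 0, ?_, ?_, ?_⟩
        · intro h0
          have := congrFun h0 0
          simp only [Pi.zero_apply] at this
          rw [if_neg hj0.symm, sub_zero] at this
          exact y1.ne' this
        · intro j
          by_cases hj : j = 0
          · subst hj
            refine ⟨fun _ => ?_, fun h => absurd h (by simp [sgl])⟩
            beta_reduce
            rw [if_neg hj0.symm, sub_zero]; exact y1.le
          · refine ⟨fun h => absurd h (by simpa [sgl] using hj), fun _ => ?_⟩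
            have := y2 j hj
            beta_reduce
            split_ifs <;> linarith
        · intro w
          by_cases hw : w ∈ P
          · refine ⟨fun _ => ?_, fun h => absurd h (by simp [ind, hw])⟩
            beta_reduce
            rw [key, y3 w hw]
            have := mul_pos hε (M_pos ht k j0 w)
            linarith
          · refine ⟨fun h => absurd h (by simp [ind, hw]), fun _ => ?_⟩
            beta_reduce
            rw [key]
            linarith [hε' w hw])
  rw [card_image_of_injective _ (fun P Q h => ind_inj (Prod.ext_iff.1 h).1),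
    card_powersetCard, card_univ, Fintype.card_fin] at h1
  exact h1

end Pool.Agent.Helper34.RP
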