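import Mathlib

/-!
`(m,k)`-partitions, strong independence and the number `μ(d,m,k)`.
-/

set_option autoImplicit false

open Finset Module

namespace Pool.Agent.Helper34.RP

/-- `ℝᵈ` -/
abbrev E (d : ℕ) := EuclideanSpace ℝ (Fin d)

/-- the dimension of the direction space of the affine hull of `X` -/
noncomputable def spanDim {d : ℕ} (X : Set (E d)) : ℕ := finrank ℝ (vectorSpan ℝ X)

open Classical in
/-- the dimension of a set `X`: `-1` if `X` is empty, otherwise the dimension of its affine hull -/
noncomputable def setDim {d : ℕ} (X : Set (E d)) : ℤ := if X = ∅ then -1 else spanDim X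

/-- the affine hull of a finite set -/
noncomputable def affHull {d : ℕ} (A : Finset (E d)) : Set (E d) :=
  affineSpan ℝ (A : Set (E d))

/-- the convex hull of a finite set -/
noncomputable def hull {d : ℕ} (A : Finset (E d)) : Set (E d) :=
  convexHull ℝ (A : Set (E d))

/-- strong independence: for every finite family of pairwise disjoint subsets with at most
`d + 1` elements the codimensions of the affine hulls add -/
def StronglyIndependent {d : ℕ} (S : Finset (E d)) : Prop :=
  ∀ F : Finset (Finset (E d)), (∀ A ∈ F, A ⊆ S ∧ A.card ≤ d + 1) →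
    (∀ A ∈ F, ∀ B ∈ F, A ≠ B → Disjoint A B) →
    setDim (⋂ A ∈ F, affHull A) =
      max (-1) ((d : ℤ) - ∑ A ∈ F, ((d : ℤ) - ((A.card : ℤ) - 1)))

/-- the family `P` of `m` pairwise disjoint sets is an `(m,k)`-partition of `S` -/
def IsPartition {d : ℕ} (S : Finset (E d)) (m k : ℕ) (P : Finset (Finset (E d))) : Prop :=
  P.card = m ∧ (∀ A ∈ P, ∀ B ∈ P, A ≠ B → Disjoint A B) ∧ (∀ x, x ∈ S ↔ ∃ A ∈ P, x ∈ A) ∧
    (k : ℤ) ≤ setDim (⋂ A ∈ P, hull A)

/-- the number of `(m,k)`-partitions of `S` -/
noncomputable def numPartitions {d : ℕ} (S : Finset (E d)) (m k : ℕ) : ℕ :=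
  Set.ncard {P : Finset (Finset (E d)) | IsPartition S m k P}

/-- `μ(d,m,k)`: the minimum number of `(m,k)`-partitions of a strongly independent set of
`(m-1)(d+1)+k+1` points in `ℝᵈ` -/
noncomputable def mu (d m k : ℕ) : ℕ :=
  sInf {n : ℕ | ∃ S : Finset (E d), S.card = (m - 1) * (d + 1) + k + 1 ∧
    StronglyIndependent S ∧ numPartitions S m k = n}

end Pool.Agent.Helper34.RP
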