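import Pool.Agent.Helper34.RP.Seidel

/-!
The number of patterns with few `true`s (Clarkson–Shor sampling).
-/

set_option autoImplicit false

open Finset Module

namespace Pool.Agent.Helper34.RP

variable {n : ℕ}

/-- one step of the ratio test -/
theorem ratio {V : Submodule ℝ (Fin n → ℝ)} {k : ℕ} (h : Uni V (k + 1)) {σ : Fin n → Bool}
    {x : Fin n → ℝ} (hx : x ∈ V) (hx0 : x ≠ 0) (hw : Wk x σ) (hz : zc x + 1 ≤ k) :
    ∃ x' ∈ V, x' ≠ 0 ∧ Wk x' σ ∧ zc x + 1 ≤ zc x' := by
  classical
  set Z0 := univ.filter (fun i => x i = 0) with hZ0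
  have hZc : Z0.card = zc x := (zc_card x).symm
  obtain ⟨q, hq⟩ := Function.ne_iff.1 hx0
  have hq' : x q ≠ 0 := hq
  have hqZ : q ∉ Z0 := by simpa [hZ0] using hq'
  have hn := h.le
  obtain ⟨p, hp⟩ : ∃ p, p ∉ insert q Z0 := by
    by_contra hc
    push Not at hc
    have h1 : (insert q Z0) = univ := eq_univ_iff_forall.2 hc
    have h2 := card_insert_of_notMem hqZ
    rw [h1, card_univ, Fintype.card_fin] at h2
    omega
  have hpq : p ≠ q := fun e => hp (by rw [e]; exact mem_insert_self _ _)
  have hpZ : p ∉ Z0 := fun e => hp (mem_insert_of_mem e)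
  have hxp : x p ≠ 0 := by simpa [hZ0] using hpZ
  obtain ⟨y, hy, hyt⟩ := interp h (insert p (insert q Z0))
    (by rw [card_insert_of_notMem hp, card_insert_of_notMem hqZ]; omega)
    (fun i => if i = p then -x p else 0)
  have hyp : y p = -x p := by rw [hyt p (mem_insert_self _ _), if_pos rfl]
  have hyq : y q = 0 := by
    rw [hyt q (mem_insert_of_mem (mem_insert_self _ _)), if_neg hpq.symm]
  have hyZ : ∀ i ∈ Z0, y i = 0 := by
    intro i hi
    rw [hyt i (mem_insert_of_mem (mem_insert_of_mem hi)), if_neg]
    rintro rfl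
    exact hpZ hi
  set S := univ.filter (fun i => x i * y i < 0) with hS
  have hpS : p ∈ S := by
    rw [hS, mem_filter]
    refine ⟨mem_univ _, ?_⟩
    rw [hyp]
    have : 0 < x p ^ 2 := by positivity
    nlinarith
  obtain ⟨i0, hi0, hmin⟩ := exists_min_image S (fun i => -x i / y i) ⟨p, hpS⟩
  have hneg : ∀ i ∈ S, x i * y i < 0 := fun i hi => (mem_filter.1 hi).2
  set t := -x i0 / y i0 with ht
  have ht0 : 0 < t := by
    have := hneg i0 hi0
    have hy0 : y i0 ≠ 0 := right_ne_zero_of_mul this.ne
    have e : t = -(x i0 * y i0) / (y i0) ^ 2 := by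
      rw [ht]; field_simp
    rw [e]
    apply div_pos
    · linarith
    · positivity
  refine ⟨x + t • y, V.add_mem hx (V.smul_mem _ hy), ?_, ?_, ?_⟩
  · intro h0
    have := congrFun h0 q
    simp [hyq] at this
    exact hq' this
  · intro i
    simp only [Pi.add_apply, Pi.smul_apply, smul_eq_mul]
    by_cases hiS : i ∈ S
    · have h1 := hneg i hiS
      have h2 := hmin i hiS
      have hyi : y i ≠ 0 := right_ne_zero_of_mul h1.ne
      constructor
      · intro hs
        have h3 := (hw i).1 hs
        have h4 : y i < 0 := by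
          by_contra hc
          push Not at hc
          have := mul_nonneg h3 hc
          linarith
        have h5 : -x i / y i * y i ≤ t * y i := mul_le_mul_of_nonpos_right h2 h4.le
        rw [div_mul_cancel₀ _ hyi] at h5
        linarith
      · intro hs
        have h3 := (hw i).2 hs
        have h4 : 0 < y i := by
          by_contra hc
          push Not at hc
          have := mul_nonneg_of_nonpos_of_nonpos h3 hc
          linarith
        have h5 : t * y i ≤ -x i / y i * y i := mul_le_mul_of_nonneg_right h2 h4.le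
        rw [div_mul_cancel₀ _ hyi] at h5
        linarith
    · have h1 : 0 ≤ x i * y i := by
        by_contra hc
        push Not at hc
        exact hiS (by rw [hS, mem_filter]; exact ⟨mem_univ _, hc⟩)
      by_cases hxi : x i = 0
      · have : i ∈ Z0 := by rw [hZ0, mem_filter]; exact ⟨mem_univ _, hxi⟩
        rw [hyZ i this, hxi]; simp
      · constructor
        · intro hs
          have h3 : 0 < x i := lt_of_le_of_ne ((hw i).1 hs) (Ne.symm hxi)
          have h4 : 0 ≤ y i := nonneg_of_mul_nonneg_right h1 h3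
          have := mul_nonneg ht0.le h4
          linarith
        · intro hs
          have h3 : x i < 0 := lt_of_le_of_ne ((hw i).2 hs) hxi
          have h4 : y i ≤ 0 := by
            by_contra hc
            push Not at hc
            have := mul_neg_of_neg_of_pos h3 hc
            linarith
          have := mul_nonpos_of_nonneg_of_nonpos ht0.le h4
          linarith
  · have hi0Z : i0 ∉ Z0 := by
      have := hneg i0 hi0
      have : x i0 ≠ 0 := left_ne_zero_of_mul this.ne
      simpa [hZ0] using this
    have h1 : (insert i0 Z0).card ≤ zc (x + t • y) := by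
      apply card_le_zc
      intro i hi
      simp only [Pi.add_apply, Pi.smul_apply, smul_eq_mul]
      rcases mem_insert.1 hi with rfl | hi
      · have hyi : y i ≠ 0 := right_ne_zero_of_mul (hneg i hi0).ne
        rw [ht, div_mul_cancel₀ _ hyi]; ring
      · rw [hyZ i hi, (mem_filter.1 hi).2]; ring
    rw [card_insert_of_notMem hi0Z, hZc] at h1
    exact h1

/-- every cell has a vertex -/
theorem exists_cell_vertex {V : Submodule ℝ (Fin n → ℝ)} {k : ℕ} (h : Uni V (k + 1))
    {σ : Fin n → Bool} (hσ : Pat V σ) :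
    ∃ x ∈ V, x ≠ 0 ∧ Wk x σ ∧ zc x = k := by
  have hn := h.le
  have key : ∀ m, m ≤ k → ∃ x ∈ V, x ≠ 0 ∧ Wk x σ ∧ m ≤ zc x := by
    intro m
    induction m with
    | zero =>
      intro _
      obtain ⟨x, hx, h1⟩ := hσ
      refine ⟨x, hx, ?_, fun i => ⟨fun hi => ((h1 i).1 hi).le, fun hi => ((h1 i).2 hi).le⟩,
        Nat.zero_le _⟩
      rintro rfl
      cases h2 : σ ⟨0, by omega⟩
      · exact absurd ((h1 _).2 h2) (by simp)
      · exact absurd ((h1 _).1 h2) (by simp)
    | succ m ih =>
      intro hm
      obtain ⟨x, hx, hx0, hw, hz⟩ := ih (by omega)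
      by_cases hz' : m + 1 ≤ zc x
      · exact ⟨x, hx, hx0, hw, hz'⟩
      · obtain ⟨x', h1, h2, h3, h4⟩ := ratio h hx hx0 hw (by omega)
        exact ⟨x', h1, h2, h3, by omega⟩
  obtain ⟨x, hx, hx0, hw, hz⟩ := key k le_rfl
  have := h.zer x hx hx0
  exact ⟨x, hx, hx0, hw, by omega⟩

open Classical in
/-- small patterns -/
noncomputable def small (k : ℕ) (V : Submodule ℝ (Fin n → ℝ)) : Finset (Fin n → Bool) :=
  univ.filter (fun σ => Pat V σ ∧ ct true σ ≤ k)

open Classical in
/-- vertices of low level -/
noncomputable def lowV (k : ℕ) (V : Submodule ℝ (Fin n → ℝ)) : Finset (Finset (Fin n)) :=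
  univ.filter (fun Z => Z.card = k ∧ ∃ A : Finset (Fin n), Disjoint Z A ∧ A.card ≤ k ∧
    ∃ x ∈ V, x ≠ 0 ∧ (∀ i ∈ Z, x i = 0) ∧ (∀ i ∈ A, 0 < x i) ∧ ∀ i, i ∉ A → i ∉ Z → x i < 0)

open Classical in
theorem card_small_le {V : Submodule ℝ (Fin n → ℝ)} {k : ℕ} (h : Uni V (k + 1)) :
    (small k V).card ≤ (lowV k V).card * (2 * 2 ^ k) := by
  have hz : ∀ Z : Finset (Fin n), ∃ z : Fin n → ℝ, Z ∈ lowV k V →
      z ∈ V ∧ z ≠ 0 ∧ ∀ i ∈ Z, z i = 0 := by
    intro Z
    by_cases hZ : Z ∈ lowV k V
    · rw [lowV, mem_filter] at hZ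
      obtain ⟨-, -, A, -, -, x, hx, hx0, hxZ, -⟩ := hZ
      exact ⟨x, fun _ => ⟨hx, hx0, hxZ⟩⟩
    · exact ⟨0, fun h' => absurd h' hZ⟩
  choose z hz using hz
  let G : Finset (Fin n) → Bool × Finset (Fin n) → (Fin n → Bool) := fun Z p i =>
    if i ∈ Z then decide (i ∈ p.2) else
      (if p.1 = true then decide (0 < z Z i) else decide (z Z i < 0))
  have hsub : small k V ⊆ (lowV k V).biUnion
      (fun Z => ((univ : Finset Bool) ×ˢ Z.powerset).image (G Z)) := by
    intro σ hσ
    rw [small, mem_filter] at hσ
    obtain ⟨-, hP, hc⟩ := hσ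
    obtain ⟨x, hx, hx0, hw, hzc⟩ := exists_cell_vertex h hP
    set Z := univ.filter (fun i => x i = 0) with hZ
    have hZc : Z.card = k := by rw [← hzc, zc_card]
    have hmZ : ∀ i, i ∈ Z ↔ x i = 0 := fun i => by simp [hZ]
    have hpos : ∀ i, i ∉ Z → (σ i = true → 0 < x i) ∧ (σ i = false → x i < 0) := by
      intro i hi
      rw [hmZ] at hi
      exact ⟨fun hs => lt_of_le_of_ne ((hw i).1 hs) (Ne.symm hi),
        fun hs => lt_of_le_of_ne ((hw i).2 hs) hi⟩
    have hlow : Z ∈ lowV k V := by
      rw [lowV, mem_filter]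
      refine ⟨mem_univ _, hZc, univ.filter (fun i => i ∉ Z ∧ σ i = true), ?_, ?_, x, hx, hx0,
        fun i hi => (hmZ i).1 hi, fun i hi => ?_, fun i hi hiZ => ?_⟩
      · rw [Finset.disjoint_left]
        intro i hi hi'
        exact (mem_filter.1 hi').2.1 hi
      · refine le_trans (card_le_card ?_) (show (univ.filter (fun i => σ i = true)).card ≤ k by
          rw [card_filter]; exact hc)
        intro i hi
        simp only [mem_filter, mem_univ, true_and] at hi ⊢
        exact hi.2
      · simp only [mem_filter, mem_univ, true_and] at hi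
        exact (hpos i hi.1).1 hi.2
      · simp only [mem_filter, mem_univ, true_and, not_and] at hi
        exact (hpos i hiZ).2 (by simpa using hi hiZ)
    obtain ⟨z1, z2, z3⟩ := hz Z hlow
    -- `x` is a multiple of `z Z`
    obtain ⟨q, hq⟩ := Function.ne_iff.1 hx0
    have hqZ : q ∉ Z := by rw [hmZ]; exact hq
    have hzq : z Z q ≠ 0 := by
      intro h0
      apply z2
      refine eq_zero_of h z1 (R := insert q Z) (by rw [card_insert_of_notMem hqZ, hZc]) ?_
      intro i hi
      rcases mem_insert.1 hi with rfl | hi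
      · exact h0
      · exact z3 i hi
    set c := x q / z Z q with hcdef
    have hxc : ∀ i, x i = c * z Z i := by
      have h0 : x - c • z Z = 0 := by
        refine eq_zero_of h (V.sub_mem hx (V.smul_mem _ z1)) (R := insert q Z)
          (by rw [card_insert_of_notMem hqZ, hZc]) ?_
        intro i hi
        simp only [Pi.sub_apply, Pi.smul_apply, smul_eq_mul]
        rcases mem_insert.1 hi with rfl | hi
        · rw [hcdef, div_mul_cancel₀ _ hzq]; ring
        · rw [z3 i hi, (hmZ i).1 hi]; ring
      intro i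
      have := congrFun h0 i
      simp only [Pi.sub_apply, Pi.smul_apply, smul_eq_mul, Pi.zero_apply] at this
      linarith
    have hc0 : c ≠ 0 := by
      rw [hcdef]; exact div_ne_zero hq hzq
    rw [mem_biUnion]
    refine ⟨Z, hlow, mem_image.2 ⟨(decide (0 < c), Z.filter (fun i => σ i = true)), ?_, ?_⟩⟩
    · rw [mem_product, mem_powerset]
      exact ⟨mem_univ _, filter_subset _ _⟩
    · funext i
      by_cases hi : i ∈ Z
      · simp only [G, if_pos hi, mem_filter, hi, true_and]
        cases σ i <;> simp
      · simp only [G, if_neg hi, decide_eq_true_eq]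
        have h1 := hpos i hi
        have h2 := hxc i
        by_cases hcp : 0 < c
        · rw [if_pos hcp]
          cases hs : σ i
          · have h3 := h1.2 hs
            have h4 : ¬ 0 < z Z i := by
              intro h5
              have := mul_pos hcp h5
              linarith
            simp [h4]
          · have h3 := h1.1 hs
            have h4 : 0 < z Z i := by
              by_contra h5
              push Not at h5
              have := mul_nonpos_of_nonneg_of_nonpos hcp.le h5
              linarith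
            simp [h4]
        · rw [if_neg hcp]
          have hcn : c < 0 := lt_of_le_of_ne (not_lt.1 hcp) hc0
          cases hs : σ i
          · have h3 := h1.2 hs
            have h4 : ¬ z Z i < 0 := by
              intro h5
              have := mul_pos_of_neg_of_neg hcn h5
              linarith
            simp [h4]
          · have h3 := h1.1 hs
            have h4 : z Z i < 0 := by
              by_contra h5
              push Not at h5
              have := mul_nonpos_of_nonpos_of_nonneg hcn.le h5
              linarith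
            simp [h4]
  refine (card_le_card hsub).trans (card_biUnion_le.trans ?_)
  calc ∑ Z ∈ lowV k V, (((univ : Finset Bool) ×ˢ Z.powerset).image (G Z)).card
      ≤ ∑ Z ∈ lowV k V, (2 * 2 ^ k) := by
        refine sum_le_sum fun Z hZ => card_image_le.trans ?_
        rw [card_product, card_univ, Fintype.card_bool, card_powerset]
        rw [lowV, mem_filter] at hZ
        rw [hZ.2.1]
    _ = _ := by rw [sum_const, smul_eq_mul]

open Classical in
theorem card_lowV_le {V : Submodule ℝ (Fin n → ℝ)} {k : ℕ} (h : Uni V (k + 1))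
    (hn : 2 * k ≤ n) : (lowV k V).card ≤ 2 ^ (2 * k + 1) * n.choose (k / 2) := by
  have h1 : (lowV k V).card * 2 ^ (n - 2 * k) ≤ ∑ R : Finset (Fin n), (VR V k R).card := by
    have e1 : ∑ R : Finset (Fin n), (VR V k R).card =
        ∑ Z : Finset (Fin n), (univ.filter (fun R => Z ∈ VR V k R)).card := by
      simp only [card_eq_sum_ones, sum_comm' (s := univ) (t := fun R => VR V k R)
        (t' := univ) (s' := fun Z => univ.filter (fun R => Z ∈ VR V k R))
        (by intro x y; simp) (f := fun _ _ => 1)]
    rw [e1, ← smul_eq_mul, ← sum_const]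
    refine (sum_le_sum (f := fun _ => 2 ^ (n - 2 * k))
      (g := fun Z => (univ.filter (fun R => Z ∈ VR V k R)).card) fun Z hZ => ?_).trans
      (sum_le_sum_of_subset (subset_univ _))
    rw [lowV, mem_filter] at hZ
    obtain ⟨-, hZc, A, hdis, hAc, x, hx, hx0, hxZ, hxA, hxo⟩ := hZ
    have hsub : Z ⊆ Aᶜ := by
      intro i hi
      rw [mem_compl]
      exact Finset.disjoint_left.1 hdis hi
    have h2 : (Finset.Icc Z Aᶜ).card = 2 ^ ((Aᶜ).card - Z.card) := card_Icc_finset hsub
    have h3 : (Aᶜ).card = n - A.card := by rw [card_compl, Fintype.card_fin]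
    calc 2 ^ (n - 2 * k) ≤ 2 ^ ((Aᶜ).card - Z.card) :=
          Nat.pow_le_pow_right (by norm_num) (by omega)
      _ = (Finset.Icc Z Aᶜ).card := h2.symm
      _ ≤ _ := by
        refine card_le_card fun R hR => ?_
        rw [mem_Icc] at hR
        rw [mem_filter]
        refine ⟨mem_univ _, mem_VR.2 ⟨hR.1, hZc, x, hx, hxZ, hx0, fun i hi hiZ => ?_⟩⟩
        exact hxo i (mem_compl.1 (hR.2 hi)) hiZ
  have h2 : ∑ R : Finset (Fin n), (VR V k R).card ≤ 2 ^ n * (2 * n.choose (k / 2)) := by
    have h3 : ∀ R : Finset (Fin n), (VR V k R).card ≤ 2 * n.choose (k / 2) := by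
      intro R
      have hRn : R.card ≤ n := by simpa using card_le_univ R
      by_cases hR : k + 1 ≤ R.card
      · exact (VR_card h hR).trans (Nat.mul_le_mul_left 2 (Nat.choose_le_choose _ hRn))
      · have h4 : VR V k R ⊆ {R} := by
          intro Z hZ
          obtain ⟨h5, h6, -⟩ := mem_VR.1 hZ
          rw [mem_singleton]
          exact eq_of_subset_of_card_le h5 (by omega)
        have h5 := card_le_card h4
        rw [card_singleton] at h5
        have h6 : 1 ≤ n.choose (k / 2) := Nat.choose_pos (by omega)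
        omega
    refine (sum_le_sum fun R _ => h3 R).trans ?_
    rw [sum_const, card_univ, Fintype.card_finset, Fintype.card_fin, smul_eq_mul]
  have h3 := h1.trans h2
  have h4 : 2 ^ n = 2 ^ (2 * k) * 2 ^ (n - 2 * k) := by
    rw [← pow_add]; congr 1; omega
  rw [h4] at h3
  have h5 : 2 ^ (2 * k) * 2 ^ (n - 2 * k) * (2 * n.choose (k / 2)) =
      (2 ^ (2 * k + 1) * n.choose (k / 2)) * 2 ^ (n - 2 * k) := by
    rw [pow_succ]; ring
  rw [h5] at h3
  exact Nat.le_of_mul_le_mul_right h3 (by positivity)

open Classical in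
/-- the bound for the number of balanced patterns -/
theorem Bs_ge {V : Submodule ℝ (Fin (n + 1) → ℝ)} {k : ℕ} (h : Uni V (k + 1))
    (hn : 2 * k ≤ n + 1) : 2 * ∑ j ∈ range (k + 1), n.choose j ≤
      (Bs (k + 1) V).card + 2 * (2 ^ (3 * k + 2) * (n + 1).choose (k / 2)) := by
  rw [← card_pat_eq V h]
  have h1 : patSet V ⊆ Bs (k + 1) V ∪
      (small k V ∪ (small k V).image (fun (σ : Fin (n + 1) → Bool) i => !(σ i))) := by
    intro σ hσ
    have hP := mem_patSet.1 hσ
    by_cases c1 : ct true σ ≤ k
    · refine mem_union_right _ (mem_union_left _ ?_)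
      rw [small, mem_filter]; exact ⟨mem_univ _, hP, c1⟩
    · by_cases c2 : ct false σ ≤ k
      · refine mem_union_right _ (mem_union_right _ (mem_image.2 ⟨fun i => !(σ i), ?_, ?_⟩))
        · rw [small, mem_filter]
          exact ⟨mem_univ _, pat_not hP, by rw [ct_not]; exact c2⟩
        · funext i; simp
      · exact mem_union_left _ (mem_Bs.2 ⟨hP, by omega, by omega⟩)
  have h2 := card_le_card h1
  have h3 := card_union_le (Bs (k + 1) V)
    (small k V ∪ (small k V).image (fun (σ : Fin (n + 1) → Bool) i => !(σ i)))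
  have h4 := card_union_le (small k V)
    ((small k V).image (fun (σ : Fin (n + 1) → Bool) i => !(σ i)))
  have h5 := card_image_le (s := small k V) (f := fun (σ : Fin (n + 1) → Bool) i => !(σ i))
  have h6 := card_small_le h
  have h7 := card_lowV_le h hn
  have h8 : (lowV k V).card * (2 * 2 ^ k) ≤ 2 ^ (3 * k + 2) * (n + 1).choose (k / 2) := by
    refine (Nat.mul_le_mul_right _ h7).trans (le_of_eq ?_)
    have : 2 ^ (3 * k + 2) = 2 ^ (2 * k + 1) * (2 * 2 ^ k) := by
      rw [← pow_succ', ← pow_add]; congr 1; ring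
    rw [this]; ring
  omega

end Pool.Agent.Helper34.RP
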