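import Pool.Agent.Helper34.RP.Conf3
import Pool.Agent.Helper34.RP.Sample

/-!
The results on `μ(d,2,k)`.
-/

set_option autoImplicit false

open Finset Module

namespace Pool.Agent.Helper34.RP

variable {d : ℕ}

/-- the minimum is attained -/
theorem mu_attained (hd : 1 ≤ d) (m k : ℕ) : ∃ S : Finset (E d),
    S.card = (m - 1) * (d + 1) + k + 1 ∧ StronglyIndependent S ∧
      numPartitions S m k = mu d m k := by
  classical
  have hne : {n : ℕ | ∃ S : Finset (E d), S.card = (m - 1) * (d + 1) + k + 1 ∧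
    StronglyIndependent S ∧ numPartitions S m k = n}.Nonempty := by
    obtain ⟨x, -, h2, -, h4⟩ := exists_ext hd (SI'_empty (d := d)) ((m - 1) * (d + 1) + k + 1)
      (fun _ => Set.univ) (fun _ => ⟨isOpen_univ, Set.univ_nonempty⟩)
    refine ⟨_, ∅ ∪ univ.image x, ?_, h4.si, rfl⟩
    rw [empty_union, card_image_of_injective _ h2, card_univ, Fintype.card_fin]
  exact Nat.sInf_mem hne

/-- reduction of lower bounds to patterns -/
theorem mu_patterns (hd : 1 ≤ d) (k : ℕ) {N : ℕ} (hN : N = d + k + 2) :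
    ∃ V : Submodule ℝ (Fin N → ℝ), Uni V (k + 1) ∧ TC V ∧
      2 * mu d 2 k = (Bs (k + 1) V).card := by
  classical
  obtain ⟨S, h1, h2, h3⟩ := mu_attained hd 2 k
  have hc : S.card = N := by omega
  let s : Fin N → E d := fun i => (S.equivFinOfCardEq hc).symm i
  have hs : Function.Injective s := fun i j h => by
    have := Subtype.ext h
    exact (S.equivFinOfCardEq hc).symm.injective this
  have himg : univ.image s = S := by
    ext x
    simp only [mem_image, mem_univ, true_and]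
    constructor
    · rintro ⟨i, rfl⟩; exact ((S.equivFinOfCardEq hc).symm i).2
    · intro hx
      exact ⟨S.equivFinOfCardEq hc ⟨x, hx⟩, by simp [s]⟩
  have hGP : GP s := gp_of_si hs (by rw [himg]; exact h2)
  refine ⟨dep s, hGP.uni (by omega), dep_tc s, ?_⟩
  have h4 := numPartitions_eq hs hGP hN
  rw [← h3, ← h4, himg]

/-- lower bound with the error term -/
theorem lower_error (hd : 1 ≤ d) {k : ℕ} (hk : k ≤ d) :
    ∑ j ∈ range (k + 1), (d + k + 1).choose j ≤
      mu d 2 k + 2 ^ (3 * k + 2) * (d + k + 2).choose (k / 2) := by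
  obtain ⟨V, h1, -, h3⟩ := mu_patterns hd k (N := (d + k + 1) + 1) (by omega)
  have h4 := Bs_ge h1 (by omega)
  have e : d + k + 2 = d + k + 1 + 1 := rfl
  rw [e]
  omega

/-- the ballot lower bound -/
theorem lower_ballot {k : ℕ} (hk2 : 2 ≤ k) (hk : k ≤ d) :
    (d + k).choose k + 2 * (d + k - 2).choose (k - 1) ≤
      mu d 2 k + (d + k).choose (k - 1) + 2 * (d + k - 2).choose (k - 2) := by
  obtain ⟨V, h1, h2, h3⟩ := mu_patterns (show 1 ≤ d by omega) k (N := d + k + 2) rfl
  obtain ⟨k, rfl⟩ : ∃ k', k = k' + 2 := ⟨k - 2, by omega⟩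
  have h4 := ballot' (d + (k + 2) + 2) d k (by omega) (by omega) V h1 h2
  have h5 := bal_closed (d + (k + 1)) d (k + 1) rfl (by omega)
  have h6 := bal_closed (d - 1 + k) (d - 1) k rfl (by omega)
  have e1 : d + (k + 2) = d + (k + 1) + 1 := by omega
  have e2 : d + (k + 2) - 2 = d - 1 + k + 1 := by omega
  have e3 : k + 2 - 1 = k + 1 := by omega
  have e4 : k + 2 - 2 = k := by omega
  rw [e2, e3, e4, e1]
  have e5 : bal d (k + 1 + 1) = bal d (k + 2) := rfl
  have e6 : (d + (k + 1) + 1).choose (k + 1 + 1) = (d + (k + 1) + 1).choose (k + 2) := rfl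
  rw [e5, e6] at h5
  have e7 : (Bs (k + 2 + 1) V).card = (Bs (k + 3) V).card := rfl
  rw [e7] at h3
  omega

theorem mu_one (hd : 1 ≤ d) : mu d 2 1 = d + 1 := by
  apply le_antisymm
  · have h1 := upper_general hd (k := 1) hd
    simp only [sum_range_succ, range_zero, sum_empty, Nat.choose_zero_right,
      Nat.choose_one_right] at h1
    omega
  · obtain ⟨V, h1, h2, h3⟩ := mu_patterns hd 1 (N := d + 3) (by omega)
    have h4 := one hd V h1 h2
    have e7 : (Bs (1 + 1) V).card = (Bs 2 V).card := rfl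
    omega

theorem mu_two (hd : 2 ≤ d) : 2 * mu d 2 2 + 6 = d ^ 2 + 5 * d := by
  apply le_antisymm
  · have h1 := upper_two hd
    simp only [sum_range_succ, range_zero, sum_empty, Nat.choose_zero_right,
      Nat.choose_one_right, Nat.choose_two_right] at h1
    have e1 : (d + 1 + 2) * (d + 1 + 2 - 1) = d ^ 2 + 5 * d + 6 := by
      have : d + 1 + 2 - 1 = d + 2 := by omega
      rw [this]; ring
    rw [e1] at h1
    omega
  · obtain ⟨V, h1, h2, h3⟩ := mu_patterns (show 1 ≤ d by omega) 2 (N := d + 4) (by omega)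
    have h4 := two (d + 4) d rfl hd V h1 h2
    have e7 : (Bs (2 + 1) V).card = (Bs 3 V).card := rfl
    have e8 : d ^ 2 = d * d := sq d
    omega

/-- the deficiency has order `d^⌊k/2⌋` -/
theorem deficiency {k : ℕ} (hk : 1 ≤ k) : ∃ c C : ℝ, 0 < c ∧ 0 < C ∧ ∀ d : ℕ, k ≤ d →
    c * (d : ℝ) ^ (k / 2) ≤ ((∑ j ∈ range (k + 1), (d + k + 1).choose j : ℕ) : ℝ) - mu d 2 k ∧
    ((∑ j ∈ range (k + 1), (d + k + 1).choose j : ℕ) : ℝ) - mu d 2 k ≤
      C * (d : ℝ) ^ (k / 2) := by
  refine ⟨1 / (2 ^ (k / 2) * (k / 2).factorial), 2 ^ (3 * k + 2) * 4 ^ (k / 2), by positivity,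
    by positivity, fun d hd => ⟨?_, ?_⟩⟩
  · rcases Nat.lt_or_ge k 2 with hk1 | hk2
    · have : k = 1 := by omega
      subst this
      rw [mu_one hd]
      have e : ∑ j ∈ range (1 + 1), (d + 1 + 1).choose j = d + 3 := by
        simp only [sum_range_succ, range_zero, sum_empty, Nat.choose_zero_right,
          Nat.choose_one_right]
        omega
      rw [e]
      norm_num
    · have h1 := upper_moment hd hk2
      have e : d + 1 + k = d + k + 1 := by omega
      rw [e] at h1
      have h2 : (d + 1).choose (k / 2) ≤ ∑ j ∈ range (k + 1), (d + k + 1).choose j - mu d 2 k := by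
        have : 2 ^ 1 ≤ 2 ^ (k + 1) := Nat.pow_le_pow_right (by norm_num) (by omega)
        omega
      have h3 : mu d 2 k ≤ ∑ j ∈ range (k + 1), (d + k + 1).choose j := by
        have : 2 ^ 1 ≤ 2 ^ (k + 1) := Nat.pow_le_pow_right (by norm_num) (by omega)
        omega
      have h4 : ((d + 1).choose (k / 2) : ℝ) ≤
          ((∑ j ∈ range (k + 1), (d + k + 1).choose j : ℕ) : ℝ) - mu d 2 k := by
        rw [← Nat.cast_sub h3]
        exact_mod_cast h2
      refine le_trans ?_ h4
      have h5 := Nat.pow_le_choose (k / 2) (d + 1) (α := ℝ)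
      refine le_trans ?_ h5
      rw [div_mul_eq_mul_div, one_mul, div_le_div_iff₀ (by positivity) (by positivity)]
      have h6 : (d : ℝ) ^ (k / 2) ≤ 2 ^ (k / 2) * ((d + 1 + 1 - k / 2 : ℕ) : ℝ) ^ (k / 2) := by
        rw [← mul_pow]
        apply pow_le_pow_left₀ (by positivity)
        have h7 : d ≤ 2 * (d + 1 + 1 - k / 2) := by omega
        exact_mod_cast h7
      calc (d : ℝ) ^ (k / 2) * ((k / 2).factorial : ℝ)
          ≤ (2 ^ (k / 2) * ((d + 1 + 1 - k / 2 : ℕ) : ℝ) ^ (k / 2)) * ((k / 2).factorial : ℝ) :=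
            mul_le_mul_of_nonneg_right h6 (by positivity)
        _ = _ := by ring
  · have h1 := lower_error (show 1 ≤ d by omega) hd
    have h2 : ((∑ j ∈ range (k + 1), (d + k + 1).choose j : ℕ) : ℝ) ≤
        mu d 2 k + 2 ^ (3 * k + 2) * ((d + k + 2).choose (k / 2) : ℝ) := by
      exact_mod_cast h1
    have h3 : ((d + k + 2).choose (k / 2) : ℝ) ≤ (4 * (d : ℝ)) ^ (k / 2) := by
      have h4 : ((d + k + 2).choose (k / 2) : ℝ) ≤ ((d + k + 2 : ℕ) : ℝ) ^ (k / 2) := by
        exact_mod_cast Nat.choose_le_pow (d + k + 2) (k / 2)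
      refine h4.trans (pow_le_pow_left₀ (by positivity) ?_ _)
      have : d + k + 2 ≤ 4 * d := by omega
      exact_mod_cast this
    have h5 : (2 : ℝ) ^ (3 * k + 2) * ((d + k + 2).choose (k / 2) : ℝ) ≤
        2 ^ (3 * k + 2) * 4 ^ (k / 2) * (d : ℝ) ^ (k / 2) := by
      calc (2 : ℝ) ^ (3 * k + 2) * ((d + k + 2).choose (k / 2) : ℝ)
          ≤ 2 ^ (3 * k + 2) * (4 * (d : ℝ)) ^ (k / 2) :=
            mul_le_mul_of_nonneg_left h3 (by positivity)
        _ = _ := by rw [mul_pow]; ring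
    linarith

end Pool.Agent.Helper34.RP
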