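import Mathlib

/-!
Sign patterns of linear subspaces of `ℝⁿ` (oriented matroids by hand): deletion, contraction,
Schläfli's count, and ballot-type lower bounds for the number of balanced patterns.
-/

set_option autoImplicit false

open Finset Module

namespace Pool.Agent.Helper34.RP

variable {n : ℕ}

/-- `σ` is a sign pattern of `V` -/
def Pat (V : Submodule ℝ (Fin n → ℝ)) (σ : Fin n → Bool) : Prop :=
  ∃ x ∈ V, ∀ i, (σ i = true → 0 < x i) ∧ (σ i = false → x i < 0)

/-- weak compatibility -/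
def Wk (x : Fin n → ℝ) (σ : Fin n → Bool) : Prop :=
  ∀ i, (σ i = true → 0 ≤ x i) ∧ (σ i = false → x i ≤ 0)

/-- number of zeros -/
noncomputable def zc (x : Fin n → ℝ) : ℕ := ∑ i, if x i = 0 then 1 else 0

/-- number of entries equal to `b` -/
def ct (b : Bool) (σ : Fin n → Bool) : ℕ := ∑ i, if σ i = b then 1 else 0

/-- `V` has dimension (at least) `r`, and nonzero elements have fewer than `r` zeros -/
structure Uni (V : Submodule ℝ (Fin n → ℝ)) (r : ℕ) : Prop where
  dim : r ≤ finrank ℝ V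
  zer : ∀ x ∈ V, x ≠ 0 → zc x < r

/-- totally cyclic: no nonnegative vectors -/
def TC (V : Submodule ℝ (Fin n → ℝ)) : Prop := ∀ x ∈ V, (∀ i, 0 ≤ x i) → x = 0

theorem zc_card (x : Fin n → ℝ) : zc x = (univ.filter (fun i => x i = 0)).card := by
  rw [zc, card_filter]

theorem card_le_zc {x : Fin n → ℝ} {R : Finset (Fin n)} (h : ∀ i ∈ R, x i = 0) :
    R.card ≤ zc x := by
  rw [zc_card]
  exact card_le_card (fun i hi => by simp [h i hi])

theorem Uni.le (n : ℕ) {V : Submodule ℝ (Fin n → ℝ)} {r : ℕ} (h : Uni V r) : r ≤ n := by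
  have := Submodule.finrank_le V
  rw [finrank_fin_fun] at this
  exact h.dim.trans this

theorem eq_zero_of {V : Submodule ℝ (Fin n → ℝ)} {r : ℕ} (h : Uni V r) {x : Fin n → ℝ}
    (hx : x ∈ V) {R : Finset (Fin n)} (hR : r ≤ R.card) (h0 : ∀ i ∈ R, x i = 0) : x = 0 := by
  by_contra hne
  have := h.zer x hx hne
  have := card_le_zc h0
  omega

theorem restrict_inj {V : Submodule ℝ (Fin n → ℝ)} {r : ℕ} (h : Uni V r) {R : Finset (Fin n)}
    (hR : R.card = r) : Function.Injective
      ((LinearMap.funLeft ℝ ℝ (Subtype.val : R → Fin n)).domRestrict V) := by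
  rw [← LinearMap.ker_eq_bot, LinearMap.ker_eq_bot']
  intro x hx
  have : (x : Fin n → ℝ) = 0 := eq_zero_of h x.2 hR.ge (fun i hi => by
    have := congrFun hx ⟨i, hi⟩
    simpa [LinearMap.funLeft_apply] using this)
  exact Subtype.ext this

theorem Uni.finrank_eq {V : Submodule ℝ (Fin n → ℝ)} {r : ℕ} (h : Uni V r) :
    finrank ℝ V = r := by
  obtain ⟨R, -, hR⟩ := Finset.exists_superset_card_eq (s := (∅ : Finset (Fin n))) (n := r)
    (by simp) (by simpa using h.le)
  have := LinearMap.finrank_le_finrank_of_injective (restrict_inj h hR)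
  simp only [finrank_fintype_fun_eq_card, Fintype.card_coe, hR] at this
  exact le_antisymm this h.dim

/-- interpolation -/
theorem interp {V : Submodule ℝ (Fin n → ℝ)} {r : ℕ} (h : Uni V r) (R : Finset (Fin n))
    (hR : R.card ≤ r) (t : Fin n → ℝ) : ∃ x ∈ V, ∀ i ∈ R, x i = t i := by
  obtain ⟨R', hRR', hR'⟩ := Finset.exists_superset_card_eq (s := R) (n := r)
    hR (by simpa using h.le)
  have hinj := restrict_inj h hR'
  have hdim : finrank ℝ V = finrank ℝ (R' → ℝ) := by
    rw [h.finrank_eq, finrank_fintype_fun_eq_card, Fintype.card_coe, hR']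
  have hsurj := (LinearMap.injective_iff_surjective_of_finrank_eq_finrank hdim).1 hinj
  obtain ⟨x, hx⟩ := hsurj (fun i => t i)
  refine ⟨x, x.2, fun i hi => ?_⟩
  have := congrFun hx ⟨i, hRR' hi⟩
  simpa [LinearMap.funLeft_apply] using this

theorem pat_of_wk {V : Submodule ℝ (Fin n → ℝ)} {r : ℕ} (h : Uni V r) {x : Fin n → ℝ}
    (hx : x ∈ V) (hx0 : x ≠ 0) {σ : Fin n → Bool} (hw : Wk x σ) : Pat V σ := by
  obtain ⟨y, hy, hyz⟩ := interp h (univ.filter (fun i => x i = 0))
    (by rw [← zc_card]; exact (h.zer x hx hx0).le) (fun i => if σ i = true then 1 else -1)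
  have key : ∀ i, ∀ᶠ ε in nhdsWithin (0 : ℝ) (Set.Ioi 0),
      (σ i = true → 0 < x i + ε * y i) ∧ (σ i = false → x i + ε * y i < 0) := by
    intro i
    by_cases hi : x i = 0
    · have h1 := hyz i (by simp [hi])
      filter_upwards [self_mem_nhdsWithin] with ε hε
      have hε' : 0 < ε := hε
      constructor
      · intro hs
        rw [h1, hi, if_pos hs]; simpa using hε'
      · intro hs
        rw [h1, hi, if_neg (by simp [hs])]; linarith
    · have hc : Filter.Tendsto (fun ε : ℝ => x i + ε * y i) (nhdsWithin (0 : ℝ) (Set.Ioi 0))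
          (nhds (x i)) := by
        have : Continuous (fun ε : ℝ => x i + ε * y i) := by fun_prop
        have h2 := this.tendsto 0
        simp only [zero_mul, add_zero] at h2
        exact h2.mono_left nhdsWithin_le_nhds
      rcases lt_or_gt_of_ne hi with h3 | h3
      · filter_upwards [hc.eventually (gt_mem_nhds h3)] with ε hε
        refine ⟨fun hs => ?_, fun _ => hε⟩
        exact absurd ((hw i).1 hs) (not_le.2 h3)
      · filter_upwards [hc.eventually (lt_mem_nhds h3)] with ε hε
        refine ⟨fun _ => hε, fun hs => ?_⟩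
        exact absurd ((hw i).2 hs) (not_le.2 h3)
  obtain ⟨ε, hε⟩ := (Filter.eventually_all.2 key).exists
  exact ⟨x + ε • y, V.add_mem hx (V.smul_mem _ hy), fun i => by simpa using hε i⟩

/-! ### deletion and contraction -/

/-- deletion -/
def del (V : Submodule ℝ (Fin (n + 1) → ℝ)) (v : Fin (n + 1)) : Submodule ℝ (Fin n → ℝ) :=
  V.map (LinearMap.funLeft ℝ ℝ v.succAbove)

/-- contraction -/
def con (V : Submodule ℝ (Fin (n + 1) → ℝ)) (v : Fin (n + 1)) : Submodule ℝ (Fin n → ℝ) :=
  (V ⊓ LinearMap.ker (LinearMap.proj v : (Fin (n + 1) → ℝ) →ₗ[ℝ] ℝ)).map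
    (LinearMap.funLeft ℝ ℝ v.succAbove)

theorem mem_del {V : Submodule ℝ (Fin (n + 1) → ℝ)} {v : Fin (n + 1)} {y : Fin n → ℝ} :
    y ∈ del V v ↔ ∃ x ∈ V, ∀ i, x (v.succAbove i) = y i := by
  simp only [del, Submodule.mem_map]
  refine exists_congr fun x => and_congr_right fun _ => ?_
  rw [funext_iff]; simp [LinearMap.funLeft_apply]

theorem mem_con {V : Submodule ℝ (Fin (n + 1) → ℝ)} {v : Fin (n + 1)} {y : Fin n → ℝ} :
    y ∈ con V v ↔ ∃ x ∈ V, x v = 0 ∧ ∀ i, x (v.succAbove i) = y i := by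
  simp only [con, Submodule.mem_map, Submodule.mem_inf, LinearMap.mem_ker, LinearMap.proj_apply]
  constructor
  · rintro ⟨x, ⟨h1, h2⟩, h3⟩
    exact ⟨x, h1, h2, fun i => by rw [← h3]; rfl⟩
  · rintro ⟨x, h1, h2, h3⟩
    exact ⟨x, ⟨h1, h2⟩, funext fun i => by simpa using h3 i⟩

theorem zc_succAbove (x : Fin (n + 1) → ℝ) (v : Fin (n + 1)) :
    zc x = (if x v = 0 then 1 else 0) + zc (fun i => x (v.succAbove i)) := by
  simp [zc, Fin.sum_univ_succAbove _ v]

theorem ct_insertNth (b c : Bool) (v : Fin (n + 1)) (τ : Fin n → Bool) :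
    ct b (v.insertNth c τ : Fin (n + 1) → Bool) = (if c = b then 1 else 0) + ct b τ := by
  simp [ct, Fin.sum_univ_succAbove _ v]

theorem ct_add (σ : Fin n → Bool) : ct true σ + ct false σ = n := by
  rw [ct, ct, ← sum_add_distrib]
  have : ∀ i, ((if σ i = true then 1 else 0) + (if σ i = false then 1 else 0) : ℕ) = 1 := by
    intro i; cases σ i <;> simp
  simp [this]

theorem Uni.del {V : Submodule ℝ (Fin (n + 1) → ℝ)} {r : ℕ} (h : Uni V r) (hr : r ≤ n)
    (v : Fin (n + 1)) : Uni (del V v) r := by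
  constructor
  · have hinj : Function.Injective ((LinearMap.funLeft ℝ ℝ v.succAbove).domRestrict V) := by
      rw [← LinearMap.ker_eq_bot, LinearMap.ker_eq_bot']
      intro x hx
      have : (x : Fin (n + 1) → ℝ) = 0 := by
        refine eq_zero_of h x.2 (R := univ.erase v) (by simpa using hr) (fun i hi => ?_)
        obtain ⟨j, rfl⟩ := Fin.exists_succAbove_eq (ne_of_mem_erase hi)
        have := congrFun hx j
        simpa [LinearMap.funLeft_apply] using this
      exact Subtype.ext this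
    have := LinearMap.finrank_range_of_inj hinj
    rw [LinearMap.range_domRestrict] at this
    rw [RP.del, this]; exact h.dim
  · intro y hy hy0
    obtain ⟨x, hx, hxy⟩ := mem_del.1 hy
    have hx0 : x ≠ 0 := by
      rintro rfl
      exact hy0 (funext fun i => by rw [← hxy i]; rfl)
    have h1 := h.zer x hx hx0
    rw [zc_succAbove x v] at h1
    have : (fun i => x (v.succAbove i)) = y := funext hxy
    rw [this] at h1
    omega

theorem finrank_ker_proj (v : Fin (n + 1)) :
    finrank ℝ (LinearMap.ker (LinearMap.proj v : (Fin (n + 1) → ℝ) →ₗ[ℝ] ℝ)) = n := by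
  have h1 := LinearMap.finrank_range_add_finrank_ker
    (LinearMap.proj v : (Fin (n + 1) → ℝ) →ₗ[ℝ] ℝ)
  have h2 : LinearMap.range (LinearMap.proj v : (Fin (n + 1) → ℝ) →ₗ[ℝ] ℝ) = ⊤ :=
    LinearMap.range_eq_top.2 (LinearMap.proj_surjective v)
  rw [h2, finrank_top, finrank_fin_fun, finrank_self] at h1
  omega

theorem finrank_con_ge (V : Submodule ℝ (Fin (n + 1) → ℝ)) (v : Fin (n + 1)) :
    finrank ℝ V ≤ finrank ℝ (con V v) + 1 := by
  have h1 := Submodule.finrank_sup_add_finrank_inf_eq V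
    (LinearMap.ker (LinearMap.proj v : (Fin (n + 1) → ℝ) →ₗ[ℝ] ℝ))
  rw [finrank_ker_proj] at h1
  have h2 := Submodule.finrank_le (V ⊔ LinearMap.ker
    (LinearMap.proj v : (Fin (n + 1) → ℝ) →ₗ[ℝ] ℝ))
  rw [finrank_fin_fun] at h2
  have hinj : Function.Injective ((LinearMap.funLeft ℝ ℝ v.succAbove).domRestrict
      (V ⊓ LinearMap.ker (LinearMap.proj v : (Fin (n + 1) → ℝ) →ₗ[ℝ] ℝ))) := by
    rw [← LinearMap.ker_eq_bot, LinearMap.ker_eq_bot']
    intro x hx
    apply Subtype.ext
    funext i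
    rcases Fin.eq_self_or_eq_succAbove v i with rfl | ⟨j, rfl⟩
    · exact x.2.2
    · have := congrFun hx j
      simpa [LinearMap.funLeft_apply] using this
  have h3 := LinearMap.finrank_range_of_inj hinj
  rw [LinearMap.range_domRestrict] at h3
  rw [con, h3]
  omega

theorem Uni.con {V : Submodule ℝ (Fin (n + 1) → ℝ)} {r : ℕ} (h : Uni V (r + 1))
    (v : Fin (n + 1)) : Uni (con V v) r := by
  constructor
  · have := finrank_con_ge V v
    have := h.dim
    omega
  · intro y hy hy0
    obtain ⟨x, hx, hxv, hxy⟩ := mem_con.1 hy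
    have hx0 : x ≠ 0 := by
      rintro rfl
      exact hy0 (funext fun i => by rw [← hxy i]; rfl)
    have h1 := h.zer x hx hx0
    rw [zc_succAbove x v, if_pos hxv] at h1
    have : (fun i => x (v.succAbove i)) = y := funext hxy
    rw [this] at h1
    omega

theorem TC.con {V : Submodule ℝ (Fin (n + 1) → ℝ)} (h : TC V) (v : Fin (n + 1)) :
    TC (con V v) := by
  intro y hy hy0
  obtain ⟨x, hx, hxv, hxy⟩ := mem_con.1 hy
  have : x = 0 := h x hx (fun i => by
    rcases Fin.eq_self_or_eq_succAbove v i with rfl | ⟨j, rfl⟩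
    · rw [hxv]
    · rw [hxy]; exact hy0 j)
  funext i
  rw [← hxy i, this]; rfl

theorem wk_insertNth {x : Fin (n + 1) → ℝ} {v : Fin (n + 1)} {c : Bool} {τ : Fin n → Bool}
    (h1 : (c = true → 0 ≤ x v) ∧ (c = false → x v ≤ 0))
    (h2 : ∀ i, (τ i = true → 0 ≤ x (v.succAbove i)) ∧ (τ i = false → x (v.succAbove i) ≤ 0)) :
    Wk x (v.insertNth c τ : Fin (n + 1) → Bool) := by
  intro i
  rcases Fin.eq_self_or_eq_succAbove v i with rfl | ⟨j, rfl⟩
  · simpa using h1
  · simpa using h2 j

theorem pat_del_of {V : Submodule ℝ (Fin (n + 1) → ℝ)} {v : Fin (n + 1)} {c : Bool}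
    {τ : Fin n → Bool} (h : Pat V (v.insertNth c τ : Fin (n + 1) → Bool)) : Pat (del V v) τ := by
  obtain ⟨x, hx, h1⟩ := h
  exact ⟨fun i => x (v.succAbove i), mem_del.2 ⟨x, hx, fun _ => rfl⟩, fun i => by
    simpa using h1 (v.succAbove i)⟩

theorem pat_con_of {V : Submodule ℝ (Fin (n + 1) → ℝ)} {v : Fin (n + 1)} {τ : Fin n → Bool}
    (h : Pat V (v.insertNth true τ : Fin (n + 1) → Bool))
    (h' : Pat V (v.insertNth false τ : Fin (n + 1) → Bool)) : Pat (con V v) τ := by
  obtain ⟨x, hx, h1⟩ := h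
  obtain ⟨y, hy, h2⟩ := h'
  have hxv : 0 < x v := (h1 v).1 (by simp)
  have hyv : y v < 0 := (h2 v).2 (by simp)
  refine ⟨fun i => (-y v) * x (v.succAbove i) + x v * y (v.succAbove i),
    mem_con.2 ⟨(-y v) • x + x v • y, V.add_mem (V.smul_mem _ hx) (V.smul_mem _ hy),
      by simp; ring, fun i => by simp⟩, fun i => ⟨fun hi => ?_, fun hi => ?_⟩⟩
  · have a1 := (h1 (v.succAbove i)).1 (by simpa using hi)
    have a2 := (h2 (v.succAbove i)).1 (by simpa using hi)
    have := mul_pos (neg_pos.2 hyv) a1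
    have := mul_pos hxv a2
    linarith
  · have a1 := (h1 (v.succAbove i)).2 (by simpa using hi)
    have a2 := (h2 (v.succAbove i)).2 (by simpa using hi)
    have := mul_neg_of_pos_of_neg (neg_pos.2 hyv) a1
    have := mul_neg_of_pos_of_neg hxv a2
    linarith

theorem exists_pat_of_del {V : Submodule ℝ (Fin (n + 1) → ℝ)} {r : ℕ} (h : Uni V r)
    (hn : 1 ≤ n) {v : Fin (n + 1)} {τ : Fin n → Bool} (hτ : Pat (del V v) τ) :
    ∃ c, Pat V (v.insertNth c τ : Fin (n + 1) → Bool) := by
  obtain ⟨y, hy, h1⟩ := hτ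
  obtain ⟨x, hx, hxy⟩ := mem_del.1 hy
  have hx0 : x ≠ 0 := by
    rintro rfl
    have := h1 ⟨0, hn⟩
    rw [← hxy] at this
    cases h2 : τ ⟨0, hn⟩
    · exact absurd (this.2 h2) (by simp)
    · exact absurd (this.1 h2) (by simp)
  refine ⟨decide (0 ≤ x v), pat_of_wk h hx hx0 (wk_insertNth ⟨fun hc => ?_, fun hc => ?_⟩
    fun i => ?_)⟩
  · simpa using hc
  · have : ¬ (0 ≤ x v) := by simpa using hc
    exact (not_le.1 this).le
  · rw [hxy]; exact ⟨fun hi => ((h1 i).1 hi).le, fun hi => ((h1 i).2 hi).le⟩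

theorem pat_of_con {V : Submodule ℝ (Fin (n + 1) → ℝ)} {r : ℕ} (h : Uni V r)
    (hn : 1 ≤ n) {v : Fin (n + 1)} {τ : Fin n → Bool} (hτ : Pat (con V v) τ) (c : Bool) :
    Pat V (v.insertNth c τ : Fin (n + 1) → Bool) := by
  obtain ⟨y, hy, h1⟩ := hτ
  obtain ⟨x, hx, hxv, hxy⟩ := mem_con.1 hy
  have hx0 : x ≠ 0 := by
    rintro rfl
    have := h1 ⟨0, hn⟩
    rw [← hxy] at this
    cases h2 : τ ⟨0, hn⟩
    · exact absurd (this.2 h2) (by simp)
    · exact absurd (this.1 h2) (by simp)
  refine pat_of_wk h hx hx0 (wk_insertNth ⟨fun hc => ?_, fun hc => ?_⟩ fun i => ?_)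
  · rw [hxv]
  · rw [hxv]
  · rw [hxy]; exact ⟨fun hi => ((h1 i).1 hi).le, fun hi => ((h1 i).2 hi).le⟩

/-! ### counting -/

open Classical in
/-- all patterns -/
noncomputable def patSet (V : Submodule ℝ (Fin n → ℝ)) : Finset (Fin n → Bool) :=
  univ.filter (fun σ => Pat V σ)

open Classical in
/-- balanced patterns -/
noncomputable def Bs (r : ℕ) (V : Submodule ℝ (Fin n → ℝ)) : Finset (Fin n → Bool) :=
  univ.filter (fun σ => Pat V σ ∧ r ≤ ct true σ ∧ r ≤ ct false σ)

theorem mem_patSet {V : Submodule ℝ (Fin n → ℝ)} {σ : Fin n → Bool} :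
    σ ∈ patSet V ↔ Pat V σ := by simp [patSet]

theorem mem_Bs {r : ℕ} {V : Submodule ℝ (Fin n → ℝ)} {σ : Fin n → Bool} :
    σ ∈ Bs r V ↔ Pat V σ ∧ r ≤ ct true σ ∧ r ≤ ct false σ := by simp [Bs]

theorem insertNth_inj {v : Fin (n + 1)} {c c' : Bool} {τ τ' : Fin n → Bool}
    (h : (v.insertNth c τ : Fin (n + 1) → Bool) = v.insertNth c' τ') : c = c' ∧ τ = τ' := by
  constructor
  · have := congrFun h v; simpa using this
  · funext i
    have := congrFun h (v.succAbove i); simpa using this

open Classical in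
/-- the basic recursion -/
theorem Bs_rec {V : Submodule ℝ (Fin (n + 1) → ℝ)} {r : ℕ} (h : Uni V (r + 1))
    (hn : 2 * (r + 1) ≤ n + 1) (v : Fin (n + 1)) (E : Finset (Fin (n + 1) → Bool))
    (hE : ∀ σ ∈ E, σ ∈ Bs (r + 1) V ∧ ∀ c τ, σ = v.insertNth c τ → ¬ Pat (con V v) τ ∧
      ¬ (r + 1 ≤ ct true τ ∧ r + 1 ≤ ct false τ)) :
    (Bs (r + 1) (del V v)).card + (Bs r (con V v)).card + E.card ≤ (Bs (r + 1) V).card := by
  have hn1 : 1 ≤ n := by omega
  have hβ : ∀ τ : Fin n → Bool, ∃ c : Bool, Pat (del V v) τ →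
      Pat V (v.insertNth c τ : Fin (n + 1) → Bool) := by
    intro τ
    by_cases hτ : Pat (del V v) τ
    · obtain ⟨c, hc⟩ := exists_pat_of_del h hn1 hτ
      exact ⟨c, fun _ => hc⟩
    · exact ⟨true, fun h' => absurd h' hτ⟩
  choose β hβ using hβ
  let γ : (Fin n → Bool) → Bool := fun τ =>
    if r + 1 ≤ ct true τ ∧ r + 1 ≤ ct false τ then !(β τ) else decide (ct true τ = r)
  let f1 : (Fin n → Bool) → (Fin (n + 1) → Bool) := fun τ => v.insertNth (β τ) τ
  let f2 : (Fin n → Bool) → (Fin (n + 1) → Bool) := fun τ => v.insertNth (γ τ) τ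
  have i1 : ∀ τ τ', f1 τ = f1 τ' → τ = τ' := fun τ τ' h => (insertNth_inj h).2
  have i2 : ∀ τ τ', f2 τ = f2 τ' → τ = τ' := fun τ τ' h => (insertNth_inj h).2
  have hsub1 : (Bs (r + 1) (del V v)).image f1 ⊆ Bs (r + 1) V := by
    intro σ hσ
    obtain ⟨τ, hτ, rfl⟩ := mem_image.1 hσ
    obtain ⟨h1, h2, h3⟩ := mem_Bs.1 hτ
    refine mem_Bs.2 ⟨hβ τ h1, ?_, ?_⟩ <;> simp only [f1, ct_insertNth] <;> omega
  have hsub2 : (Bs r (con V v)).image f2 ⊆ Bs (r + 1) V := by
    intro σ hσ
    obtain ⟨τ, hτ, rfl⟩ := mem_image.1 hσ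
    obtain ⟨h1, h2, h3⟩ := mem_Bs.1 hτ
    have h4 := ct_add τ
    refine mem_Bs.2 ⟨pat_of_con h hn1 h1 _, ?_, ?_⟩
    · simp only [f2, γ, ct_insertNth]
      by_cases h5 : r + 1 ≤ ct true τ ∧ r + 1 ≤ ct false τ
      · omega
      · rw [if_neg h5]
        by_cases h6 : ct true τ = r
        · simp only [h6, decide_true, if_true]; omega
        · simp only [h6, decide_false]; omega
    · simp only [f2, γ, ct_insertNth]
      by_cases h5 : r + 1 ≤ ct true τ ∧ r + 1 ≤ ct false τ
      · omega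
      · rw [if_neg h5]
        by_cases h6 : ct true τ = r
        · simp only [h6, decide_true]; omega
        · simp only [h6, decide_false, if_true]; omega
  have hsub3 : E ⊆ Bs (r + 1) V := fun σ hσ => (hE σ hσ).1
  have d12 : Disjoint ((Bs (r + 1) (del V v)).image f1) ((Bs r (con V v)).image f2) := by
    rw [Finset.disjoint_left]
    rintro σ h1 h2
    obtain ⟨τ, hτ, rfl⟩ := mem_image.1 h1
    obtain ⟨τ', hτ', h3⟩ := mem_image.1 h2
    obtain ⟨h4, h5⟩ := insertNth_inj h3
    subst h5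
    have h6 := mem_Bs.1 hτ
    simp only [γ] at h4
    rw [if_pos ⟨h6.2.1, h6.2.2⟩] at h4
    exact absurd h4 (by simp)
  have d3 : Disjoint (((Bs (r + 1) (del V v)).image f1) ∪ ((Bs r (con V v)).image f2)) E := by
    rw [Finset.disjoint_left]
    rintro σ h1 h2
    rcases mem_union.1 h1 with h1 | h1
    · obtain ⟨τ, hτ, rfl⟩ := mem_image.1 h1
      have h6 := mem_Bs.1 hτ
      exact ((hE _ h2).2 _ τ rfl).2 ⟨h6.2.1, h6.2.2⟩
    · obtain ⟨τ, hτ, rfl⟩ := mem_image.1 h1
      have h6 := mem_Bs.1 hτ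
      exact ((hE _ h2).2 _ τ rfl).1 h6.1
  calc (Bs (r + 1) (del V v)).card + (Bs r (con V v)).card + E.card
      = ((((Bs (r + 1) (del V v)).image f1) ∪ ((Bs r (con V v)).image f2)) ∪ E).card := by
        rw [card_union_of_disjoint d3, card_union_of_disjoint d12,
          card_image_of_injective _ (fun a b => i1 a b),
          card_image_of_injective _ (fun a b => i2 a b)]
    _ ≤ _ := card_le_card (union_subset (union_subset hsub1 hsub2) hsub3)

open Classical in
theorem patSet_split (V : Submodule ℝ (Fin (n + 1) → ℝ)) (v : Fin (n + 1)) :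
    (patSet V).card =
      (univ.filter (fun τ => Pat V (v.insertNth true τ : Fin (n + 1) → Bool))).card +
      (univ.filter (fun τ => Pat V (v.insertNth false τ : Fin (n + 1) → Bool))).card := by
  have e : patSet V =
      (univ.filter (fun τ => Pat V (v.insertNth true τ : Fin (n + 1) → Bool))).image
        (fun τ => (v.insertNth true τ : Fin (n + 1) → Bool)) ∪
      (univ.filter (fun τ => Pat V (v.insertNth false τ : Fin (n + 1) → Bool))).image
        (fun τ => (v.insertNth false τ : Fin (n + 1) → Bool)) := by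
    ext σ
    simp only [mem_patSet, mem_union, mem_image, mem_filter, mem_univ, true_and]
    constructor
    · intro hσ
      have e : (v.insertNth (σ v) (fun i => σ (v.succAbove i)) : Fin (n + 1) → Bool) = σ := by
        funext i
        rcases Fin.eq_self_or_eq_succAbove v i with rfl | ⟨j, rfl⟩ <;> simp
      cases hv : σ v
      · right
        rw [hv] at e
        exact ⟨_, by rw [e]; exact hσ, e⟩
      · left
        rw [hv] at e
        exact ⟨_, by rw [e]; exact hσ, e⟩
    · rintro (⟨τ, h1, rfl⟩ | ⟨τ, h1, rfl⟩) <;> exact h1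
  rw [e, card_union_of_disjoint, card_image_of_injective, card_image_of_injective]
  · intro a b h; exact (insertNth_inj h).2
  · intro a b h; exact (insertNth_inj h).2
  · rw [Finset.disjoint_left]
    rintro σ h1 h2
    obtain ⟨τ, -, rfl⟩ := mem_image.1 h1
    obtain ⟨τ', -, h3⟩ := mem_image.1 h2
    exact absurd (insertNth_inj h3).1 (by simp)

open Classical in
theorem card_pat_le_rec (V : Submodule ℝ (Fin (n + 1) → ℝ)) (v : Fin (n + 1)) :
    (patSet V).card ≤ (patSet (del V v)).card + (patSet (con V v)).card := by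
  rw [patSet_split V v, ← card_union_add_card_inter]
  refine Nat.add_le_add (card_le_card fun τ hτ => ?_) (card_le_card fun τ hτ => ?_)
  · rw [mem_patSet]
    rcases mem_union.1 hτ with h | h
    · exact pat_del_of (mem_filter.1 h).2
    · exact pat_del_of (mem_filter.1 h).2
  · rw [mem_patSet]
    obtain ⟨h1, h2⟩ := mem_inter.1 hτ
    exact pat_con_of (mem_filter.1 h1).2 (mem_filter.1 h2).2

open Classical in
theorem card_pat_ge_rec {V : Submodule ℝ (Fin (n + 1) → ℝ)} {r : ℕ} (h : Uni V r) (hn : 1 ≤ n)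
    (v : Fin (n + 1)) :
    (patSet (del V v)).card + (patSet (con V v)).card ≤ (patSet V).card := by
  rw [patSet_split V v, ← card_union_add_card_inter
    (univ.filter (fun τ => Pat V (v.insertNth true τ : Fin (n + 1) → Bool)))]
  refine Nat.add_le_add (card_le_card fun τ hτ => ?_) (card_le_card fun τ hτ => ?_)
  · obtain ⟨c, hc⟩ := exists_pat_of_del h hn (mem_patSet.1 hτ)
    cases c
    · exact mem_union_right _ (by simpa using hc)
    · exact mem_union_left _ (by simpa using hc)
  · have h1 := pat_of_con h hn (mem_patSet.1 hτ)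
    exact mem_inter.2 ⟨by simpa using h1 true, by simpa using h1 false⟩

theorem pascal_sum (n f : ℕ) : ∑ j ∈ range (f + 1), (n + 1).choose j =
    ∑ j ∈ range (f + 1), n.choose j + ∑ j ∈ range f, n.choose j := by
  induction f with
  | zero => simp
  | succ f ih =>
    rw [sum_range_succ, ih, sum_range_succ (fun j => n.choose j) (f + 1),
      sum_range_succ (fun j => n.choose j) f, Nat.choose_succ_succ]
    ring

theorem finrank_con_lt {V : Submodule ℝ (Fin (n + 1) → ℝ)} {v : Fin (n + 1)}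
    (h : ¬ V ≤ LinearMap.ker (LinearMap.proj v : (Fin (n + 1) → ℝ) →ₗ[ℝ] ℝ)) :
    finrank ℝ (con V v) < finrank ℝ V := by
  have h1 := Submodule.finrank_map_le (LinearMap.funLeft ℝ ℝ v.succAbove)
    (V ⊓ LinearMap.ker (LinearMap.proj v : (Fin (n + 1) → ℝ) →ₗ[ℝ] ℝ))
  have h2 : finrank ℝ (V ⊓ LinearMap.ker (LinearMap.proj v : (Fin (n + 1) → ℝ) →ₗ[ℝ] ℝ) :
      Submodule ℝ (Fin (n + 1) → ℝ)) < finrank ℝ V := by
    apply Submodule.finrank_lt_finrank_of_lt
    exact lt_of_le_of_ne inf_le_left (fun e => h (inf_eq_left.1 e))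
  exact lt_of_le_of_lt h1 h2

theorem card_pat_le : ∀ (n : ℕ) (V : Submodule ℝ (Fin (n + 1) → ℝ)),
    (patSet V).card ≤ 2 * ∑ j ∈ range (finrank ℝ V), n.choose j := by
  intro n
  induction n with
  | zero =>
    intro V
    by_cases hV : V = ⊥
    · subst hV
      have : patSet (⊥ : Submodule ℝ (Fin 1 → ℝ)) = ∅ := by
        ext σ
        simp only [mem_patSet, notMem_empty, iff_false]
        rintro ⟨x, hx, h⟩
        have hx0 : x = 0 := by simpa using hx
        subst hx0
        cases h2 : σ 0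
        · exact absurd ((h 0).2 h2) (by simp)
        · exact absurd ((h 0).1 h2) (by simp)
      rw [this]; simp
    · have h1 : 0 < finrank ℝ V := by
        rw [Nat.pos_iff_ne_zero]
        intro h0
        exact hV (Submodule.finrank_eq_zero.1 h0)
      have h2 : (patSet V).card ≤ 2 := by
        have := card_le_univ (patSet V)
        simpa using this
      have h3 : 1 ≤ ∑ j ∈ range (finrank ℝ V), (0 : ℕ).choose j := by
        have : (0 : ℕ).choose 0 ≤ ∑ j ∈ range (finrank ℝ V), (0 : ℕ).choose j :=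
          single_le_sum (f := fun j => (0 : ℕ).choose j) (fun _ _ => Nat.zero_le _)
            (mem_range.2 h1)
        simpa using this
      omega
  | succ n ih =>
    intro V
    by_cases hV : V ≤ LinearMap.ker (LinearMap.proj 0 : (Fin (n + 1 + 1) → ℝ) →ₗ[ℝ] ℝ)
    · have : patSet V = ∅ := by
        ext σ
        simp only [mem_patSet, notMem_empty, iff_false]
        rintro ⟨x, hx, h⟩
        have hx0 : x 0 = 0 := hV hx
        cases h2 : σ 0
        · exact absurd ((h 0).2 h2) (by simp [hx0])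
        · exact absurd ((h 0).1 h2) (by simp [hx0])
      rw [this]; simp
    · have h1 := finrank_con_lt hV
      have h2 : finrank ℝ (del V 0) ≤ finrank ℝ V := Submodule.finrank_map_le _ _
      obtain ⟨f, hf⟩ : ∃ f, finrank ℝ V = f + 1 := ⟨finrank ℝ V - 1, by omega⟩
      rw [hf, pascal_sum]
      have mono : ∀ a b, a ≤ b → ∑ j ∈ range a, n.choose j ≤ ∑ j ∈ range b, n.choose j :=
        fun a b hab => sum_le_sum_of_subset (range_subset_range.2 hab)
      have h3 := card_pat_le_rec V 0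
      have h4 := ih (del V 0)
      have h5 := ih (con V 0)
      have h6 := mono _ _ (hf ▸ h2)
      have h7 := mono (finrank ℝ (con V 0)) f (by omega)
      omega

theorem card_pat_ge : ∀ (n : ℕ) (V : Submodule ℝ (Fin (n + 1) → ℝ)) (r : ℕ), Uni V r →
    2 * ∑ j ∈ range r, n.choose j ≤ (patSet V).card := by
  intro n
  induction n with
  | zero =>
    intro V r h
    have hr : r ≤ 1 := h.le
    rcases Nat.eq_zero_or_pos r with rfl | hr0
    · simp
    · have hr1 : r = 1 := by omega
      subst hr1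
      have : patSet V = univ := by
        ext σ
        simp only [mem_patSet, mem_univ, iff_true]
        obtain ⟨x, hx, hx1⟩ := interp h univ (by simp) (fun i => if σ i = true then 1 else -1)
        refine ⟨x, hx, fun i => ?_⟩
        rw [hx1 i (mem_univ _)]
        cases σ i <;> simp
      rw [this]; simp
  | succ n ih =>
    intro V r h
    rcases Nat.eq_zero_or_pos r with rfl | hr0
    · simp
    obtain ⟨f, rfl⟩ : ∃ f, r = f + 1 := ⟨r - 1, by omega⟩
    rcases Nat.lt_or_ge n f with hlt | hge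
    · -- `r = n + 2`
      have hf : f = n + 1 := by have := h.le; omega
      subst hf
      have : patSet V = univ := by
        ext σ
        simp only [mem_patSet, mem_univ, iff_true]
        obtain ⟨x, hx, hx1⟩ := interp h univ (by simp) (fun i => if σ i = true then 1 else -1)
        refine ⟨x, hx, fun i => ?_⟩
        rw [hx1 i (mem_univ _)]
        cases σ i <;> simp
      rw [this, Nat.sum_range_choose]
      simp [pow_succ]; omega
    · rw [pascal_sum]
      have h3 := card_pat_ge_rec h (by omega) 0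
      have h4 := ih (del V 0) (f + 1) (h.del (by omega) 0)
      have h5 := ih (con V 0) f (h.con 0)
      omega

theorem card_pat_eq (V : Submodule ℝ (Fin (n + 1) → ℝ)) {r : ℕ} (h : Uni V r) :
    (patSet V).card = 2 * ∑ j ∈ range r, n.choose j := by
  refine le_antisymm ?_ (card_pat_ge n V r h)
  have := card_pat_le n V
  rwa [h.finrank_eq] at this

end Pool.Agent.Helper34.RP
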