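import Pool.Agent.Helper34.RP.Two
import Pool.Agent.Helper34.RP.Defs

/-!
Radon partitions of a point configuration and sign patterns of its space of affine dependences.
-/

set_option autoImplicit false

open Finset Module

namespace Pool.Agent.Helper34.RP

variable {d N : ℕ}

open Classical in
/-- the dimension of an affine subspace -/
noncomputable def affDim (P : AffineSubspace ℝ (E d)) : ℤ :=
  if P = ⊥ then -1 else (finrank ℝ P.direction : ℤ)

theorem setDim_coe (P : AffineSubspace ℝ (E d)) : setDim (P : Set (E d)) = affDim P := by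
  rw [setDim, affDim, spanDim, AffineSubspace.direction_eq_vectorSpan]
  by_cases h : P = ⊥
  · rw [if_pos h, if_pos (by rw [h]; simp)]
  · rw [if_neg h, if_neg (by
      rw [AffineSubspace.coe_eq_bot_iff]; exact h)]

theorem iInter_affHull (F : Finset (Finset (E d))) : (⋂ A ∈ F, affHull A) =
    ((⨅ A ∈ F, affineSpan ℝ (A : Set (E d)) : AffineSubspace ℝ (E d)) : Set (E d)) := by
  simp [affHull, AffineSubspace.coe_iInf]

theorem le_setDim_iff {X : Set (E d)} {k : ℕ} :
    (k : ℤ) ≤ setDim X ↔ X.Nonempty ∧ k ≤ finrank ℝ (affineSpan ℝ X).direction := by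
  rw [setDim, spanDim, direction_affineSpan]
  by_cases h : X = ∅
  · rw [if_pos h]
    constructor
    · intro h2; exact absurd h2 (by omega)
    · rintro ⟨h2, -⟩; exact absurd h h2.ne_empty
  · rw [if_neg h]
    constructor
    · intro h2; exact ⟨Set.nonempty_iff_ne_empty.2 h, by exact_mod_cast h2⟩
    · rintro ⟨-, h2⟩; exact_mod_cast h2

/-- the affine dependences -/
def depMap (s : Fin N → E d) : (Fin N → ℝ) →ₗ[ℝ] ℝ × E d :=
  { toFun := fun x => (∑ i, x i, ∑ i, x i • s i)
    map_add' := fun x y => by
      simp [sum_add_distrib, add_smul]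
    map_smul' := fun c x => by
      simp [mul_sum, smul_sum, mul_smul] }

/-- the space of affine dependences -/
def dep (s : Fin N → E d) : Submodule ℝ (Fin N → ℝ) := LinearMap.ker (depMap s)

theorem mem_dep {s : Fin N → E d} {x : Fin N → ℝ} :
    x ∈ dep s ↔ ∑ i, x i = 0 ∧ ∑ i, x i • s i = 0 := by
  rw [dep, LinearMap.mem_ker]
  simp [depMap, Prod.ext_iff]

/-- general position -/
def GP (s : Fin N → E d) : Prop :=
  ∀ x ∈ dep s, (univ.filter (fun i => x i ≠ 0)).card ≤ d + 1 → x = 0

theorem zc_add (x : Fin N → ℝ) : zc x + (univ.filter (fun i => x i ≠ 0)).card = N := by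
  rw [zc_card]
  have := card_filter_add_card_filter_not (s := (univ : Finset (Fin N))) (fun i => x i = 0)
  simpa using this

theorem GP.uni {s : Fin N → E d} (h : GP s) {r : ℕ} (hN : N = r + d + 1) : Uni (dep s) r := by
  constructor
  · have h1 := LinearMap.finrank_range_add_finrank_ker (depMap s)
    have h2 := Submodule.finrank_le (LinearMap.range (depMap s))
    rw [finrank_prod, finrank_self, finrank_euclideanSpace_fin] at h2
    rw [finrank_fin_fun] at h1
    change r ≤ finrank ℝ (LinearMap.ker (depMap s))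
    omega
  · intro x hx hx0
    by_contra hc
    push Not at hc
    have := zc_add x
    exact hx0 (h x hx (by omega))

theorem dep_tc (s : Fin N → E d) : TC (dep s) :=
  tc_of_pos (fun _ => 1) (fun _ => one_pos) (fun x hx => by
    have := (mem_dep.1 hx).1
    simpa using this)

open Classical in
/-- the part of a pattern -/
noncomputable def pt (s : Fin N → E d) (σ : Fin N → Bool) (b : Bool) : Finset (E d) :=
  (univ.filter (fun i => σ i = b)).image s

theorem mem_pt {s : Fin N → E d} {σ : Fin N → Bool} {b : Bool} {x : E d} :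
    x ∈ pt s σ b ↔ ∃ i, σ i = b ∧ s i = x := by
  simp [pt]

theorem mem_pt_self {s : Fin N → E d} (hs : Function.Injective s) {σ : Fin N → Bool} {b : Bool}
    {i : Fin N} : s i ∈ pt s σ b ↔ σ i = b := by
  rw [mem_pt]
  constructor
  · rintro ⟨j, h1, h2⟩; rw [← hs h2]; exact h1
  · intro h; exact ⟨i, h, rfl⟩

theorem card_pt {s : Fin N → E d} (hs : Function.Injective s) (σ : Fin N → Bool) (b : Bool) :
    (pt s σ b).card = ct b σ := by
  rw [pt, card_image_of_injective _ hs, card_filter, ct]

theorem conv_mem {s : Fin N → E d} {σ : Fin N → Bool} {b : Bool} {w : Fin N → ℝ}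
    (h0 : ∀ i, σ i = b → 0 ≤ w i) (h1 : ∑ i ∈ univ.filter (fun i => σ i = b), w i = 1) :
    ∑ i ∈ univ.filter (fun i => σ i = b), w i • s i ∈ convexHull ℝ (pt s σ b : Set (E d)) := by
  refine (convex_convexHull ℝ _).sum_mem (fun i hi => h0 i (mem_filter.1 hi).2) h1
    (fun i hi => subset_convexHull ℝ _ ?_)
  rw [mem_coe, mem_pt]
  exact ⟨i, (mem_filter.1 hi).2, rfl⟩

theorem sum_split (σ : Fin N → Bool) {M : Type*} [AddCommMonoid M] (f : Fin N → M) :
    ∑ i ∈ univ.filter (fun i => σ i = true), f i + ∑ i ∈ univ.filter (fun i => σ i = false), f i =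
      ∑ i, f i := by
  rw [← sum_filter_add_sum_filter_not univ (fun i => σ i = true) f]
  congr 1
  refine sum_congr ?_ fun _ _ => rfl
  ext i; simp

/-- the intersection of the two hulls has dimension at least `k` -/
theorem dim_inter {s : Fin N → E d} (hGP : GP s) {k : ℕ} (hN : N = d + k + 2)
    {σ : Fin N → Bool} (hσ : Pat (dep s) σ) (h1 : 1 ≤ ct true σ)
    (ht : ct true σ ≤ d + 1) (hf : ct false σ ≤ d + 1) :
    (convexHull ℝ (pt s σ true : Set (E d)) ∩ convexHull ℝ (pt s σ false : Set (E d))).Nonempty ∧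
    k ≤ finrank ℝ (affineSpan ℝ (convexHull ℝ (pt s σ true : Set (E d)) ∩
      convexHull ℝ (pt s σ false : Set (E d)))).direction := by
  set C := convexHull ℝ (pt s σ true : Set (E d)) ∩ convexHull ℝ (pt s σ false : Set (E d))
    with hC
  -- the map
  let T : (Fin N → ℝ) →ₗ[ℝ] E d :=
    { toFun := fun x => ∑ i ∈ univ.filter (fun i => σ i = true), x i • s i
      map_add' := fun x y => by simp [sum_add_distrib, add_smul]
      map_smul' := fun c x => by simp [smul_sum, mul_smul] }
  let φ : (Fin N → ℝ) →ₗ[ℝ] ℝ :=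
    { toFun := fun x => ∑ i ∈ univ.filter (fun i => σ i = true), x i
      map_add' := fun x y => by simp [sum_add_distrib]
      map_smul' := fun c x => by simp [mul_sum] }
  have hTC : ∀ y ∈ dep s, Wk y σ → φ y = 1 → T y ∈ C := by
    intro y hy hw hφ
    obtain ⟨e1, e2⟩ := mem_dep.1 hy
    refine ⟨conv_mem (fun i hi => (hw i).1 hi) hφ, ?_⟩
    have h3 : ∑ i ∈ univ.filter (fun i => σ i = false), (-y i) = 1 := by
      have := sum_split σ y
      rw [e1] at this
      have hφ' : ∑ i ∈ univ.filter (fun i => σ i = true), y i = 1 := hφ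
      rw [hφ'] at this
      rw [sum_neg_distrib]; linarith
    have h4 : T y = ∑ i ∈ univ.filter (fun i => σ i = false), (-y i) • s i := by
      have := sum_split σ (fun i => y i • s i)
      rw [e2] at this
      simp only [neg_smul, sum_neg_distrib]
      exact eq_neg_of_add_eq_zero_left this
    rw [h4]
    exact conv_mem (fun i hi => by have := (hw i).2 hi; linarith) h3
  obtain ⟨x, hx, hxs⟩ := hσ
  have hφx : 0 < φ x := by
    have hne : (univ.filter (fun i => σ i = true)).Nonempty := by
      rw [← card_pos, card_filter]; exact h1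
    exact sum_pos (fun i hi => (hxs i).1 (mem_filter.1 hi).2) hne
  set x' := (φ x)⁻¹ • x with hx'
  have hx'V : x' ∈ dep s := (dep s).smul_mem _ hx
  have hx'φ : φ x' = 1 := by rw [hx', map_smul, smul_eq_mul, inv_mul_cancel₀ hφx.ne']
  have hx's : ∀ i, (σ i = true → 0 < x' i) ∧ (σ i = false → x' i < 0) := by
    intro i
    simp only [hx', Pi.smul_apply, smul_eq_mul]
    exact ⟨fun hi => mul_pos (inv_pos.2 hφx) ((hxs i).1 hi),
      fun hi => mul_neg_of_pos_of_neg (inv_pos.2 hφx) ((hxs i).2 hi)⟩
  have hp : T x' ∈ C := hTC x' hx'V (fun i => ⟨fun hi => ((hx's i).1 hi).le,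
    fun hi => ((hx's i).2 hi).le⟩) hx'φ
  refine ⟨⟨_, hp⟩, ?_⟩
  -- the space
  let W := LinearMap.ker (φ.domRestrict (dep s))
  have hW : k ≤ finrank ℝ W := by
    have e1 := LinearMap.finrank_range_add_finrank_ker (φ.domRestrict (dep s))
    have e2 := Submodule.finrank_le (LinearMap.range (φ.domRestrict (dep s)))
    rw [finrank_self] at e2
    have e3 := (hGP.uni (r := k + 1) (by omega)).dim
    change k ≤ finrank ℝ (LinearMap.ker (φ.domRestrict (dep s)))
    omega
  have hdir : ∀ w : W, T ((w : dep s) : Fin N → ℝ) ∈ (affineSpan ℝ C).direction := by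
    intro w
    have hw1 : ((w : dep s) : Fin N → ℝ) ∈ dep s := (w : dep s).2
    have hw2 : φ ((w : dep s) : Fin N → ℝ) = 0 := w.2
    set y : Fin N → ℝ := ((w : dep s) : Fin N → ℝ) with hy
    have key : ∀ i, ∀ᶠ ε in nhdsWithin (0 : ℝ) (Set.Ioi 0),
        (σ i = true → 0 < x' i + ε * y i) ∧ (σ i = false → x' i + ε * y i < 0) := by
      intro i
      have hc : Filter.Tendsto (fun ε : ℝ => x' i + ε * y i) (nhdsWithin (0 : ℝ) (Set.Ioi 0))
          (nhds (x' i)) := by
        have : Continuous (fun ε : ℝ => x' i + ε * y i) := by fun_prop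
        have h2 := this.tendsto 0
        simp only [zero_mul, add_zero] at h2
        exact h2.mono_left nhdsWithin_le_nhds
      cases hs : σ i
      · filter_upwards [hc.eventually (gt_mem_nhds ((hx's i).2 hs))] with ε hε
        exact ⟨fun h => absurd h (by simp), fun _ => hε⟩
      · filter_upwards [hc.eventually (lt_mem_nhds ((hx's i).1 hs))] with ε hε
        exact ⟨fun _ => hε, fun h => absurd h (by simp)⟩
    obtain ⟨ε, hε, hε0⟩ := ((Filter.eventually_all.2 key).and self_mem_nhdsWithin).exists
    have hε0' : 0 < ε := hε0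
    have h5 : T (x' + ε • y) ∈ C := by
      refine hTC _ ((dep s).add_mem hx'V ((dep s).smul_mem _ hw1)) (fun i => ?_) ?_
      · have := hε i
        simp only [Pi.add_apply, Pi.smul_apply, smul_eq_mul]
        exact ⟨fun hi => (this.1 hi).le, fun hi => (this.2 hi).le⟩
      · have e7 : φ (x' + ε • y) = φ x' + ε * φ y := by
          rw [φ.map_add x' (ε • y), φ.map_smul ε y, smul_eq_mul]
        rw [e7, hw2, hx'φ]; simp
    have h6 : T (x' + ε • y) -ᵥ T x' ∈ (affineSpan ℝ C).direction :=
      AffineSubspace.vsub_mem_direction (subset_affineSpan ℝ C h5) (subset_affineSpan ℝ C hp)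
    have e8 : T (x' + ε • y) = T x' + ε • T y := by
      rw [T.map_add x' (ε • y), T.map_smul ε y]
    rw [e8, vsub_eq_sub, add_sub_cancel_left] at h6
    have := (affineSpan ℝ C).direction.smul_mem ε⁻¹ h6
    rwa [smul_smul, inv_mul_cancel₀ hε0'.ne', one_smul] at this
  let Ψ : W →ₗ[ℝ] (affineSpan ℝ C).direction :=
    LinearMap.codRestrict _ (T.comp ((dep s).subtype.comp W.subtype)) (fun w => hdir w)
  have hinj' : ∀ y ∈ dep s, φ y = 0 → T y = 0 → y = 0 := by
    intro y hw1 hw2' hw3'
    have hw2 : ∑ i ∈ univ.filter (fun i => σ i = true), y i = 0 := hw2'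
    have hw3 : ∑ i ∈ univ.filter (fun i => σ i = true), y i • s i = 0 := hw3'
    obtain ⟨e1, e2⟩ := mem_dep.1 hw1
    have hw4 : ∑ i ∈ univ.filter (fun i => σ i = false), y i = 0 := by
      have := sum_split σ y
      rw [e1, hw2, zero_add] at this; exact this
    have hw5 : ∑ i ∈ univ.filter (fun i => σ i = false), y i • s i = 0 := by
      have := sum_split σ (fun i => y i • s i)
      rw [e2, hw3, zero_add] at this; exact this
    have gen : ∀ b, ct b σ ≤ d + 1 → ∑ i ∈ univ.filter (fun i => σ i = b), y i = 0 →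
        ∑ i ∈ univ.filter (fun i => σ i = b), y i • s i = 0 →
        ∀ i, σ i = b → y i = 0 := by
      intro b hb h1 h2 i hi
      have h3 : (fun i => if σ i = b then y i else 0) = 0 := by
        refine hGP _ (mem_dep.2 ⟨?_, ?_⟩) ?_
        · rw [← sum_filter]; exact h1
        · simp only [ite_smul, zero_smul]
          rw [← sum_filter]; exact h2
        · refine le_trans (card_le_card ?_) (show (univ.filter (fun i => σ i = b)).card ≤ d + 1
            by rw [card_filter]; exact hb)
          intro j hj
          simp only [mem_filter, mem_univ, true_and] at hj ⊢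
          by_contra hc
          exact hj (if_neg hc)
      have := congrFun h3 i
      simpa [hi] using this
    funext i
    cases hs : σ i
    · exact gen false hf hw4 hw5 i hs
    · exact gen true ht hw2 hw3 i hs
  have hinj : Function.Injective Ψ := by
    intro w w' hww
    have h7 : T ((w : dep s) : Fin N → ℝ) = T ((w' : dep s) : Fin N → ℝ) :=
      congrArg Subtype.val hww
    have hw2 : φ ((w : dep s) : Fin N → ℝ) = 0 := w.2
    have hw2' : φ ((w' : dep s) : Fin N → ℝ) = 0 := w'.2
    have h8 := hinj' (((w : dep s) : Fin N → ℝ) - ((w' : dep s) : Fin N → ℝ))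
      ((dep s).sub_mem (w : dep s).2 (w' : dep s).2)
      (by rw [φ.map_sub, hw2, hw2', sub_zero]) (by rw [T.map_sub, h7, sub_self])
    exact Subtype.ext (Subtype.ext (sub_eq_zero.1 h8))
  exact hW.trans (LinearMap.finrank_le_finrank_of_injective hinj)

open Classical in
/-- the partition of a pattern -/
noncomputable def prt (s : Fin N → E d) (σ : Fin N → Bool) : Finset (Finset (E d)) :=
  {pt s σ true, pt s σ false}

theorem pt_disj {s : Fin N → E d} (hs : Function.Injective s) (σ : Fin N → Bool) :
    Disjoint (pt s σ true) (pt s σ false) := by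
  rw [Finset.disjoint_left]
  intro x h1 h2
  obtain ⟨i, hi, rfl⟩ := mem_pt.1 h1
  rw [mem_pt_self hs] at h2
  rw [hi] at h2
  exact absurd h2 (by simp)

open Classical in
theorem isPartition_prt {s : Fin N → E d} (hs : Function.Injective s) (hGP : GP s) {k : ℕ}
    (hN : N = d + k + 2) {σ : Fin N → Bool} (hσ : σ ∈ Bs (k + 1) (dep s)) :
    IsPartition (univ.image s) 2 k (prt s σ) := by
  obtain ⟨h1, h2, h3⟩ := mem_Bs.1 hσ
  have h4 := ct_add σ
  have hne : pt s σ true ≠ pt s σ false := by
    intro e
    have h5 := pt_disj hs σ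
    rw [← e, disjoint_self] at h5
    have := card_pt hs σ true
    rw [h5] at this
    simp at this
    omega
  refine ⟨by rw [prt, card_pair hne], ?_, ?_, ?_⟩
  · intro A hA B hB hAB
    simp only [prt, mem_insert, mem_singleton] at hA hB
    rcases hA with rfl | rfl <;> rcases hB with rfl | rfl
    · exact absurd rfl hAB
    · exact pt_disj hs σ
    · exact (pt_disj hs σ).symm
    · exact absurd rfl hAB
  · intro x
    simp only [prt, mem_image, mem_univ, true_and, mem_insert, mem_singleton, exists_eq_or_imp,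
      exists_eq_left, mem_pt]
    constructor
    · rintro ⟨i, rfl⟩
      cases hi : σ i
      · exact Or.inr ⟨i, hi, rfl⟩
      · exact Or.inl ⟨i, hi, rfl⟩
    · rintro (⟨i, -, rfl⟩ | ⟨i, -, rfl⟩) <;> exact ⟨i, rfl⟩
  · have e : (⋂ A ∈ prt s σ, hull A) =
        convexHull ℝ (pt s σ true : Set (E d)) ∩ convexHull ℝ (pt s σ false : Set (E d)) := by
      simp [prt, hull]
    rw [e, le_setDim_iff]
    exact dim_inter hGP hN h1 (by omega) (by omega) (by omega)

open Classical in
theorem exists_prt {s : Fin N → E d} (hs : Function.Injective s) (hGP : GP s) {k : ℕ}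
    (hN : N = d + k + 2) {P : Finset (Finset (E d))} (hP : IsPartition (univ.image s) 2 k P) :
    ∃ σ ∈ Bs (k + 1) (dep s), prt s σ = P := by
  obtain ⟨h1, h2, h3, h4⟩ := hP
  obtain ⟨A, B, hAB, rfl⟩ := card_eq_two.1 h1
  have hdis : Disjoint A B := h2 A (by simp) B (by simp) hAB
  have hcov : ∀ i, s i ∈ A ∨ s i ∈ B := by
    intro i
    have := (h3 (s i)).1 (mem_image_of_mem _ (mem_univ i))
    simpa using this
  have hA : ∀ x ∈ A, ∃ i, s i = x := by
    intro x hx
    have := (h3 x).2 ⟨A, by simp, hx⟩
    simpa using this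
  have hB : ∀ x ∈ B, ∃ i, s i = x := by
    intro x hx
    have := (h3 x).2 ⟨B, by simp, hx⟩
    simpa using this
  have e : (⋂ C ∈ ({A, B} : Finset (Finset (E d))), hull C) =
      convexHull ℝ (A : Set (E d)) ∩ convexHull ℝ (B : Set (E d)) := by
    simp [hull]
  rw [e, le_setDim_iff] at h4
  obtain ⟨⟨p, hpA, hpB⟩, hdim⟩ := h4
  let σ : Fin N → Bool := fun i => decide (s i ∈ A)
  have hσA : pt s σ true = A := by
    ext x
    rw [mem_pt]
    constructor
    · rintro ⟨i, hi, rfl⟩; simpa [σ] using hi
    · intro hx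
      obtain ⟨i, rfl⟩ := hA x hx
      exact ⟨i, by simpa [σ] using hx, rfl⟩
  have hσB : pt s σ false = B := by
    ext x
    rw [mem_pt]
    constructor
    · rintro ⟨i, hi, rfl⟩
      rcases hcov i with h5 | h5
      · exact absurd h5 (by simpa [σ] using hi)
      · exact h5
    · intro hx
      obtain ⟨i, rfl⟩ := hB x hx
      refine ⟨i, ?_, rfl⟩
      have : s i ∉ A := fun h5 => Finset.disjoint_left.1 hdis h5 hx
      simpa [σ] using this
  have hsize : ∀ C : Finset (E d), convexHull ℝ (A : Set (E d)) ∩ convexHull ℝ (B : Set (E d)) ⊆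
      convexHull ℝ (C : Set (E d)) → k + 1 ≤ C.card := by
    intro C hC
    have h5 : finrank ℝ (affineSpan ℝ (convexHull ℝ (A : Set (E d)) ∩
        convexHull ℝ (B : Set (E d)))).direction ≤ finrank ℝ (vectorSpan ℝ (C : Set (E d))) := by
      rw [← direction_affineSpan, ← affineSpan_convexHull (C : Set (E d))]
      exact Submodule.finrank_mono (AffineSubspace.direction_le (affineSpan_mono ℝ hC))
    have hCne : C.Nonempty := by
      rw [nonempty_iff_ne_empty]
      rintro rfl
      have := hC ⟨hpA, hpB⟩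
      simp at this
    have h6 := finrank_vectorSpan_image_finset_le ℝ (id : E d → E d) C
      (n := C.card - 1) (by have := hCne.card_pos; omega)
    rw [image_id] at h6
    have := hCne.card_pos
    omega
  have hcA : k + 1 ≤ ct true σ := by
    rw [← card_pt hs, hσA]; exact hsize A Set.inter_subset_left
  have hcB : k + 1 ≤ ct false σ := by
    rw [← card_pt hs, hσB]; exact hsize B Set.inter_subset_right
  obtain ⟨a, ha0, ha1, ha2⟩ := Finset.mem_convexHull'.1 hpA
  obtain ⟨b, hb0, hb1, hb2⟩ := Finset.mem_convexHull'.1 hpB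
  let x : Fin N → ℝ := fun i => if σ i = true then a (s i) else -b (s i)
  have sumA : ∀ {M : Type} [AddCommMonoid M] (f : E d → M),
      ∑ i ∈ univ.filter (fun i => σ i = true), f (s i) = ∑ y ∈ A, f y := by
    intro M _ f
    rw [← hσA, pt, sum_image (fun i _ j _ h => hs h)]
  have sumB : ∀ {M : Type} [AddCommMonoid M] (f : E d → M),
      ∑ i ∈ univ.filter (fun i => σ i = false), f (s i) = ∑ y ∈ B, f y := by
    intro M _ f
    rw [← hσB, pt, sum_image (fun i _ j _ h => hs h)]
  have xA : ∀ i ∈ univ.filter (fun i => σ i = true), x i = a (s i) := by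
    intro i hi
    simp only [x, (mem_filter.1 hi).2, if_true]
  have xB : ∀ i ∈ univ.filter (fun i => σ i = false), x i = -b (s i) := by
    intro i hi
    simp only [x, (mem_filter.1 hi).2, Bool.false_eq_true, if_false]
  have hx : x ∈ dep s := by
    refine mem_dep.2 ⟨?_, ?_⟩
    · rw [← sum_split σ, sum_congr rfl xA, sum_congr rfl xB, sumA a, sumB (fun y => -b y),
        sum_neg_distrib, ha1, hb1]; ring
    · rw [← sum_split σ, sum_congr rfl (fun i hi => by rw [xA i hi]),
        sum_congr rfl (fun i (hi : i ∈ univ.filter (fun i => σ i = false)) => by rw [xB i hi]),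
        sumA (fun y => a y • y), sumB (fun y => (-b y) • y)]
      simp only [neg_smul, sum_neg_distrib]
      rw [ha2, hb2]; simp
  have hx0 : x ≠ 0 := by
    intro h0
    have : ∑ i ∈ univ.filter (fun i => σ i = true), x i = 1 := by
      rw [sum_congr rfl xA, sumA a, ha1]
    rw [h0] at this
    simp at this
  have hw : Wk x σ := by
    intro i
    constructor
    · intro hi
      rw [xA i (by simp [hi])]
      exact ha0 _ (by simpa [σ] using hi)
    · intro hi
      rw [xB i (by simp [hi])]
      have : s i ∈ B := by rw [← hσB, mem_pt_self hs]; exact hi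
      have := hb0 _ this
      linarith
  exact ⟨σ, mem_Bs.2 ⟨pat_of_wk (hGP.uni (r := k + 1) (by omega)) hx hx0 hw, hcA, hcB⟩, by
    rw [prt, hσA, hσB]⟩

theorem pt_inj {s : Fin N → E d} (hs : Function.Injective s) {σ τ : Fin N → Bool} {b c : Bool}
    (h : pt s σ b = pt s τ c) (i : Fin N) : σ i = b ↔ τ i = c := by
  rw [← mem_pt_self hs (σ := σ), h, mem_pt_self hs]

open Classical in
theorem prt_eq {s : Fin N → E d} (hs : Function.Injective s) {σ τ : Fin N → Bool}
    (h : prt s τ = prt s σ) : τ = σ ∨ τ = fun i => !(σ i) := by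
  have h1 : pt s τ true ∈ prt s σ := by rw [← h]; simp [prt]
  simp only [prt, mem_insert, mem_singleton] at h1
  rcases h1 with h1 | h1
  · left
    funext i
    have := pt_inj hs h1 i
    cases h2 : σ i <;> cases h3 : τ i <;> simp_all
  · right
    funext i
    have := pt_inj hs h1 i
    cases h2 : σ i <;> cases h3 : τ i <;> simp_all

theorem prt_not {s : Fin N → E d} (σ : Fin N → Bool) :
    prt s (fun i => !(σ i)) = prt s σ := by
  classical
  have h1 : pt s (fun i => !(σ i)) true = pt s σ false := by
    ext x; simp [mem_pt]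
  have h2 : pt s (fun i => !(σ i)) false = pt s σ true := by
    ext x; simp [mem_pt]
  rw [prt, prt, h1, h2, pair_comm]

open Classical in
/-- the number of `(2,k)`-partitions -/
theorem numPartitions_eq {s : Fin N → E d} (hs : Function.Injective s) (hGP : GP s) {k : ℕ}
    (hN : N = d + k + 2) :
    2 * numPartitions (univ.image s) 2 k = (Bs (k + 1) (dep s)).card := by
  have h1 : {P : Finset (Finset (E d)) | IsPartition (univ.image s) 2 k P} =
      (((Bs (k + 1) (dep s)).image (prt s) : Finset (Finset (Finset (E d)))) :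
        Set (Finset (Finset (E d)))) := by
    ext P
    rw [Set.mem_ofPred_eq, mem_coe, mem_image]
    constructor
    · intro hP
      obtain ⟨σ, h1, h2⟩ := exists_prt hs hGP hN hP
      exact ⟨σ, h1, h2⟩
    · rintro ⟨σ, h1, rfl⟩
      exact isPartition_prt hs hGP hN h1
  rw [numPartitions, h1, Set.ncard_coe_finset, card_eq_sum_card_image (prt s) (Bs (k + 1) (dep s)),
    sum_const_nat (m := 2), mul_comm]
  intro P hP
  obtain ⟨σ, hσ, rfl⟩ := mem_image.1 hP
  have hne : σ ≠ fun i => !(σ i) := by
    intro e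
    have := congrFun e ⟨0, by omega⟩
    simp at this
  have : (Bs (k + 1) (dep s)).filter (fun τ => prt s τ = prt s σ) = {σ, fun i => !(σ i)} := by
    ext τ
    simp only [mem_filter, mem_insert, mem_singleton]
    constructor
    · rintro ⟨-, h⟩; exact prt_eq hs h
    · rintro (rfl | rfl)
      · exact ⟨hσ, rfl⟩
      · refine ⟨?_, prt_not σ⟩
        obtain ⟨h2, h3, h4⟩ := mem_Bs.1 hσ
        exact mem_Bs.2 ⟨pat_not h2, by rw [ct_not]; exact h4, by rw [ct_not]; exact h3⟩
  rw [this, card_pair hne]

end Pool.Agent.Helper34.RP
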