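import Pool.Agent.Helper34.RP.Prim

/-!
Strongly independent sets exist, with the points in prescribed open sets.
-/

set_option autoImplicit false

open Finset Module

namespace Pool.Agent.Helper34.RP

variable {d : ℕ}

/-- lift to the affine chart -/
def lft (x : E d) : ℝ × E d := (1, x)

/-- the linear span of the lifts -/
noncomputable def L (A : Finset (E d)) : Submodule ℝ (ℝ × E d) :=
  Submodule.span ℝ (lft '' (A : Set (E d)))

/-- the hyperplane at infinity or everything -/
noncomputable def Hs (b : Bool) : Submodule ℝ (ℝ × E d) :=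
  if b = true then LinearMap.range (LinearMap.inr ℝ ℝ (E d)) else ⊤

theorem Hs_true : (Hs true : Submodule ℝ (ℝ × E d)) = LinearMap.range (LinearMap.inr ℝ ℝ (E d)) :=
  if_pos rfl

theorem Hs_false : (Hs false : Submodule ℝ (ℝ × E d)) = ⊤ := if_neg (by simp)

theorem finrank_Hs (b : Bool) : finrank ℝ (Hs b : Submodule ℝ (ℝ × E d)) =
    d + 1 - (if b = true then 1 else 0) := by
  cases b
  · rw [Hs_false, finrank_top, finrank_prod, finrank_self, finrank_euclideanSpace_fin]
    simp; omega
  · rw [Hs_true, LinearMap.finrank_range_of_inj LinearMap.inr_injective]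
    simp

/-- linear version of strong independence -/
def SI' (T : Finset (E d)) : Prop :=
  ∀ F : Finset (Finset (E d)), (∀ A ∈ F, A ⊆ T ∧ A.card ≤ d + 1) →
    (∀ A ∈ F, ∀ B ∈ F, A ≠ B → Disjoint A B) → ∀ b : Bool,
    finrank ℝ (F.inf L ⊓ Hs b : Submodule ℝ (ℝ × E d)) =
      d + 1 - (∑ A ∈ F, (d + 1 - A.card) + (if b = true then 1 else 0))

theorem L_empty : L (∅ : Finset (E d)) = ⊥ := by simp [L]

theorem SI'_empty : SI' (∅ : Finset (E d)) := by
  intro F hF _ b
  by_cases hne : ∅ ∈ F
  · have h1 : F.inf L ⊓ Hs b = (⊥ : Submodule ℝ (ℝ × E d)) := by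
      rw [eq_bot_iff]
      exact inf_le_left.trans ((inf_le hne).trans (by rw [L_empty]))
    rw [h1, finrank_bot]
    have h2 : d + 1 - (∅ : Finset (E d)).card ≤ ∑ A ∈ F, (d + 1 - A.card) :=
      single_le_sum (f := fun A : Finset (E d) => d + 1 - A.card) (fun _ _ => Nat.zero_le _) hne
    rw [card_empty] at h2
    omega
  · have : F = ∅ := by
      rw [eq_empty_iff_forall_notMem]
      intro A hA
      have := (hF A hA).1
      rw [subset_empty] at this
      exact hne (this ▸ hA)
    rw [this, inf_empty, top_inf_eq, sum_empty, zero_add]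
    exact finrank_Hs b

open Classical in
/-- bad subspaces -/
noncomputable def Bad (T : Finset (E d)) : Finset (Submodule ℝ (ℝ × E d)) :=
  (T.powerset ×ˢ (T.powerset.powerset ×ˢ (univ : Finset Bool))).image
    (fun p => L p.1 ⊔ (p.2.1.inf L ⊓ Hs p.2.2))

theorem mem_Bad {T : Finset (E d)} {A : Finset (E d)} {F : Finset (Finset (E d))} (b : Bool)
    (hA : A ⊆ T) (hF : ∀ B ∈ F, B ⊆ T) : L A ⊔ (F.inf L ⊓ Hs b) ∈ Bad T := by
  classical
  rw [Bad, mem_image]
  refine ⟨(A, (F, b)), ?_, rfl⟩
  simp only [mem_product, mem_powerset, mem_univ, and_true]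
  exact ⟨hA, fun B hB => mem_powerset.2 (hF B hB)⟩

theorem SI'_insert {T : Finset (E d)} (hT : SI' T) {x : E d} [DecidableEq (E d)]
    (hx : ∀ P ∈ Bad T, P ≠ ⊤ → lft x ∉ P) : SI' (insert x T) := by
  intro F hF hdis b
  by_cases hxF : ∃ A ∈ F, x ∈ A
  swap
  · push Not at hxF
    refine hT F (fun A hA => ⟨fun y hy => ?_, (hF A hA).2⟩) hdis b
    rcases mem_insert.1 ((hF A hA).1 hy) with rfl | h
    · exact absurd hy (hxF A hA)
    · exact h
  obtain ⟨A0, hA0, hxA0⟩ := hxF
  set A := A0.erase x with hA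
  have hAT : A ⊆ T := by
    intro y hy
    rcases mem_insert.1 ((hF A0 hA0).1 (mem_of_mem_erase hy)) with rfl | h
    · exact absurd rfl (ne_of_mem_erase hy)
    · exact h
  have hAcard : A0.card = A.card + 1 := by
    rw [hA, card_erase_of_mem hxA0]
    have := card_pos.2 ⟨x, hxA0⟩
    omega
  have hA0c := (hF A0 hA0).2
  set F0 := F.erase A0 with hF0
  have hF0T : ∀ B ∈ F0, B ⊆ T ∧ B.card ≤ d + 1 := by
    intro B hB
    have hBF := mem_of_mem_erase hB
    have hBA : B ≠ A0 := ne_of_mem_erase hB
    refine ⟨fun y hy => ?_, (hF B hBF).2⟩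
    rcases mem_insert.1 ((hF B hBF).1 hy) with rfl | h
    · exact absurd hxA0 (Finset.disjoint_left.1 (hdis B hBF A0 hA0 hBA) hy)
    · exact h
  have hF0dis : ∀ B ∈ F0, ∀ C ∈ F0, B ≠ C → Disjoint B C := fun B hB C hC =>
    hdis B (mem_of_mem_erase hB) C (mem_of_mem_erase hC)
  set G := F0.inf L ⊓ Hs b with hG
  set c' := ∑ B ∈ F0, (d + 1 - B.card) + (if b = true then 1 else 0) with hc'
  have hGr : finrank ℝ G = d + 1 - c' := hT F0 hF0T hF0dis b
  have hAr : finrank ℝ (L A) = A.card := by
    have := hT {A} (by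
      intro B hB
      rw [mem_singleton.1 hB]
      exact ⟨hAT, by omega⟩) (by
      intro B hB C hC hBC
      rw [mem_singleton.1 hB, mem_singleton.1 hC] at hBC
      exact absurd rfl hBC) false
    rw [Hs_false, inf_singleton, inf_top_eq, sum_singleton] at this
    simp only [Bool.false_eq_true, if_false, add_zero] at this
    omega
  have hinter : finrank ℝ (L A ⊓ G : Submodule ℝ (ℝ × E d)) = A.card - c' := by
    by_cases hAF : A ∈ F0
    · have hAe : A = ∅ := by
        have h1 := hdis A (mem_of_mem_erase hAF) A0 hA0 (ne_of_mem_erase hAF)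
        rw [eq_empty_iff_forall_notMem]
        intro y hy
        exact Finset.disjoint_left.1 h1 hy (mem_of_mem_erase hy)
      rw [hAe, L_empty, bot_inf_eq, finrank_bot]; simp
    · have := hT (insert A F0) (by
        intro B hB
        rcases mem_insert.1 hB with rfl | hB
        · exact ⟨hAT, by omega⟩
        · exact hF0T B hB) (by
        intro B hB C hC hBC
        have key : ∀ C ∈ F0, Disjoint A C := fun C hC =>
          Finset.disjoint_of_subset_left (erase_subset _ _)
            (hdis C (mem_of_mem_erase hC) A0 hA0 (ne_of_mem_erase hC)).symm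
        rcases mem_insert.1 hB with rfl | hB <;> rcases mem_insert.1 hC with rfl | hC
        · exact absurd rfl hBC
        · exact key C hC
        · exact (key B hB).symm
        · exact hF0dis B hB C hC hBC) b
      rw [inf_insert, inf_assoc, sum_insert hAF, add_assoc, ← hc'] at this
      rw [hG, this]
      omega
  have hLA0 : L A0 = L A ⊔ Submodule.span ℝ {lft x} := by
    have : A0 = insert x A := by rw [hA, insert_erase hxA0]
    rw [this, L, coe_insert, Set.image_insert_eq, Submodule.span_insert, sup_comm]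
    rfl
  -- reduce
  have hFi : F.inf L = L A0 ⊓ F0.inf L := by
    rw [← inf_insert, hF0, insert_erase hA0]
  have hFs : ∑ B ∈ F, (d + 1 - B.card) + (if b = true then 1 else 0) =
      (d + 1 - A0.card) + c' := by
    rw [hc', ← add_assoc, hF0, add_sum_erase F (fun B : Finset (E d) => d + 1 - B.card) hA0]
  rw [hFi, inf_assoc, ← hG, hFs]
  have hLAtop : L A ≠ ⊤ := by
    intro e
    rw [e, finrank_top, finrank_prod, finrank_self, finrank_euclideanSpace_fin] at hAr
    omega
  have hxLA : lft x ∉ L A := by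
    have h1 : L A ⊔ (({∅} : Finset (Finset (E d))).inf L ⊓ Hs b) = L A := by
      rw [inf_singleton, L_empty, bot_inf_eq, sup_bot_eq]
    have h2 := mem_Bad b hAT (F := {∅}) (by
      intro B hB
      rw [mem_singleton.1 hB]; exact empty_subset _)
    rw [h1] at h2
    exact hx _ h2 hLAtop
  have hLA0r : finrank ℝ (L A0) = A.card + 1 := by
    rw [hLA0, Submodule.finrank_sup_span_singleton hxLA, hAr]
  have hsum := Submodule.finrank_sup_add_finrank_inf_eq (L A) G
  have hsum0 := Submodule.finrank_sup_add_finrank_inf_eq (L A0) G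
  have hle := Submodule.finrank_le (L A ⊔ G)
  rw [finrank_prod, finrank_self, finrank_euclideanSpace_fin] at hle
  rcases Nat.lt_or_ge A.card c' with hlt | hge
  · have hP : L A ⊔ G ≠ ⊤ := by
      intro e
      rw [e, finrank_top, finrank_prod, finrank_self, finrank_euclideanSpace_fin] at hsum
      omega
    have hxP : lft x ∉ L A ⊔ G := hx _ (mem_Bad b hAT (fun B hB => (hF0T B hB).1)) hP
    have h3 : L A0 ⊔ G = (L A ⊔ G) ⊔ Submodule.span ℝ {lft x} := by
      rw [hLA0, sup_assoc, sup_assoc, sup_comm G]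
    rw [h3, Submodule.finrank_sup_span_singleton hxP] at hsum0
    omega
  · have hP : L A ⊔ G = ⊤ := by
      apply Submodule.eq_top_of_finrank_eq
      rw [finrank_prod, finrank_self, finrank_euclideanSpace_fin]
      omega
    have h3 : L A0 ⊔ G = ⊤ := by
      rw [eq_top_iff, ← hP, hLA0]
      exact sup_le_sup_right le_sup_left _
    rw [h3, finrank_top, finrank_prod, finrank_self, finrank_euclideanSpace_fin] at hsum0
    omega

/-- the affine subspace cut out by a linear subspace -/
def Z (P : Submodule ℝ (ℝ × E d)) : AffineSubspace ℝ (E d) where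
  carrier := {x | lft x ∈ P}
  smul_vsub_vadd_mem' := by
    intro c p1 p2 p3 h1 h2 h3
    have : lft (c • (p1 -ᵥ p2) +ᵥ p3) = c • (lft p1 - lft p2) + lft p3 := by
      simp [lft]
    change lft (c • (p1 -ᵥ p2) +ᵥ p3) ∈ P
    rw [this]
    exact P.add_mem (P.smul_mem _ (P.sub_mem h1 h2)) h3

theorem mem_Z {P : Submodule ℝ (ℝ × E d)} {x : E d} : x ∈ Z P ↔ lft x ∈ P := Iff.rfl

theorem Z_ne_top {P : Submodule ℝ (ℝ × E d)} (hP : P ≠ ⊤) : Z P ≠ ⊤ := by
  intro h
  apply hP
  rw [eq_top_iff]
  rintro ⟨t, v⟩ -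
  have h1 : ∀ x : E d, lft x ∈ P := fun x => by
    rw [← mem_Z, h]; exact AffineSubspace.mem_top _ _ _
  have : ((t, v) : ℝ × E d) = t • lft 0 + (lft v - lft 0) := by
    simp [lft]
  rw [this]
  exact P.add_mem (P.smul_mem _ (h1 0)) (P.sub_mem (h1 v) (h1 0))

/-- avoiding finitely many proper subspaces -/
theorem exists_avoid (B : Finset (Submodule ℝ (ℝ × E d))) {U : Set (E d)} (hU : IsOpen U)
    (hne : U.Nonempty) : ∃ x ∈ U, ∀ P ∈ B, P ≠ ⊤ → lft x ∉ P := by
  classical
  have h0 : MeasureTheory.volume (⋃ P ∈ ((B.filter (fun P => P ≠ ⊤) : Finset _) :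
      Set (Submodule ℝ (ℝ × E d))), (Z P : Set (E d))) = 0 := by
    rw [MeasureTheory.measure_biUnion_null_iff (Finset.countable_toSet _)]
    intro P hP
    exact MeasureTheory.Measure.addHaar_affineSubspace _ _
      (Z_ne_top (mem_filter.1 (mem_coe.1 hP)).2)
  have h1 : 0 < MeasureTheory.volume U := hU.measure_pos _ hne
  have h2 : ¬ U ⊆ ⋃ P ∈ ((B.filter (fun P => P ≠ ⊤) : Finset _) :
      Set (Submodule ℝ (ℝ × E d))), (Z P : Set (E d)) := by
    intro h
    have := MeasureTheory.measure_mono (μ := MeasureTheory.volume) h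
    rw [h0] at this
    exact absurd (lt_of_lt_of_le h1 this) (lt_irrefl _)
  obtain ⟨x, hxU, hx⟩ := Set.not_subset.1 h2
  refine ⟨x, hxU, fun P hP hPt hxP => hx ?_⟩
  simp only [Set.mem_iUnion]
  exact ⟨P, mem_coe.2 (mem_filter.2 ⟨hP, hPt⟩), hxP⟩

theorem exists_next {T : Finset (E d)} (hT : SI' T) [DecidableEq (E d)] {U : Set (E d)}
    (hU : IsOpen U) (hne : U.Nonempty) (hd : 1 ≤ d) : ∃ x ∈ U, x ∉ T ∧ SI' (insert x T) := by
  obtain ⟨x, hxU, hx⟩ := exists_avoid (Bad T) hU hne
  refine ⟨x, hxU, fun hxT => ?_, SI'_insert hT hx⟩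
  have h1 : L {x} ⊔ (({∅} : Finset (Finset (E d))).inf L ⊓ Hs false) = L {x} := by
    rw [inf_singleton, L_empty, bot_inf_eq, sup_bot_eq]
  have h2 := mem_Bad false (A := {x}) (T := T) (by simpa using hxT) (F := {∅}) (by
    intro B hB
    rw [mem_singleton.1 hB]; exact empty_subset _)
  rw [h1] at h2
  refine hx _ h2 ?_ ?_
  · intro e
    have h3 := finrank_span_singleton (K := ℝ) (v := lft x) (by simp [lft])
    have h4 : L {x} = Submodule.span ℝ {lft x} := by simp [L]
    rw [← h4, e, finrank_top, finrank_prod, finrank_self, finrank_euclideanSpace_fin] at h3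
    omega
  · exact Submodule.subset_span ⟨x, by simp, rfl⟩

theorem mem_affineSpan_iff_lft {A : Finset (E d)} {x : E d} :
    x ∈ affineSpan ℝ (A : Set (E d)) ↔ lft x ∈ L A := by
  constructor
  · intro hx
    have : affineSpan ℝ (A : Set (E d)) ≤ Z (L A) :=
      affineSpan_le.2 (fun y hy => Submodule.subset_span ⟨y, hy, rfl⟩)
    exact this hx
  · intro hx
    rcases A.eq_empty_or_nonempty with rfl | ⟨a, ha⟩
    · rw [L_empty, Submodule.mem_bot] at hx
      simp [lft] at hx
    · let f : ℝ × E d →ₗ[ℝ] E d :=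
        LinearMap.snd ℝ ℝ (E d) - (LinearMap.fst ℝ ℝ (E d)).smulRight a
      have h1 : L A ≤ (vectorSpan ℝ (A : Set (E d))).comap f := by
        rw [L, Submodule.span_le]
        rintro _ ⟨y, hy, rfl⟩
        have : f (lft y) = y -ᵥ a := by simp [f, lft]
        change f (lft y) ∈ vectorSpan ℝ (A : Set (E d))
        rw [this]
        exact vsub_mem_vectorSpan ℝ hy ha
      have h2 : f (lft x) ∈ vectorSpan ℝ (A : Set (E d)) := h1 hx
      have h3 : f (lft x) = x -ᵥ a := by simp [f, lft]
      rw [h3, ← direction_affineSpan] at h2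
      have h4 := AffineSubspace.vadd_mem_of_mem_direction h2
        (subset_affineSpan ℝ _ (show a ∈ (A : Set (E d)) from ha))
      simpa using h4

theorem mem_iInf_iff {F : Finset (Finset (E d))} {x : E d} :
    x ∈ (⨅ A ∈ F, affineSpan ℝ (A : Set (E d))) ↔ lft x ∈ F.inf L := by
  rw [Finset.inf_eq_iInf]
  simp only [AffineSubspace.mem_iInf_iff, Submodule.mem_iInf, mem_affineSpan_iff_lft]

theorem SI'.si {T : Finset (E d)} (hT : SI' T) : StronglyIndependent T := by
  intro F hF hdis
  set K := F.inf L with hK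
  have e0 := hT F hF hdis false
  have e1 := hT F hF hdis true
  rw [Hs_false, inf_top_eq] at e0
  rw [Hs_true] at e1
  simp only [Bool.false_eq_true, if_false, add_zero] at e0
  simp only [if_true] at e1
  rw [← hK] at e0 e1
  have hsum : ∑ A ∈ F, ((d : ℤ) - ((A.card : ℤ) - 1)) = ((∑ A ∈ F, (d + 1 - A.card) : ℕ) : ℤ) := by
    push_cast
    refine sum_congr rfl fun A hA => ?_
    have := (hF A hA).2
    rw [Nat.cast_sub this]; push_cast; ring
  rw [hsum]
  set c := ∑ A ∈ F, (d + 1 - A.card) with hc
  rw [iInter_affHull, setDim_coe, affDim]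
  by_cases hbot : (⨅ A ∈ F, affineSpan ℝ (A : Set (E d))) = ⊥
  · rw [if_pos hbot]
    have hle : K ≤ LinearMap.range (LinearMap.inr ℝ ℝ (E d)) := by
      rintro ⟨t, v⟩ htv
      by_cases ht : t = 0
      · subst ht
        exact ⟨v, by simp⟩
      · exfalso
        have h1 : lft (t⁻¹ • v) ∈ K := by
          have := K.smul_mem t⁻¹ htv
          have e : t⁻¹ • ((t, v) : ℝ × E d) = lft (t⁻¹ • v) := by
            simp [lft, ht]
          rwa [e] at this
        have h2 := mem_iInf_iff.2 h1
        rw [hbot] at h2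
        exact AffineSubspace.notMem_bot _ _ _ h2
    rw [inf_eq_left.2 hle, e0] at e1
    rw [max_eq_left]
    omega
  · rw [if_neg hbot]
    obtain ⟨x0, hx0⟩ := (AffineSubspace.nonempty_iff_ne_bot _).2 hbot
    have hx0' : lft x0 ∈ K := mem_iInf_iff.1 hx0
    have hdir : (⨅ A ∈ F, affineSpan ℝ (A : Set (E d))).direction =
        K.comap (LinearMap.inr ℝ ℝ (E d)) := by
      ext v
      rw [← AffineSubspace.vadd_mem_iff_mem_direction v hx0, mem_iInf_iff, Submodule.mem_comap]
      have : lft (v +ᵥ x0) = LinearMap.inr ℝ ℝ (E d) v + lft x0 := by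
        simp [lft]
      rw [this]
      exact Submodule.add_mem_iff_left K hx0'
    have hfr : finrank ℝ (K.comap (LinearMap.inr ℝ ℝ (E d))) =
        finrank ℝ (K ⊓ LinearMap.range (LinearMap.inr ℝ ℝ (E d)) :
          Submodule ℝ (ℝ × E d)) := by
      rw [inf_comm, ← Submodule.map_comap_eq]
      exact (Submodule.equivMapOfInjective _ LinearMap.inr_injective _).finrank_eq
    rw [hdir, hfr, e1]
    have hKpos : 0 < finrank ℝ K := by
      rw [Nat.pos_iff_ne_zero]
      intro h0
      rw [Submodule.finrank_eq_zero] at h0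
      rw [h0, Submodule.mem_bot] at hx0'
      simp [lft] at hx0'
    rw [e0] at hKpos
    rw [max_eq_right (by omega)]
    omega

/-- strong independence implies general position -/
theorem gp_of_si {N : ℕ} {s : Fin N → E d} (hs : Function.Injective s) [DecidableEq (E d)]
    (h : StronglyIndependent (univ.image s)) : GP s := by
  intro x hx hc
  set J := univ.filter (fun i => x i ≠ 0) with hJ
  obtain ⟨e1, e2⟩ := mem_dep.1 hx
  by_contra hx0
  have hJne : J.Nonempty := by
    obtain ⟨i, hi⟩ := Function.ne_iff.1 hx0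
    exact ⟨i, by simpa [hJ] using hi⟩
  have hJc := hJne.card_pos
  set p : J → E d := fun i => s i with hp
  have hrange : Set.range p = ((J.image s : Finset (E d)) : Set (E d)) := by
    ext y; simp [hp]
  have hcard : (J.image s).card = J.card := card_image_of_injective _ hs
  have h1 := h {J.image s} (by
    intro A hA
    rw [mem_singleton.1 hA]
    exact ⟨image_subset_image (subset_univ _), by rw [hcard]; exact hc⟩) (by
    intro B hB C hC hBC
    rw [mem_singleton.1 hB, mem_singleton.1 hC] at hBC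
    exact absurd rfl hBC)
  rw [iInter_affHull, setDim_coe] at h1
  simp only [mem_singleton, iInf_iInf_eq_left, sum_singleton] at h1
  rw [affDim, if_neg, direction_affineSpan, hcard, ← hrange] at h1
  · have hind : AffineIndependent ℝ p := by
      rw [affineIndependent_iff_finrank_vectorSpan_eq ℝ p (n := J.card - 1)
        (by rw [Fintype.card_coe]; omega)]
      rw [max_eq_right (by omega)] at h1
      omega
    have hz : ∀ i, i ∉ J → x i = 0 := fun i hi => by
      by_contra hc'
      exact hi (by simpa [hJ] using hc')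
    have s1 : ∑ i ∈ J, x i = 0 := by
      rw [← e1]
      exact sum_subset (subset_univ _) (fun i _ hi => hz i hi)
    have s2 : ∑ i ∈ J, x i • s i = 0 := by
      rw [← e2]
      exact sum_subset (subset_univ _) (fun i _ hi => by rw [hz i hi, zero_smul])
    have h2 := (affineIndependent_iff.1 hind) univ (fun i => x i)
      (by rw [sum_coe_sort J (fun i => x i)]; exact s1)
      (by rw [sum_coe_sort J (fun i => x i • s i)]; exact s2)
    obtain ⟨i, hi⟩ := hJne
    have h3 := h2 ⟨i, hi⟩ (mem_univ _)
    rw [hJ, mem_filter] at hi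
    exact hi.2 h3
  · intro hb
    have : ((J.image s : Finset (E d)) : Set (E d)) = ∅ := by
      rwa [affineSpan_eq_bot] at hb
    rw [coe_eq_empty, image_eq_empty] at this
    exact hJne.ne_empty this

end Pool.Agent.Helper34.RP
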