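import Pool.Agent.Helper34.RP.Bal

/-!
Seidel's proof of the asymptotic upper bound theorem, for cones `{x ∈ V : x_R ≤ 0}`.
-/

set_option autoImplicit false

open Finset Module

namespace Pool.Agent.Helper34.RP

variable {n : ℕ}

/-- `Z` is the zero set (within `R`) of a vertex of the cone `x_R ≤ 0` -/
def IsV (V : Submodule ℝ (Fin n → ℝ)) (k : ℕ) (R Z : Finset (Fin n)) : Prop :=
  Z ⊆ R ∧ Z.card = k ∧ ∃ x ∈ V, (∀ i ∈ Z, x i = 0) ∧ x ≠ 0 ∧ ∀ i ∈ R, i ∉ Z → x i < 0

open Classical in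
/-- the vertices -/
noncomputable def VR (V : Submodule ℝ (Fin n → ℝ)) (k : ℕ) (R : Finset (Fin n)) :
    Finset (Finset (Fin n)) := univ.filter (fun Z => IsV V k R Z)

theorem mem_VR {V : Submodule ℝ (Fin n → ℝ)} {k : ℕ} {R Z : Finset (Fin n)} :
    Z ∈ VR V k R ↔ IsV V k R Z := by simp [VR]

/-- the functional `-∑_R x` -/
noncomputable def hR (R : Finset (Fin n)) : (Fin n → ℝ) →ₗ[ℝ] ℝ :=
  { toFun := fun x => -∑ i ∈ R, x i
    map_add' := fun x y => by simp [sum_add_distrib]; ring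
    map_smul' := fun c x => by simp [mul_sum] }

theorem hR_apply (R : Finset (Fin n)) (x : Fin n → ℝ) : hR R x = -∑ i ∈ R, x i := rfl

theorem VR_card {V : Submodule ℝ (Fin n → ℝ)} {k : ℕ} (h : Uni V (k + 1))
    {R : Finset (Fin n)} (hRk : k + 1 ≤ R.card) : (VR V k R).card ≤ 2 * R.card.choose (k / 2) := by
  classical
  -- normalised vertices
  have hz : ∀ Z : Finset (Fin n), ∃ z : Fin n → ℝ, Z ∈ VR V k R →
      z ∈ V ∧ (∀ i ∈ Z, z i = 0) ∧ (∀ i ∈ R, i ∉ Z → z i < 0) ∧ hR R z = 1 := by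
    intro Z
    by_cases hZ : Z ∈ VR V k R
    · obtain ⟨h1, h2, x, hx, hx0, -, hxneg⟩ := mem_VR.1 hZ
      obtain ⟨q, hqR, hqZ⟩ : ∃ q ∈ R, q ∉ Z := by
        by_contra hc
        push Not at hc
        have := card_le_card (show R ⊆ Z from hc)
        omega
      have hpos : 0 < hR R x := by
        rw [hR_apply, neg_pos]
        refine sum_neg' (fun i hi => ?_) ⟨q, hqR, hxneg q hqR hqZ⟩
        by_cases hiZ : i ∈ Z
        · rw [hx0 i hiZ]
        · exact (hxneg i hi hiZ).le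
      refine ⟨(hR R x)⁻¹ • x, fun _ => ⟨V.smul_mem _ hx, fun i hi => by simp [hx0 i hi],
        fun i hi hiZ => ?_, ?_⟩⟩
      · simp only [Pi.smul_apply, smul_eq_mul]
        exact mul_neg_of_pos_of_neg (inv_pos.2 hpos) (hxneg i hi hiZ)
      · rw [map_smul, smul_eq_mul, inv_mul_cancel₀ hpos.ne']
    · exact ⟨0, fun h' => absurd h' hZ⟩
  choose z hz using hz
  -- edge directions
  have he : ∀ (Z : Finset (Fin n)) (i : Fin n), ∃ e : Fin n → ℝ, Z ∈ VR V k R → i ∈ Z →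
      e ∈ V ∧ (∀ j ∈ Z, j ≠ i → e j = 0) ∧ e i = -1 ∧ hR R e = 0 := by
    intro Z i
    by_cases hZ : Z ∈ VR V k R ∧ i ∈ Z
    · obtain ⟨hZ, hi⟩ := hZ
      obtain ⟨h1, h2, -⟩ := mem_VR.1 hZ
      obtain ⟨z1, z2, z3, z4⟩ := hz Z hZ
      obtain ⟨e, he1, he2⟩ := interp h Z (by omega) (fun j => if j = i then -1 else 0)
      refine ⟨e - (hR R e) • z Z, fun _ _ => ⟨V.sub_mem he1 (V.smul_mem _ z1), fun j hj hji => ?_,
        ?_, ?_⟩⟩
      · simp [he2 j hj, hji, z2 j hj]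
      · simp [he2 i hi, z2 i hi]
      · rw [map_sub, map_smul, z4]; simp
    · exact ⟨0, fun h1 h2 => absurd ⟨h1, h2⟩ hZ⟩
  choose e he using he
  -- a generic functional
  obtain ⟨g, hg⟩ : ∃ g : Module.Dual ℝ (Fin n → ℝ), ∀ Z ∈ VR V k R, ∀ i ∈ Z, g (e Z i) ≠ 0 := by
    let ι := {p : Finset (Fin n) × Fin n // p.1 ∈ VR V k R ∧ p.2 ∈ p.1}
    obtain ⟨g, hg⟩ := Module.exists_dual_forall_apply_ne_zero (K := ℝ) (ι := ι)
      (fun p => e p.1.1 p.1.2) (fun p h0 => by
        have := (he p.1.1 p.1.2 p.2.1 p.2.2).2.2.1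
        rw [h0] at this
        simp at this)
    exact ⟨g, fun Z hZ i hi => hg ⟨(Z, i), hZ, hi⟩⟩
  -- the key lemma
  have key : ∀ Z ∈ VR V k R, ∀ Z' ⊆ Z, ∀ s : ℝ, s ≠ 0 → (∀ i ∈ Z', 0 < s * g (e Z i)) →
      ∀ x ∈ V, (∀ i ∈ Z, i ∉ Z' → x i = 0) → (∀ i ∈ R, x i ≤ 0) → hR R x = 1 →
      0 ≤ s * (g x - g (z Z)) ∧ (s * (g x - g (z Z)) = 0 → x = z Z) := by
    intro Z hZ Z' hZ' s hs0 hs x hx hxK hxR hx1
    obtain ⟨h1, h2, -⟩ := mem_VR.1 hZ
    obtain ⟨z1, z2, z3, z4⟩ := hz Z hZ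
    have hexp : x = z Z + ∑ i ∈ Z', (-x i) • e Z i := by
      set D := x - z Z - ∑ i ∈ Z', (-x i) • e Z i with hD
      have hDV : D ∈ V := V.sub_mem (V.sub_mem hx z1)
        (V.sum_mem fun i hi => V.smul_mem _ (he Z i hZ (hZ' hi)).1)
      have hDZ : ∀ j ∈ Z, D j = 0 := by
        intro j hj
        have e1 : (∑ i ∈ Z', (-x i) • e Z i) j = ∑ i ∈ Z', (-x i) * e Z i j := by
          simp [Finset.sum_apply]
        simp only [hD, Pi.sub_apply]
        rw [e1, z2 j hj]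
        by_cases hjZ' : j ∈ Z'
        · rw [sum_eq_single j, (he Z j hZ hj).2.2.1]
          · ring
          · intro i hi hij
            rw [(he Z i hZ (hZ' hi)).2.1 j hj hij.symm, mul_zero]
          · intro h'; exact absurd hjZ' h'
        · rw [sum_eq_zero, hxK j hj hjZ']
          · ring
          · intro i hi
            rw [(he Z i hZ (hZ' hi)).2.1 j hj (fun h' => hjZ' (h' ▸ hi)), mul_zero]
      have hDh : hR R D = 0 := by
        rw [hD, map_sub, map_sub, map_sum, hx1, z4]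
        rw [sum_eq_zero]
        · ring
        · intro i hi
          rw [map_smul, (he Z i hZ (hZ' hi)).2.2.2, smul_zero]
      obtain ⟨q, hqR, hqZ⟩ : ∃ q ∈ R, q ∉ Z := by
        by_contra hc
        push Not at hc
        have := card_le_card (show R ⊆ Z from hc)
        omega
      have hzq := (z3 q hqR hqZ).ne
      have hD2 : D - (D q / z Z q) • z Z = 0 := by
        refine eq_zero_of h (V.sub_mem hDV (V.smul_mem _ z1)) (R := insert q Z)
          (by rw [card_insert_of_notMem hqZ, h2]) ?_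
        intro j hj
        rcases mem_insert.1 hj with rfl | hj
        · simp only [Pi.sub_apply, Pi.smul_apply, smul_eq_mul]
          rw [div_mul_cancel₀ _ hzq]; ring
        · simp [hDZ j hj, z2 j hj]
      have hD3 : D = (D q / z Z q) • z Z := sub_eq_zero.1 hD2
      have hD4 : D q / z Z q = 0 := by
        have := congrArg (hR R) hD3
        rw [hDh, map_smul, z4] at this
        simpa using this.symm
      have hD5 : D = 0 := by rw [hD3, hD4, zero_smul]
      rw [hD] at hD5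
      have := sub_eq_zero.1 hD5
      rw [← this]; abel
    have hval : s * (g x - g (z Z)) = ∑ i ∈ Z', (-x i) * (s * g (e Z i)) := by
      have : g x = g (z Z) + ∑ i ∈ Z', (-x i) * g (e Z i) := by
        conv_lhs => rw [hexp]
        rw [map_add, map_sum]
        simp only [map_smul, smul_eq_mul]
      rw [this, add_sub_cancel_left, mul_sum]
      exact sum_congr rfl fun i _ => by ring
    have hnn : ∀ i ∈ Z', 0 ≤ (-x i) * (s * g (e Z i)) := fun i hi =>
      mul_nonneg (by have := hxR i (h1 (hZ' hi)); linarith) (hs i hi).le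
    refine ⟨by rw [hval]; exact sum_nonneg hnn, fun h0 => ?_⟩
    rw [hval, sum_eq_zero_iff_of_nonneg hnn] at h0
    rw [hexp, sum_eq_zero, add_zero]
    intro i hi
    have h3 := h0 i hi
    rcases mul_eq_zero.1 h3 with h4 | h4
    · rw [h4, zero_smul]
    · exact absurd h4 (hs i hi).ne'
  -- the assignment
  have hF : ∀ Z : Finset (Fin n), ∃ p : Bool × Finset (Fin n), Z ∈ VR V k R →
      ∃ Z' ⊆ Z, p.2 = Z \ Z' ∧ p.2.card = k / 2 ∧
        ∀ i ∈ Z', 0 < (if p.1 = true then (1 : ℝ) else -1) * g (e Z i) := by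
    intro Z
    by_cases hZ : Z ∈ VR V k R
    · obtain ⟨h1, h2, -⟩ := mem_VR.1 hZ
      have hsplit := card_filter_add_card_filter_not (s := Z) (fun i => 0 < g (e Z i))
      by_cases hP : k - k / 2 ≤ (Z.filter (fun i => 0 < g (e Z i))).card
      · obtain ⟨Z', hZ', hc⟩ := exists_subset_card_eq hP
        have hsub : Z' ⊆ Z := hZ'.trans (filter_subset _ _)
        refine ⟨(true, Z \ Z'), fun _ => ⟨Z', hsub, rfl, ?_, fun i hi => ?_⟩⟩
        · rw [card_sdiff_of_subset hsub, hc, h2]; omega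
        · have := (mem_filter.1 (hZ' hi)).2
          simpa using this
      · have hM : k - k / 2 ≤ (Z.filter (fun i => ¬ 0 < g (e Z i))).card := by omega
        obtain ⟨Z', hZ', hc⟩ := exists_subset_card_eq hM
        have hsub : Z' ⊆ Z := hZ'.trans (filter_subset _ _)
        refine ⟨(false, Z \ Z'), fun _ => ⟨Z', hsub, rfl, ?_, fun i hi => ?_⟩⟩
        · rw [card_sdiff_of_subset hsub, hc, h2]; omega
        · have h3 := (mem_filter.1 (hZ' hi)).2
          have h4 := hg Z hZ i (hsub hi)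
          have h5 : g (e Z i) < 0 := lt_of_le_of_ne (not_lt.1 h3) h4
          simpa using h5
    · exact ⟨(true, ∅), fun h' => absurd h' hZ⟩
  choose F hF using hF
  have hinj : Set.InjOn F (VR V k R : Set (Finset (Fin n))) := by
    intro Z1 hZ1 Z2 hZ2 hFF
    rw [mem_coe] at hZ1 hZ2
    obtain ⟨Z1', a1, a2, -, a4⟩ := hF Z1 hZ1
    obtain ⟨Z2', b1, b2, -, b4⟩ := hF Z2 hZ2
    obtain ⟨c1, c2, c3, c4⟩ := hz Z1 hZ1
    obtain ⟨d1, d2, d3, d4⟩ := hz Z2 hZ2
    rw [← hFF] at b2 b4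
    have hK : Z1 \ Z1' = Z2 \ Z2' := by rw [← a2, b2]
    set s : ℝ := if (F Z1).1 = true then (1 : ℝ) else -1 with hs
    have hs0 : s ≠ 0 := by rw [hs]; split_ifs <;> norm_num
    have nonpos : ∀ Z ∈ VR V k R, ∀ i ∈ R, z Z i ≤ 0 := by
      intro Z hZ i hi
      obtain ⟨-, z2, z3, -⟩ := hz Z hZ
      by_cases hiZ : i ∈ Z
      · rw [z2 i hiZ]
      · exact (z3 i hi hiZ).le
    have k1 := key Z1 hZ1 Z1' a1 s hs0 a4 (z Z2) d1 (fun i hi hi' => by
      have : i ∈ Z2 \ Z2' := by rw [← hK]; exact mem_sdiff.2 ⟨hi, hi'⟩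
      exact d2 i (mem_sdiff.1 this).1) (nonpos Z2 hZ2) d4
    have k2 := key Z2 hZ2 Z2' b1 s hs0 b4 (z Z1) c1 (fun i hi hi' => by
      have : i ∈ Z1 \ Z1' := by rw [hK]; exact mem_sdiff.2 ⟨hi, hi'⟩
      exact c2 i (mem_sdiff.1 this).1) (nonpos Z1 hZ1) c4
    have k3 : s * (g (z Z2) - g (z Z1)) = 0 := by
      have : s * (g (z Z1) - g (z Z2)) = -(s * (g (z Z2) - g (z Z1))) := by ring
      have := k1.1
      have := k2.1
      linarith
    have k4 := k1.2 k3
    have hZZ : ∀ Z ∈ VR V k R, ∀ i, i ∈ Z ↔ i ∈ R ∧ z Z i = 0 := by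
      intro Z hZ i
      obtain ⟨h1, -, -⟩ := mem_VR.1 hZ
      obtain ⟨-, z2, z3, -⟩ := hz Z hZ
      constructor
      · intro hi; exact ⟨h1 hi, z2 i hi⟩
      · rintro ⟨hi, h0⟩
        by_contra hiZ
        exact (z3 i hi hiZ).ne h0
    ext i
    rw [hZZ Z1 hZ1, hZZ Z2 hZ2, k4]
  have hmaps : Set.MapsTo F (VR V k R : Set (Finset (Fin n)))
      (((univ : Finset Bool) ×ˢ R.powersetCard (k / 2) : Finset _) : Set _) := by
    intro Z hZ
    rw [mem_coe] at hZ
    obtain ⟨Z', a1, a2, a3, -⟩ := hF Z hZ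
    rw [mem_coe, mem_product, mem_powersetCard]
    refine ⟨mem_univ _, ?_, a3⟩
    rw [a2]
    exact sdiff_subset.trans (mem_VR.1 hZ).1
  have := card_le_card_of_injOn F hmaps hinj
  rw [card_product, card_univ, Fintype.card_bool, card_powersetCard] at this
  exact this

end Pool.Agent.Helper34.RP
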