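import Pool.Agent.Helper34.RP.Bal

/-!
Nonvertices, the sharp bounds for rank two and rank three.
-/

set_option autoImplicit false

open Finset Module

namespace Pool.Agent.Helper34.RP

variable {n : ℕ}

/-- the pattern with one `true` -/
def sgl (i : Fin n) : Fin n → Bool := fun j => decide (j = i)

open Classical in
/-- nonvertices -/
noncomputable def NV (V : Submodule ℝ (Fin n → ℝ)) : Finset (Fin n) :=
  univ.filter (fun i => Pat V (sgl i))

theorem mem_NV' {V : Submodule ℝ (Fin n → ℝ)} {i : Fin n} :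
    i ∈ NV V ↔ Pat V (sgl i) := by simp [NV]

theorem mem_NV {V : Submodule ℝ (Fin n → ℝ)} {i : Fin n} :
    i ∈ NV V ↔ ∃ x ∈ V, 0 < x i ∧ ∀ j, j ≠ i → x j < 0 := by
  simp only [NV, mem_filter, mem_univ, true_and, Pat, sgl]
  refine exists_congr fun x => and_congr_right fun _ => ?_
  constructor
  · intro h
    refine ⟨(h i).1 (by simp), fun j hj => (h j).2 (by simpa using hj)⟩
  · rintro ⟨h1, h2⟩ j
    by_cases hj : j = i
    · subst hj; exact ⟨fun _ => h1, fun h => absurd h (by simp)⟩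
    · exact ⟨fun h => absurd h (by simpa using hj), fun _ => h2 j hj⟩

/-- deletion of a vertex is totally cyclic -/
theorem tc_del {V : Submodule ℝ (Fin (n + 1) → ℝ)} {r : ℕ} (h : Uni V r) (htc : TC V)
    {v : Fin (n + 1)} (hv : v ∉ NV V) : TC (del V v) := by
  intro y hy hy0
  obtain ⟨x, hx, hxy⟩ := mem_del.1 hy
  by_contra hne
  have hx0 : x ≠ 0 := by
    rintro rfl
    exact hne (funext fun i => by rw [← hxy i]; rfl)
  have hvneg : x v < 0 := by
    by_contra hc
    push Not at hc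
    exact hx0 (htc x hx (fun i => by
      rcases Fin.eq_self_or_eq_succAbove v i with rfl | ⟨j, rfl⟩
      · exact hc
      · rw [hxy]; exact hy0 j))
  apply hv
  refine mem_NV'.2 (pat_of_wk h (V.neg_mem hx) (neg_ne_zero.2 hx0) fun i => ?_)
  rcases Fin.eq_self_or_eq_succAbove v i with rfl | ⟨j, rfl⟩
  · refine ⟨fun _ => by simpa using hvneg.le, fun hc => absurd hc (by simp [sgl])⟩
  · refine ⟨fun hc => absurd hc (by simp [sgl, Fin.succAbove_ne]), fun _ => ?_⟩
    have := hy0 j
    rw [← hxy] at this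
    simpa using this

/-- there are at most `r` nonvertices -/
theorem card_NV_le {V : Submodule ℝ (Fin (n + 1) → ℝ)} {r : ℕ} (h : Uni V r) (htc : TC V)
    (hr : r + 1 ≤ n) : (NV V).card ≤ r := by
  by_contra hcon
  push Not at hcon
  obtain ⟨w, hw, hwV⟩ := gordan htc
  obtain ⟨T, hT, hTc⟩ := exists_subset_card_eq (s := NV V) (n := r + 1) (by omega)
  obtain ⟨u, hu0, huV, hu00⟩ : ∃ u : Fin (n + 1) → ℝ, u ≠ 0 ∧ (∀ x ∈ V, ∑ i, u i * x i = 0) ∧
      ∀ i, i ∉ T → u i = 0 := by
    let Φ : (Fin (n + 1) → ℝ) →ₗ[ℝ] (V →ₗ[ℝ] ℝ) × ((Tᶜ : Finset (Fin (n + 1))) → ℝ) :=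
      { toFun := fun u => ({ toFun := fun x => ∑ i, u i * (x : Fin (n + 1) → ℝ) i
                             map_add' := fun x y => by
                              simp [mul_add, sum_add_distrib]
                             map_smul' := fun c x => by
                              simp only [Submodule.coe_smul, Pi.smul_apply, smul_eq_mul,
                                RingHom.id_apply, mul_sum]
                              exact sum_congr rfl fun i _ => by ring }, fun i => u i)
        map_add' := fun a b => by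
          apply Prod.ext
          · ext x; simp [add_mul, sum_add_distrib]
          · funext i; simp
        map_smul' := fun c a => by
          apply Prod.ext
          · ext x; simp [mul_sum, mul_assoc]
          · funext i; simp }
    have hker : LinearMap.ker Φ ≠ ⊥ := by
      apply LinearMap.ker_ne_bot_of_finrank_lt
      rw [finrank_prod, finrank_fin_fun, finrank_fintype_fun_eq_card, Fintype.card_coe,
        card_compl, Fintype.card_fin, hTc]
      have : finrank ℝ (V →ₗ[ℝ] ℝ) = finrank ℝ V := Subspace.dual_finrank_eq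
      rw [this, h.finrank_eq]
      omega
    obtain ⟨u, hu, hu0⟩ := Submodule.exists_mem_ne_zero_of_ne_bot hker
    have hu' : Φ u = 0 := hu
    have e1 := congrArg Prod.fst hu'
    have e2 := congrArg Prod.snd hu'
    refine ⟨u, hu0, fun x hx => ?_, fun i hi => ?_⟩
    · have h9 : (Φ u).1 ⟨x, hx⟩ = 0 := by rw [e1]; rfl
      exact h9
    · have h9 := congrFun e2 ⟨i, mem_compl.2 hi⟩
      exact h9
  -- wlog positive somewhere
  obtain ⟨u, hu0, huV, hu00, p, hp⟩ : ∃ u : Fin (n + 1) → ℝ, u ≠ 0 ∧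
      (∀ x ∈ V, ∑ i, u i * x i = 0) ∧ (∀ i, i ∉ T → u i = 0) ∧ ∃ p, 0 < u p := by
    obtain ⟨p, hp⟩ := Function.ne_iff.1 hu0
    rcases lt_or_gt_of_ne hp with hp | hp
    · refine ⟨-u, neg_ne_zero.2 hu0, fun x hx => ?_, fun i hi => ?_, p, by simpa using hp⟩
      · have := huV x hx
        simp only [Pi.neg_apply, neg_mul, sum_neg_distrib, this, neg_zero]
      · simp [hu00 i hi]
    · exact ⟨u, hu0, huV, hu00, p, hp⟩
  obtain ⟨v, -, hv⟩ := exists_max_image (univ : Finset (Fin (n + 1))) (fun i => u i / w i)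
    ⟨0, mem_univ _⟩
  set m := u v / w v with hm
  have hmpos : 0 < m := lt_of_lt_of_le (div_pos hp (hw p)) (hv p (mem_univ _))
  have hvT : v ∈ T := by
    by_contra hc
    rw [hm, hu00 v hc] at hmpos
    simp at hmpos
  obtain ⟨x, hx, hxv, hxo⟩ := mem_NV.1 (hT hvT)
  have h1 : ∑ i, (m * w i - u i) * x i = 0 := by
    calc ∑ i, (m * w i - u i) * x i = m * ∑ i, w i * x i - ∑ i, u i * x i := by
          rw [mul_sum, ← sum_sub_distrib]; exact sum_congr rfl fun i _ => by ring
      _ = 0 := by rw [hwV x hx, huV x hx]; ring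
  have hvv : m * w v - u v = 0 := by rw [hm, div_mul_cancel₀ _ (hw v).ne']; ring
  have hnn : ∀ i, 0 ≤ m * w i - u i := by
    intro i
    have := hv i (mem_univ _)
    rw [div_le_iff₀ (hw i)] at this
    linarith
  have hterm : ∀ i ∈ univ, (m * w i - u i) * x i ≤ 0 := by
    intro i _
    by_cases hi : i = v
    · subst hi; rw [hvv]; simp
    · exact mul_nonpos_of_nonneg_of_nonpos (hnn i) (hxo i hi).le
  have h2 := (sum_eq_zero_iff_of_nonpos hterm).1 h1
  obtain ⟨q, hq⟩ : ∃ q, q ∉ T := by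
    by_contra hc
    push Not at hc
    have : T = univ := eq_univ_iff_forall.2 hc
    rw [this, card_univ, Fintype.card_fin] at hTc
    omega
  have hqv : q ≠ v := fun e => hq (e ▸ hvT)
  have h3 := h2 q (mem_univ _)
  rw [hu00 q hq, sub_zero] at h3
  have := mul_neg_of_pos_of_neg (mul_pos hmpos (hw q)) (hxo q hqv)
  linarith

theorem sgl_inj {i j : Fin n} (h : sgl i = sgl j) : i = j := by
  have := congrFun h i
  simpa [sgl] using this

theorem eq_sgl_of_ct {σ : Fin n → Bool} (h : ct true σ = 1) : ∃ i, σ = sgl i := by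
  have h1 : (univ.filter (fun i => σ i = true)).card = 1 := by
    rw [card_filter]; exact h
  obtain ⟨i, hi⟩ := card_eq_one.1 h1
  refine ⟨i, funext fun j => ?_⟩
  have h2 : j ∈ univ.filter (fun i => σ i = true) ↔ j ∈ ({i} : Finset (Fin n)) := by rw [hi]
  simp only [mem_filter, mem_univ, true_and, mem_singleton] at h2
  by_cases hj : j = i
  · rw [h2.2 hj]; simp [sgl, hj]
  · have : σ j = false := by
      cases hs : σ j
      · rfl
      · exact absurd (h2.1 hs) hj
    rw [this]; simp [sgl, hj]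

theorem ct_ne_zero {V : Submodule ℝ (Fin n → ℝ)} (htc : TC V) (hn : 1 ≤ n) {σ : Fin n → Bool}
    (hσ : Pat V σ) (b : Bool) : ct b σ ≠ 0 := by
  intro h0
  have h1 : ∀ i, σ i ≠ b := by
    intro i hi
    have := ct_pos hi
    omega
  obtain ⟨x, hx, hx1⟩ := hσ
  cases b
  · have : x = 0 := htc x hx (fun i => ((hx1 i).1 (by
      cases hs : σ i
      · exact absurd hs (h1 i)
      · rfl)).le)
    have h3 := (hx1 ⟨0, hn⟩).1 (by
      cases hs : σ ⟨0, hn⟩
      · exact absurd hs (h1 _)
      · rfl)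
    rw [this] at h3
    simp at h3
  · have : -x = 0 := htc (-x) (V.neg_mem hx) (fun i => by
      have := (hx1 i).2 (by
        cases hs : σ i
        · rfl
        · exact absurd hs (h1 i))
      simpa using this.le)
    have h3 := (hx1 ⟨0, hn⟩).2 (by
      cases hs : σ ⟨0, hn⟩
      · rfl
      · exact absurd hs (h1 _))
    rw [neg_eq_zero.1 this] at h3
    simp at h3

open Classical in
/-- rank two: everything except the single patterns is balanced -/
theorem Bs_two {V : Submodule ℝ (Fin (n + 1) → ℝ)} (h : Uni V 2) (htc : TC V) :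
    2 * (n + 1) ≤ (Bs 2 V).card + 2 * (NV V).card := by
  have h1 := card_pat_eq V h
  have h2 : ∑ j ∈ range 2, n.choose j = n + 1 := by
    simp [sum_range_succ]; ring
  rw [h2] at h1
  have hsub : patSet V ⊆ Bs 2 V ∪ ((NV V).image sgl ∪ (NV V).image (fun i j => !(sgl i j))) := by
    intro σ hσ
    have hp := mem_patSet.1 hσ
    have c1 := ct_ne_zero htc (by omega) hp true
    have c2 := ct_ne_zero htc (by omega) hp false
    by_cases d1 : ct true σ = 1
    · obtain ⟨i, rfl⟩ := eq_sgl_of_ct d1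
      refine mem_union_right _ (mem_union_left _ (mem_image.2 ⟨i, ?_, rfl⟩))
      rw [NV, mem_filter]; exact ⟨mem_univ _, hp⟩
    · by_cases d2 : ct false σ = 1
      · have d3 : ct true (fun i => !(σ i)) = 1 := by rw [ct_not]; exact d2
        obtain ⟨i, hi⟩ := eq_sgl_of_ct d3
        refine mem_union_right _ (mem_union_right _ (mem_image.2 ⟨i, ?_, ?_⟩))
        · rw [NV, mem_filter]; exact ⟨mem_univ _, hi ▸ pat_not hp⟩
        · funext j
          rw [← hi]; simp
      · exact mem_union_left _ (mem_Bs.2 ⟨hp, by omega, by omega⟩)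
  have h3 := card_le_card hsub
  have h4 := card_union_le (Bs 2 V) ((NV V).image sgl ∪ (NV V).image (fun i j => !(sgl i j)))
  have h5 := card_union_le ((NV V).image sgl) ((NV V).image (fun i j => !(sgl i j)))
  have h6 := card_image_le (s := NV V) (f := sgl)
  have h7 := card_image_le (s := NV V) (f := fun i j => !(sgl i j))
  omega

/-- nonvertices of contractions -/
theorem NV_con {V : Submodule ℝ (Fin (n + 1) → ℝ)} {v : Fin (n + 1)} {j : Fin n}
    (hj : j ∈ NV (con V v)) : ∃ x ∈ V, x v = 0 ∧ 0 < x (v.succAbove j) ∧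
      ∀ i, i ≠ v → i ≠ v.succAbove j → x i < 0 := by
  obtain ⟨y, hy, h1, h2⟩ := mem_NV.1 hj
  obtain ⟨x, hx, hxv, hxy⟩ := mem_con.1 hy
  refine ⟨x, hx, hxv, by rw [hxy]; exact h1, fun i hi1 hi2 => ?_⟩
  obtain ⟨l, rfl⟩ := Fin.exists_succAbove_eq hi1
  rw [hxy]
  exact h2 l (fun e => hi2 (by rw [e]))

theorem NV_of_con {V : Submodule ℝ (Fin (n + 1) → ℝ)} {r : ℕ} (h : Uni V r) (hn : 1 ≤ n)
    {v : Fin (n + 1)} {j : Fin n} (hj : j ∈ NV (con V v)) : v.succAbove j ∈ NV V := by
  rw [mem_NV'] at hj ⊢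
  have h1 := pat_of_con h hn hj false
  have h2 : (v.insertNth false (sgl j) : Fin (n + 1) → Bool) = sgl (v.succAbove j) := by
    funext i
    rcases Fin.eq_self_or_eq_succAbove v i with rfl | ⟨l, rfl⟩
    · simp [sgl, (Fin.succAbove_ne _ _).symm]
    · simp [sgl]
  rwa [h2] at h1

/-- the comparison lemma -/
theorem cmp {V : Submodule ℝ (Fin n → ℝ)} (h : Uni V 3) {j k v v' : Fin n} (hjk : j ≠ k)
    (hvj : v ≠ j) (hvk : v ≠ k) (hv'k : v' ≠ k) (hvv' : v ≠ v')
    {D x x' : Fin n → ℝ} (hD : D ∈ V) (hDj : D j = 0) (hDk : D k = 0) (hDD : 0 < D v * D v')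
    (hx : x ∈ V) (hx' : x' ∈ V) (hxj : x j = 1) (hx'j : x' j = 1) (hxk : x k = 0)
    (hx'k : x' k = 0) (hxv : x v = 0) (hx'v : x' v' = 0) (hxv' : x v' ≤ 0) (hx'v' : x' v ≤ 0) :
    False := by
  have hDv : D v ≠ 0 := left_ne_zero_of_mul hDD.ne'
  set s := (x v - x' v) / D v with hs
  have hz : x - x' - s • D = 0 := by
    refine eq_zero_of h (V.sub_mem (V.sub_mem hx hx') (V.smul_mem _ hD)) (R := {j, k, v})
      (by rw [card_eq_three.2 ⟨j, k, v, hjk, hvj.symm, hvk.symm, rfl⟩]) ?_
    intro i hi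
    simp only [mem_insert, mem_singleton] at hi
    rcases hi with rfl | rfl | rfl
    · simp [hxj, hx'j, hDj]
    · simp [hxk, hx'k, hDk]
    · simp only [Pi.sub_apply, Pi.smul_apply, smul_eq_mul]
      rw [hs, div_mul_cancel₀ _ hDv]; ring
  have e : ∀ i, x i - x' i = s * D i := by
    intro i
    have := congrFun hz i
    simp only [Pi.sub_apply, Pi.smul_apply, smul_eq_mul, Pi.zero_apply] at this
    linarith
  have e1 := e v
  have e2 := e v'
  rw [hxv] at e1
  rw [hx'v] at e2
  have f1 : 0 ≤ s * D v := by linarith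
  have f2 : s * D v' ≤ 0 := by linarith
  have f3 : s * D v * (s * D v') ≤ 0 := mul_nonpos_of_nonneg_of_nonpos f1 f2
  have f4 : s * D v * (s * D v') = s ^ 2 * (D v * D v') := by ring
  have f5 : s = 0 := by
    by_contra hne
    have : 0 < s ^ 2 * (D v * D v') := mul_pos (by positivity) hDD
    linarith
  have f6 : x v' = 0 := by rw [f5] at e2; linarith
  have : x = 0 := eq_zero_of h hx (R := {k, v, v'})
      (by rw [card_eq_three.2 ⟨k, v, v', hvk.symm, hv'k.symm, hvv', rfl⟩]) (by
    intro i hi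
    simp only [mem_insert, mem_singleton] at hi
    rcases hi with rfl | rfl | rfl
    · exact hxk
    · exact hxv
    · exact f6)
  rw [this] at hxj
  simp at hxj

/-- elimination -/
theorem elim {V : Submodule ℝ (Fin n → ℝ)} (htc : TC V) {x y : Fin n → ℝ} (hx : x ∈ V)
    (hy : y ∈ V) {j k l : Fin n} (hl : l ≠ j) (hxk : x k < 0) (hyk : 0 < y k) (hxl : x l < 0)
    (hyl : y l < 0) (hx1 : ∀ i, i ≠ j → x i ≤ 0) (hy1 : ∀ i, i ≠ k → y i ≤ 0) :
    ∃ z ∈ V, z k = 0 ∧ z j = 1 ∧ (∀ i, i ≠ j → z i ≤ 0) ∧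
      (∀ i, i ≠ j → x i < 0 → y i < 0 → z i < 0) ∧ (∀ i, x i = 0 → y i = 0 → z i = 0) := by
  set z : Fin n → ℝ := y k • x - x k • y with hz
  have hzV : z ∈ V := V.sub_mem (V.smul_mem _ hx) (V.smul_mem _ hy)
  have hzi : ∀ i, z i = y k * x i - x k * y i := fun i => by simp [hz]
  have hzk : z k = 0 := by rw [hzi]; ring
  have hz1 : ∀ i, i ≠ j → z i ≤ 0 := by
    intro i hi
    by_cases hik : i = k
    · rw [hik, hzk]
    · rw [hzi]
      have := mul_nonpos_of_nonneg_of_nonpos hyk.le (hx1 i hi)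
      have := mul_nonneg_of_nonpos_of_nonpos hxk.le (hy1 i hik)
      linarith
  have hz2 : ∀ i, i ≠ j → x i < 0 → y i < 0 → z i < 0 := by
    intro i hi h1 h2
    rw [hzi]
    have := mul_neg_of_pos_of_neg hyk h1
    have := mul_pos_of_neg_of_neg hxk h2
    linarith
  have hzj : 0 < z j := by
    by_contra hc
    push Not at hc
    have : -z = 0 := htc _ (V.neg_mem hzV) (fun i => by
      by_cases hi : i = j
      · subst hi; simpa using hc
      · simpa using hz1 i hi)
    have h1 := hz2 l hl hxl hyl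
    rw [neg_eq_zero.1 this] at h1
    simp at h1
  refine ⟨(z j)⁻¹ • z, V.smul_mem _ hzV, by simp [hzk], by simp [hzj.ne'], fun i hi => ?_,
    fun i hi h1 h2 => ?_, fun i h1 h2 => ?_⟩
  · simp only [Pi.smul_apply, smul_eq_mul]
    exact mul_nonpos_of_nonneg_of_nonpos (by positivity) (hz1 i hi)
  · simp only [Pi.smul_apply, smul_eq_mul]
    exact mul_neg_of_pos_of_neg (by positivity) (hz2 i hi h1 h2)
  · simp only [Pi.smul_apply, smul_eq_mul]
    rw [hzi i, h1, h2]; ring

/-- the dual basis for three nonvertices -/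
theorem basis3 {V : Submodule ℝ (Fin n → ℝ)} (htc : TC V) {a b c : Fin n} (hab : a ≠ b)
    (hac : a ≠ c) (hbc : b ≠ c) (ha : a ∈ NV V) (hb : b ∈ NV V) (hc : c ∈ NV V)
    (hn : 4 ≤ n) : ∃ y ∈ V, y a = 1 ∧ y b = 0 ∧ y c = 0 ∧
      ∀ i, i ≠ a → i ≠ b → i ≠ c → y i < 0 := by
  obtain ⟨l, hla, hlb, hlc⟩ : ∃ l : Fin n, l ≠ a ∧ l ≠ b ∧ l ≠ c := by
    by_contra hcon
    push Not at hcon
    have : (univ : Finset (Fin n)) ⊆ {a, b, c} := by
      intro i _
      simp only [mem_insert, mem_singleton]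
      by_cases h1 : i = a
      · exact Or.inl h1
      · by_cases h2 : i = b
        · exact Or.inr (Or.inl h2)
        · exact Or.inr (Or.inr (hcon i h1 h2))
    have := card_le_card this
    rw [card_univ, Fintype.card_fin, card_eq_three.2 ⟨a, b, c, hab, hac, hbc, rfl⟩] at this
    omega
  obtain ⟨p, hp, hpa, hpo⟩ := mem_NV.1 ha
  obtain ⟨q, hq, hqb, hqo⟩ := mem_NV.1 hb
  obtain ⟨r, hr, hrc, hro⟩ := mem_NV.1 hc
  obtain ⟨z, hz, hzc, hza, hz1, hz2, -⟩ := elim htc hp hr (j := a) (k := c) (l := l) hla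
    (hpo c hac.symm) hrc (hpo l hla) (hro l hlc) (fun i hi => (hpo i hi).le)
    (fun i hi => (hro i hi).le)
  obtain ⟨z', hz', hzc', hzb', hz1', hz2', -⟩ := elim htc hq hr (j := b) (k := c) (l := l) hlb
    (hqo c hbc.symm) hrc (hqo l hlb) (hro l hlc) (fun i hi => (hqo i hi).le)
    (fun i hi => (hro i hi).le)
  have hzb : z b < 0 := hz2 b hab.symm (hpo b hab.symm) (hro b hbc)
  have hzl : z l < 0 := hz2 l hla (hpo l hla) (hro l hlc)
  have hzl' : z' l < 0 := hz2' l hlb (hqo l hlb) (hro l hlc)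
  obtain ⟨y, hy, hyb, hya, hy1, hy2, hy3⟩ := elim htc hz hz' (j := a) (k := b) (l := l) hla
    hzb (by rw [hzb']; norm_num) hzl hzl' (fun i hi => hz1 i hi) (fun i hi => hz1' i hi)
  refine ⟨y, hy, hya, hyb, hy3 c hzc hzc', fun i h1 h2 h3 => hy2 i h1 ?_ ?_⟩
  · exact hz2 i h1 (hpo i h1) (hro i h3)
  · exact hz2' i h2 (hqo i h2) (hro i h3)

/-- from two nonvertices of a contraction -/
theorem two_of_con {V : Submodule ℝ (Fin (n + 1) → ℝ)} (htc : TC V) {v : Fin (n + 1)}
    (hn : 3 ≤ n) {j k : Fin n} (hjk : j ≠ k) (hj : j ∈ NV (con V v)) (hk : k ∈ NV (con V v)) :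
    ∃ x ∈ V, x v = 0 ∧ x (v.succAbove k) = 0 ∧ x (v.succAbove j) = 1 ∧
      ∀ i, i ≠ v.succAbove j → x i ≤ 0 := by
  obtain ⟨l, hlj, hlk⟩ : ∃ l : Fin n, l ≠ j ∧ l ≠ k := by
    by_contra hcon
    push Not at hcon
    have : (univ : Finset (Fin n)) ⊆ {j, k} := by
      intro i _
      simp only [mem_insert, mem_singleton]
      by_cases h1 : i = j
      · exact Or.inl h1
      · exact Or.inr (hcon i h1)
    have := card_le_card this
    rw [card_univ, Fintype.card_fin, card_pair hjk] at this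
    omega
  obtain ⟨x, hx, hxv, hxj, hxo⟩ := NV_con hj
  obtain ⟨y, hy, hyv, hyk, hyo⟩ := NV_con hk
  have hjk' : v.succAbove j ≠ v.succAbove k := fun e => hjk (Fin.succAbove_right_injective e)
  have hlj' : v.succAbove l ≠ v.succAbove j := fun e => hlj (Fin.succAbove_right_injective e)
  have hlk' : v.succAbove l ≠ v.succAbove k := fun e => hlk (Fin.succAbove_right_injective e)
  obtain ⟨z, hz, hzk, hzj, hz1, -, hz3⟩ := elim htc hx hy (j := v.succAbove j)
    (k := v.succAbove k) (l := v.succAbove l) hlj'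
    (hxo _ (Fin.succAbove_ne _ _) hjk'.symm) hyk (hxo _ (Fin.succAbove_ne _ _) hlj')
    (hyo _ (Fin.succAbove_ne _ _) hlk') (fun i hi => by
      by_cases hiv : i = v
      · rw [hiv, hxv]
      · exact (hxo i hiv hi).le) (fun i hi => by
      by_cases hiv : i = v
      · rw [hiv, hyv]
      · exact (hyo i hiv hi).le)
  exact ⟨z, hz, hz3 v hxv hyv, hzk, hzj, hz1⟩

/-- the good vertex -/
theorem good {V : Submodule ℝ (Fin (n + 1) → ℝ)} (h : Uni V 3) (htc : TC V) (hn : 5 ≤ n) :
    (∃ v, v ∉ NV V ∧ (NV (con V v)).card ≤ 1) ∨ (n = 5 ∧ (NV V).card = 3) := by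
  by_contra hcon
  push Not at hcon
  obtain ⟨hcon, hc3⟩ := hcon
  have hle := card_NV_le h htc (by omega)
  -- for every vertex a pair of nonvertices
  have H : ∀ v, v ∉ NV V → ∃ j k, j ∈ NV V ∧ k ∈ NV V ∧ j ≠ k ∧
      (∃ x ∈ V, x v = 0 ∧ x k = 0 ∧ x j = 1 ∧ ∀ i, i ≠ j → x i ≤ 0) ∧
      (∃ x ∈ V, x v = 0 ∧ x j = 0 ∧ x k = 1 ∧ ∀ i, i ≠ k → x i ≤ 0) := by
    intro v hv
    obtain ⟨j, hj, k, hk, hjk⟩ := one_lt_card.1 (hcon v hv)
    refine ⟨v.succAbove j, v.succAbove k, NV_of_con h (by omega) hj, NV_of_con h (by omega) hk,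
      fun e => hjk (Fin.succAbove_right_injective e), two_of_con htc (by omega) hjk hj hk,
      two_of_con htc (by omega) hjk.symm hk hj⟩
  have hcompl : ((NV V)ᶜ).card = n + 1 - (NV V).card := by
    rw [card_compl, Fintype.card_fin]
  -- there is a vertex
  obtain ⟨v0, hv0⟩ : ∃ v, v ∉ NV V := by
    have : 0 < ((NV V)ᶜ).card := by omega
    obtain ⟨v, hv⟩ := card_pos.1 this
    exact ⟨v, mem_compl.1 hv⟩
  obtain ⟨j0, k0, hj0, hk0, hjk0, -, -⟩ := H v0 hv0
  have h2 : 2 ≤ (NV V).card := by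
    have : ({j0, k0} : Finset (Fin (n + 1))) ⊆ NV V := by
      intro i hi
      rcases mem_insert.1 hi with rfl | hi
      · exact hj0
      · rw [mem_singleton.1 hi]; exact hk0
    have := card_le_card this
    rwa [card_pair hjk0] at this
  rcases (show (NV V).card = 2 ∨ (NV V).card = 3 by omega) with hc | hc
  · -- two nonvertices
    have hNV : ∀ i, i ∈ NV V ↔ (i = j0 ∨ i = k0) := by
      have : ({j0, k0} : Finset (Fin (n + 1))) = NV V := by
        apply eq_of_subset_of_card_le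
        · intro i hi
          rcases mem_insert.1 hi with rfl | hi
          · exact hj0
          · rw [mem_singleton.1 hi]; exact hk0
        · rw [card_pair hjk0, hc]
      intro i
      rw [← this]; simp
    have H' : ∀ v, v ∉ NV V →
        ∃ x ∈ V, x v = 0 ∧ x k0 = 0 ∧ x j0 = 1 ∧ ∀ i, i ≠ j0 → x i ≤ 0 := by
      intro v hv
      obtain ⟨j, k, hj, hk, hjk, h3, h4⟩ := H v hv
      rcases (hNV j).1 hj with rfl | rfl
      · rcases (hNV k).1 hk with rfl | rfl
        · exact absurd rfl hjk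
        · exact h3
      · rcases (hNV k).1 hk with rfl | rfl
        · exact h4
        · exact absurd rfl hjk
    obtain ⟨D, hD, hD1⟩ := interp h {j0, k0, v0} (card_le_three)
      (fun i => if i = v0 then 1 else 0)
    have hvj : ∀ v, v ∉ NV V → v ≠ j0 := fun v hv e => hv (e ▸ hj0)
    have hvk : ∀ v, v ∉ NV V → v ≠ k0 := fun v hv e => hv (e ▸ hk0)
    have hDj : D j0 = 0 := by
      rw [hD1 j0 (by simp), if_neg (hvj v0 hv0).symm]
    have hDk : D k0 = 0 := by
      rw [hD1 k0 (by simp), if_neg (hvk v0 hv0).symm]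
    have hD0 : D ≠ 0 := by
      rintro rfl
      have := hD1 v0 (by simp)
      simp at this
    have hDv : ∀ v, v ∉ NV V → D v ≠ 0 := by
      intro v hv hDv
      apply hD0
      refine eq_zero_of h hD (R := {j0, k0, v})
        (by rw [card_eq_three.2 ⟨j0, k0, v, hjk0, (hvj v hv).symm, (hvk v hv).symm, rfl⟩]) ?_
      intro i hi
      simp only [mem_insert, mem_singleton] at hi
      rcases hi with rfl | rfl | rfl
      · exact hDj
      · exact hDk
      · exact hDv
    -- two vertices with the same sign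
    obtain ⟨v, hv, v', hv', hne, hs⟩ := exists_ne_map_eq_of_card_lt_of_maps_to
      (s := (NV V)ᶜ) (t := (univ : Finset Bool)) (f := fun v => decide (0 < D v))
      (by rw [hcompl, hc]; simp; omega) (fun _ _ => mem_univ _)
    rw [mem_compl] at hv hv'
    have hDD : 0 < D v * D v' := by
      have hs' : (0 < D v) ↔ (0 < D v') := by simpa using hs
      rcases lt_or_gt_of_ne (hDv v hv) with h3 | h3
      · rcases lt_or_gt_of_ne (hDv v' hv') with h4 | h4
        · exact mul_pos_of_neg_of_neg h3 h4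
        · exact absurd (hs'.2 h4) (not_lt.2 h3.le)
      · exact mul_pos h3 (hs'.1 h3)
    obtain ⟨x, hx, x1, x2, x3, x4⟩ := H' v hv
    obtain ⟨x', hx', x1', x2', x3', x4'⟩ := H' v' hv'
    exact cmp h hjk0 (hvj v hv) (hvk v hv) (hvk v' hv') hne hD hDj hDk hDD hx hx' x3 x3' x2 x2'
      x1 x1' (x4 v' (hvj v' hv')) (x4' v (hvj v hv))
  · -- three nonvertices
    have hn6 : n ≠ 5 := fun e => hc3 e hc
    obtain ⟨a, b, c, hab, hac, hbc, hNV⟩ := card_eq_three.1 hc
    have hN : ∀ i, i ∈ NV V ↔ (i = a ∨ i = b ∨ i = c) := by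
      intro i; rw [hNV]; simp
    have ha : a ∈ NV V := (hN a).2 (Or.inl rfl)
    have hb : b ∈ NV V := (hN b).2 (Or.inr (Or.inl rfl))
    have hcc : c ∈ NV V := (hN c).2 (Or.inr (Or.inr rfl))
    have hDex : ∀ t ∈ NV V, ∃ D ∈ V, (∀ i ∈ NV V, i ≠ t → D i = 0) ∧
        ∀ i, i ∉ NV V → D i < 0 := by
      intro t ht
      rcases (hN t).1 ht with rfl | rfl | rfl
      · obtain ⟨y, hy, -, y1, y2, y3⟩ := basis3 htc hab hac hbc ha hb hcc (by omega)
        refine ⟨y, hy, fun i hi hit => ?_, fun i hi => ?_⟩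
        · rcases (hN i).1 hi with rfl | rfl | rfl
          · exact absurd rfl hit
          · exact y1
          · exact y2
        · rw [hN] at hi
          push Not at hi
          exact y3 i hi.1 hi.2.1 hi.2.2
      · obtain ⟨y, hy, -, y1, y2, y3⟩ := basis3 htc hab.symm hbc hac hb ha hcc (by omega)
        refine ⟨y, hy, fun i hi hit => ?_, fun i hi => ?_⟩
        · rcases (hN i).1 hi with rfl | rfl | rfl
          · exact y1
          · exact absurd rfl hit
          · exact y2
        · rw [hN] at hi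
          push Not at hi
          exact y3 i hi.2.1 hi.1 hi.2.2
      · obtain ⟨y, hy, -, y1, y2, y3⟩ := basis3 htc hac.symm hbc.symm hab hcc ha hb (by omega)
        refine ⟨y, hy, fun i hi hit => ?_, fun i hi => ?_⟩
        · rcases (hN i).1 hi with rfl | rfl | rfl
          · exact y1
          · exact y2
          · exact absurd rfl hit
        · rw [hN] at hi
          push Not at hi
          exact y3 i hi.2.2 hi.1 hi.2.1
    -- the third nonvertex
    have T : ∀ v, ∃ t, v ∉ NV V → t ∈ NV V ∧ ∀ j k, j ∈ NV V → k ∈ NV V → j ≠ k → j ≠ t →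
        k ≠ t → ∃ x ∈ V, x v = 0 ∧ x k = 0 ∧ x j = 1 ∧ ∀ i, i ≠ j → x i ≤ 0 := by
      intro v
      by_cases hv : v ∈ NV V
      · exact ⟨v, fun h' => absurd hv h'⟩
      obtain ⟨j, k, hj, hk, hjk, h3, h4⟩ := H v hv
      obtain ⟨t, ht, htj, htk, htt⟩ : ∃ t ∈ NV V, t ≠ j ∧ t ≠ k ∧
          ∀ i ∈ NV V, i ≠ t → i = j ∨ i = k := by
        have hsub : ({j, k} : Finset (Fin (n + 1))) ⊆ NV V := by
          intro i hi
          rcases mem_insert.1 hi with rfl | hi
          · exact hj
          · rw [mem_singleton.1 hi]; exact hk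
        have hE : (NV V \ {j, k}).card = 1 := by
          rw [card_sdiff_of_subset hsub, card_pair hjk, hc]
        obtain ⟨t, ht⟩ := card_eq_one.1 hE
        have htm : t ∈ NV V \ {j, k} := by rw [ht]; exact mem_singleton_self t
        rw [mem_sdiff, mem_insert, mem_singleton, not_or] at htm
        refine ⟨t, htm.1, htm.2.1, htm.2.2, fun i hi hit => ?_⟩
        by_contra hcon'
        have hi2 : i ∈ NV V \ {j, k} := by
          rw [mem_sdiff, mem_insert, mem_singleton]; exact ⟨hi, hcon'⟩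
        rw [ht, mem_singleton] at hi2
        exact hit hi2
      refine ⟨t, fun _ => ⟨ht, fun j' k' hj' hk' hjk' hjt hkt => ?_⟩⟩
      rcases htt j' hj' hjt with rfl | rfl <;> rcases htt k' hk' hkt with rfl | rfl
      · exact absurd rfl hjk'
      · exact h3
      · exact h4
      · exact absurd rfl hjk'
    choose t ht using T
    obtain ⟨v, hv, v', hv', hne, hs⟩ := exists_ne_map_eq_of_card_lt_of_maps_to
      (s := (NV V)ᶜ) (t := NV V) (f := t)
      (by rw [hcompl, hc]; omega) (fun v hv => (ht v (mem_compl.1 hv)).1)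
    rw [mem_compl] at hv hv'
    obtain ⟨h3, h4⟩ := ht v hv
    obtain ⟨h3', h4'⟩ := ht v' hv'
    rw [← hs] at h3' h4'
    obtain ⟨j, hj, k, hk, hjk, hjt, hkt⟩ : ∃ j ∈ NV V, ∃ k ∈ NV V, j ≠ k ∧ j ≠ t v ∧
        k ≠ t v := by
      have : 1 < ((NV V).erase (t v)).card := by rw [card_erase_of_mem h3, hc]; norm_num
      obtain ⟨j, hj, k, hk, hjk⟩ := one_lt_card.1 this
      exact ⟨j, mem_of_mem_erase hj, k, mem_of_mem_erase hk, hjk, ne_of_mem_erase hj,
        ne_of_mem_erase hk⟩
    obtain ⟨D, hD, hD1, hD2⟩ := hDex (t v) h3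
    obtain ⟨x, hx, x1, x2, x3, x4⟩ := h4 j k hj hk hjk hjt hkt
    obtain ⟨x', hx', x1', x2', x3', x4'⟩ := h4' j k hj hk hjk hjt hkt
    have nj : ∀ v, v ∉ NV V → v ≠ j := fun v hv e => hv (e ▸ hj)
    have nk : ∀ v, v ∉ NV V → v ≠ k := fun v hv e => hv (e ▸ hk)
    exact cmp h hjk (nj v hv) (nk v hv) (nk v' hv') hne hD (hD1 j hj hjt) (hD1 k hk hkt)
      (mul_pos_of_neg_of_neg (hD2 v hv) (hD2 v' hv')) hx hx' x3 x3' x2 x2'
      x1 x1' (x4 v' (nj v' hv')) (x4' v (nj v hv))

/-- rank two -/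
theorem Bs_two' {V : Submodule ℝ (Fin (n + 1) → ℝ)} (h : Uni V 2) (htc : TC V) (hn : 3 ≤ n) :
    2 * (n + 1) ≤ (Bs 2 V).card + 4 := by
  have := Bs_two h htc
  have := card_NV_le h htc (by omega)
  omega

/-- `k = 2`, base case with three nonvertices -/
theorem base3 {V : Submodule ℝ (Fin (5 + 1) → ℝ)} (h : Uni V 3) (htc : TC V)
    (hc : (NV V).card = 3) : 8 ≤ (Bs 3 V).card := by
  obtain ⟨a, b, c, hab, hac, hbc, hNV⟩ := card_eq_three.1 hc
  have hN : ∀ i, i ∈ NV V ↔ (i = a ∨ i = b ∨ i = c) := by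
    intro i; rw [hNV]; simp
  have ha : a ∈ NV V := (hN a).2 (Or.inl rfl)
  have hb : b ∈ NV V := (hN b).2 (Or.inr (Or.inl rfl))
  have hcc : c ∈ NV V := (hN c).2 (Or.inr (Or.inr rfl))
  obtain ⟨p, hp, pa, pb, pc, po⟩ := basis3 htc hab hac hbc ha hb hcc (by norm_num)
  obtain ⟨q, hq, qb, qa, qc, qo⟩ := basis3 htc hab.symm hbc hac hb ha hcc (by norm_num)
  obtain ⟨r, hr, rc, ra, rb, ro⟩ := basis3 htc hac.symm hbc.symm hab hcc ha hb (by norm_num)
  -- a vertex
  obtain ⟨v, hv⟩ : ∃ v, v ∉ NV V := by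
    have : 0 < ((NV V)ᶜ).card := by rw [card_compl, Fintype.card_fin]; omega
    obtain ⟨v, hv⟩ := card_pos.1 this
    exact ⟨v, mem_compl.1 hv⟩
  have hv' := hv
  rw [hN] at hv'
  push Not at hv'
  -- elements of `V` in terms of the basis
  have hexp : ∀ x ∈ V, x v = x a * p v + x b * q v + x c * r v := by
    intro x hx
    have : x - x a • p - x b • q - x c • r = 0 := by
      refine eq_zero_of h (V.sub_mem (V.sub_mem (V.sub_mem hx (V.smul_mem _ hp))
        (V.smul_mem _ hq)) (V.smul_mem _ hr)) (R := {a, b, c})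
        (by rw [card_eq_three.2 ⟨a, b, c, hab, hac, hbc, rfl⟩]) ?_
      intro i hi
      simp only [mem_insert, mem_singleton] at hi
      rcases hi with rfl | rfl | rfl
      · simp [pa, qa, ra]
      · simp [pb, qb, rb]
      · simp [pc, qc, rc]
    have := congrFun this v
    simp only [Pi.sub_apply, Pi.smul_apply, smul_eq_mul, Pi.zero_apply] at this
    linarith
  let σ : Fin (5 + 1) → Bool := fun i => decide (i ∈ NV V)
  have hσ : Pat V σ := by
    refine ⟨p + q + r, V.add_mem (V.add_mem hp hq) hr, fun i => ?_⟩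
    by_cases hi : i ∈ NV V
    · refine ⟨fun _ => ?_, fun h' => absurd h' (by simp [σ, hi])⟩
      rcases (hN i).1 hi with rfl | rfl | rfl
      · simp [pa, qa, ra]
      · simp [pb, qb, rb]
      · simp [pc, qc, rc]
    · refine ⟨fun h' => absurd h' (by simp [σ, hi]), fun _ => ?_⟩
      rw [hN] at hi
      push Not at hi
      have := po i hi.1 hi.2.1 hi.2.2
      have := qo i hi.2.1 hi.1 hi.2.2
      have := ro i hi.2.2 hi.1 hi.2.1
      simp only [Pi.add_apply]
      linarith
  have hct : ct true σ = 3 := by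
    rw [← hc, ct]
    simp only [σ, decide_eq_true_eq]
    rw [← card_filter]
    congr 1
    ext i; simp
  have hcf : ct false σ = 3 := by
    have := ct_add σ
    omega
  have hσB : σ ∈ Bs 3 V := mem_Bs.2 ⟨hσ, hct.ge, hcf.ge⟩
  have hσB' : (fun i => !(σ i)) ∈ Bs 3 V := by
    refine mem_Bs.2 ⟨pat_not hσ, ?_, ?_⟩ <;> rw [ct_not]
    · exact hcf.ge
    · exact hct.ge
  have hne : σ ≠ fun i => !(σ i) := by
    intro e
    have := congrFun e a
    simp at this
  -- key: no pattern of the contraction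
  have key : ∀ x ∈ V, x v = 0 → ¬ ((∀ i ∈ NV V, 0 < x i)) := by
    intro x hx hxv hpos
    have h1 := hexp x hx
    rw [hxv] at h1
    have := mul_neg_of_pos_of_neg (hpos a ha) (po v hv'.1 hv'.2.1 hv'.2.2)
    have := mul_neg_of_pos_of_neg (hpos b hb) (qo v hv'.2.1 hv'.1 hv'.2.2)
    have := mul_neg_of_pos_of_neg (hpos c hcc) (ro v hv'.2.2 hv'.1 hv'.2.1)
    linarith
  have h1 : (Bs 3 (del V v)).card + (Bs 2 (con V v)).card +
      ({σ, fun i => !(σ i)} : Finset (Fin (5 + 1) → Bool)).card ≤ (Bs 3 V).card :=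
    Bs_rec h (by norm_num) v {σ, fun i => !(σ i)} (by
    intro τ hτ
    have hcount : ∀ τ : Fin 5 → Bool, ¬ (2 + 1 ≤ ct true τ ∧ 2 + 1 ≤ ct false τ) := by
      intro τ
      have := ct_add τ
      omega
    rcases mem_insert.1 hτ with rfl | hτ
    · refine ⟨hσB, fun c' τ' e => ⟨fun hpat => ?_, hcount τ'⟩⟩
      obtain ⟨y, hy, hy1⟩ := hpat
      obtain ⟨x, hx, hxv, hxy⟩ := mem_con.1 hy
      refine key x hx hxv fun i hi => ?_
      obtain ⟨l, rfl⟩ := Fin.exists_succAbove_eq (show i ≠ v from fun e' => hv (e' ▸ hi))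
      rw [hxy]
      refine (hy1 l).1 ?_
      have := congrFun e (v.succAbove l)
      simp only [σ, Fin.insertNth_apply_succAbove] at this
      rw [← this]; simpa using hi
    · rw [mem_singleton] at hτ
      subst hτ
      refine ⟨hσB', fun c' τ' e => ⟨fun hpat => ?_, hcount τ'⟩⟩
      obtain ⟨y, hy, hy1⟩ := hpat
      obtain ⟨x, hx, hxv, hxy⟩ := mem_con.1 hy
      refine key (-x) (V.neg_mem hx) (by simp [hxv]) fun i hi => ?_
      obtain ⟨l, rfl⟩ := Fin.exists_succAbove_eq (show i ≠ v from fun e' => hv (e' ▸ hi))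
      rw [Pi.neg_apply, hxy, neg_pos]
      refine (hy1 l).2 ?_
      have := congrFun e (v.succAbove l)
      simp only [σ, Fin.insertNth_apply_succAbove] at this
      rw [← this]; simpa using hi)
  rw [card_pair hne] at h1
  have h2 := Bs_two' (h.con v) (htc.con v) (by norm_num)
  omega

/-- `k = 2` -/
theorem two : ∀ (N d : ℕ), N = d + 4 → 2 ≤ d → ∀ V : Submodule ℝ (Fin N → ℝ),
    Uni V 3 → TC V → d * d + 5 * d ≤ (Bs 3 V).card + 6 := by
  intro N
  induction N with
  | zero => intro d h; omega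
  | succ n ih =>
    intro d hN hd V hU htc
    rcases good hU htc (by omega) with ⟨v, hv, hv1⟩ | ⟨hn, hc⟩
    · have h1 : (Bs 3 (del V v)).card + (Bs 2 (con V v)).card +
          (∅ : Finset (Fin (n + 1) → Bool)).card ≤ (Bs 3 V).card :=
        Bs_rec hU (by omega) v ∅ (by simp)
      simp only [card_empty] at h1
      obtain ⟨n, rfl⟩ : ∃ n', n = n' + 1 := ⟨n - 1, by omega⟩
      have h2 := Bs_two (hU.con v) (htc.con v)
      rcases Nat.lt_or_ge d 3 with hlt | hge
      · have hd2 : d = 2 := by omega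
        subst hd2
        omega
      · obtain ⟨d, rfl⟩ : ∃ d', d = d' + 1 := ⟨d - 1, by omega⟩
        have h3 := ih d (by omega) (by omega) (del V v) (hU.del (by omega) v)
          (tc_del hU htc hv)
        have e : (d + 1) * (d + 1) + 5 * (d + 1) = d * d + 5 * d + 2 * d + 6 := by ring
        have e' : n + 1 = d + 4 := by omega
        rw [e]
        omega
    · subst hn
      have hd2 : d = 2 := by omega
      subst hd2
      have := base3 hU htc hc
      omega

/-- `k = 1` -/
theorem one {d : ℕ} (hd : 1 ≤ d) (V : Submodule ℝ (Fin (d + 3) → ℝ)) (hU : Uni V 2)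
    (htc : TC V) : 2 * (d + 1) ≤ (Bs 2 V).card := by
  have := Bs_two' (n := d + 2) hU htc (by omega)
  omega

/-- the improved ballot bound -/
theorem ballot' : ∀ (N d k : ℕ), N = d + k + 4 → k + 2 ≤ d → ∀ V : Submodule ℝ (Fin N → ℝ),
    Uni V (k + 3) → TC V → 2 * (bal d (k + 2) + 2 * bal (d - 1) (k + 1)) ≤ (Bs (k + 3) V).card := by
  intro N
  induction N with
  | zero => intro d k h; omega
  | succ n ih =>
    intro d k hN hkd V hU htc
    obtain ⟨d, rfl⟩ : ∃ d', d = d' + 1 := ⟨d - 1, by omega⟩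
    simp only [Nat.add_sub_cancel]
    cases k with
    | zero =>
      have h1 := two (n + 1) (d + 1) (by omega) (by omega) V hU htc
      have h2 : bal (d + 1) 2 + (d + 1 + 1 + 1).choose 1 = (d + 1 + 1 + 1).choose 2 :=
        bal_closed (d + 1 + 1) (d + 1) 1 (by omega) (by omega)
      have h3 : bal d 1 + (d + 1).choose 0 = (d + 1).choose 1 :=
        bal_closed d d 0 (by omega) (by omega)
      have e3 : (d + 1 + 1 + 1).choose 2 = (d + 3) * (d + 2) / 2 := by
        rw [Nat.choose_two_right]; congr 1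
      have e4 : (d + 3) * (d + 2) % 2 = 0 := by
        rcases Nat.even_or_odd d with ⟨t, rfl⟩ | ⟨t, rfl⟩
        · have : (t + t + 3) * (t + t + 2) = 2 * ((t + t + 3) * (t + 1)) := by ring
          omega
        · have : (2 * t + 1 + 3) * (2 * t + 1 + 2) = 2 * ((t + 2) * (2 * t + 1 + 2)) := by ring
          omega
      simp only [Nat.choose_zero_right, Nat.choose_one_right] at h2 h3
      rw [e3] at h2
      have e5 : (d + 3) * (d + 2) = d * d + 5 * d + 6 := by ring
      have e6 : (d + 1) * (d + 1) + 5 * (d + 1) = d * d + 7 * d + 6 := by ring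
      rw [e6] at h1
      rw [e5] at h2 e4
      simp only [zero_add]
      have hq : d * d % 2 = d % 2 := by
        rw [Nat.mul_mod]
        rcases Nat.mod_two_eq_zero_or_one d with h0 | h0 <;> simp [h0]
      omega
    | succ k =>
      rw [bal_succ (by omega)]
      obtain ⟨v, hv⟩ := exists_vertex hU htc (by omega)
      have h1 : (Bs (k + 4) (del V v)).card + (Bs (k + 3) (con V v)).card +
          (∅ : Finset (Fin (n + 1) → Bool)).card ≤ (Bs (k + 4) V).card :=
        Bs_rec hU (by omega) v ∅ (by simp)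
      have h2 := ih (d + 1) k (by omega) (by omega) (con V v) (hU.con v) (htc.con v)
      simp only [Nat.add_sub_cancel, card_empty] at h1 h2
      have e9 : k + 1 + 3 = k + 4 := by omega
      rw [e9]
      have e10 : k + 1 + 1 = k + 2 := by omega
      simp only [e10]
      rcases Nat.lt_or_ge d (k + 1 + 2) with hlt | hge
      · have hz : bal d (k + 1 + 2) = 0 := bal_lt hlt
        have hdk : d = k + 2 := by omega
        have e : bal d (k + 2) = bal d (k + 1) := by
          subst hdk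
          have e0 : bal (k + 1 + 1) (k + 1 + 1) = bal (k + 1) (k + 1 + 1) + bal (k + 1 + 1) (k + 1) :=
            bal_succ (by omega)
          rw [bal_lt (show k + 1 < k + 1 + 1 by omega), zero_add] at e0
          exact e0
        have hz' : bal d (k + 1 + 1 + 1) = 0 := hz
        rw [hz', e]
        omega
      · have h3 := ih d (k + 1) (by omega) hge (del V v) (hU.del (by omega) v) hv
        obtain ⟨d, rfl⟩ : ∃ d', d = d' + 1 := ⟨d - 1, by omega⟩
        simp only [Nat.add_sub_cancel] at h3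
        have e : bal (d + 1) (k + 2) = bal d (k + 2) + bal (d + 1) (k + 1) :=
          bal_succ (d := d) (k := k + 1) (by omega)
        rw [e]
        have h3' : 2 * (bal (d + 1) (k + 2 + 1) + 2 * bal d (k + 2)) ≤
          (Bs (k + 4) (del V v)).card := h3
        omega

end Pool.Agent.Helper34.RP
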